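import Mathlib
import Pool.Agent.Helper26.ChDefs

set_option autoImplicit false

/-!
# Conic bundle surfaces in characteristic two: definitions
-/

universe u

namespace Pool.Agent.Helper31.CB

open MvPolynomial Pool.Agent.Helper26

/-- The value at `(u, y)` of the form
`y₀ ^ 2 + y₀ * (l₀(u) * y₁ + l₁(u) * y₂) + q₀(u) * y₁ ^ 2 + q₁(u) * y₁ * y₂ + q₂(u) * y₂ ^ 2`,
the coefficients being sent to the field `L` by `f`. -/
noncomputable def bundleForm {k L : Type*} [Field k] [Field L] (f : k →+* L)
    (l : Fin 2 → MvPolynomial (Fin 2) k) (q : Fin 3 → MvPolynomial (Fin 2) k)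
    (u : Fin 2 → L) (y : Fin 3 → L) : L :=
  y 0 ^ 2 + y 0 * (eval₂ f u (l 0) * y 1 + eval₂ f u (l 1) * y 2) +
    eval₂ f u (q 0) * y 1 ^ 2 + eval₂ f u (q 1) * y 1 * y 2 + eval₂ f u (q 2) * y 2 ^ 2

/-- The linear form `l₀(u) * y₁ + l₁(u) * y₂`. -/
noncomputable def linPart {k L : Type*} [Field k] [Field L] (f : k →+* L)
    (l : Fin 2 → MvPolynomial (Fin 2) k) (u : Fin 2 → L) (y : Fin 3 → L) : L :=
  eval₂ f u (l 0) * y 1 + eval₂ f u (l 1) * y 2

/-- The discriminant of the conic bundle, a binary quartic form. -/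
noncomputable def discr {k : Type*} [Field k] (l : Fin 2 → MvPolynomial (Fin 2) k)
    (q : Fin 3 → MvPolynomial (Fin 2) k) : MvPolynomial (Fin 2) k :=
  q 1 ^ 2 + l 0 * l 1 * q 1 + q 0 * l 1 ^ 2 + q 2 * l 0 ^ 2

/-- The polynomial in `u₀, u₁, y₀, y₁, y₂` which defines the conic bundle, namely
`y₀ ^ 2 + y₀ * (l₀(u) * y₁ + l₁(u) * y₂) + q₀(u) * y₁ ^ 2 + q₁(u) * y₁ * y₂ + q₂(u) * y₂ ^ 2`.
The variables `u₀, u₁` are indexed by the left summand and `y₀, y₁, y₂` by the right one. -/
noncomputable def bundlePoly {k : Type*} [Field k] (l : Fin 2 → MvPolynomial (Fin 2) k)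
    (q : Fin 3 → MvPolynomial (Fin 2) k) : MvPolynomial (Fin 2 ⊕ Fin 3) k :=
  X (Sum.inr 0) ^ 2 + X (Sum.inr 0) * (rename Sum.inl (l 0) * X (Sum.inr 1) +
      rename Sum.inl (l 1) * X (Sum.inr 2)) +
    rename Sum.inl (q 0) * X (Sum.inr 1) ^ 2 +
    rename Sum.inl (q 1) * X (Sum.inr 1) * X (Sum.inr 2) +
    rename Sum.inl (q 2) * X (Sum.inr 2) ^ 2

/-- The surface `bundlePoly l q = 0` in the projective bundle with coordinates `(u, y)`, where
`u ≠ 0` and `y ≠ 0`, is smooth: at each of its points over an algebraic closure at least one of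
the five partial derivatives does not vanish. -/
def IsSmoothBundle {k : Type u} [Field k] (l : Fin 2 → MvPolynomial (Fin 2) k)
    (q : Fin 3 → MvPolynomial (Fin 2) k) : Prop :=
  ∀ (u : Fin 2 → AlgebraicClosure k) (y : Fin 3 → AlgebraicClosure k), u ≠ 0 → y ≠ 0 →
    aeval (Sum.elim u y) (bundlePoly l q) = 0 →
    ∃ i, aeval (Sum.elim u y) (pderiv i (bundlePoly l q)) ≠ 0

/-- The map from the completion of `k` at `V` to the completion of `K` at `W` which extends the
embedding of `k` into `K`, for a place `W` of `K` above the place `V` of `k`. -/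
noncomputable def compMap {k K : Type*} [Field k] [Field K] [Algebra k K]
    (V : ValuationSubring k) (W : ValuationSubring K) :
    V.valuation.Completion → W.valuation.Completion :=
  UniformSpace.Completion.map fun x : WithVal V.valuation =>
    (WithVal.equiv W.valuation).symm (algebraMap k K (WithVal.equiv V.valuation x))

/-- The places `V` of `k` for which the number of places `W` of `K` above `V` such that
`t₁ * u₀ + t₀ * u₁`, evaluated at the point `u V` in the completion of `K` at `W`, is not a value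
of the norm form `y ^ 2 + y * z + ε * z ^ 2` over this completion, is odd. -/
def oddPlaces {k K : Type u} [Field k] [Field K] [Algebra k K] (ε : K) (t : Fin 2 → K)
    (u : ∀ V : ValuationSubring k, Fin 2 → V.valuation.Completion) : Set (ValuationSubring k) :=
  {V | V ≠ ⊤ ∧ Odd {W : ValuationSubring K | W.comap (algebraMap k K) = V ∧
    ¬ IsNormValue (toCompletion W ε) (toCompletion W (t 1) * compMap V W (u V 0) +
      toCompletion W (t 0) * compMap V W (u V 1))}.ncard}

end Pool.Agent.Helper31.CB
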