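import Mathlib
import Pool.Agent.Helper26.ChHP
import Pool.Agent.Helper31.CB.ChAlg

set_option autoImplicit false
set_option linter.unusedSectionVars false

/-!
# The Hasse principle for the pair attached to a quartic algebra
-/

universe u v

namespace Pool.Agent.Helper31.CB

open Polynomial Matrix Finset
open Pool.Agent.Helper26 hiding chQ chG chG_map qf_chG pm_chG pm_chG_mulVec ch_jac ch_hp

theorem ch_hp {F : Type v} {k : Type u} [Field F] [Finite F] [CharP F 2] [Field k]
    [CharP k 2] {φ : RatFunc F →+* k} (hφ : GoodEmb φ) [Infinite k]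
    {P : k[X]} (hP : P.Monic) (hP4 : P.natDegree = 4) (hsep : P.Separable) (A : k[X])
    {Δ Δ' : k[X]} (hΔ : P ∣ Δ * Δ' - 1) (hΔ3 : Δ.natDegree < 4)
    (hΔd : Δ.coeff 0 * Δ.coeff 3 + Δ.coeff 1 * Δ.coeff 2 ≠ 0)
    (hloc : ∀ V : ValuationSubring k, V ≠ ⊤ → ∃ z : Fin 8 → V.valuation.Completion,
      IsSmoothZero (fun i j => toCompletion V (chG P A Δ Δ' 0 i j))
        (fun i j => toCompletion V (chG P A Δ Δ' 1 i j)) z) :
    ∃ z : Fin 8 → k, z ≠ 0 ∧ tau P (chQ A Δ Δ' (Xp z) (Yp z)) = 0 ∧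
      tau P (X * chQ A Δ Δ' (Xp z) (Yp z)) = 0 := by
  obtain ⟨z, hz0, hz1, hz2⟩ := hp_eight hφ (chG P A Δ Δ' 0) (chG P A Δ Δ' 1) T7 (by
    intro w hw
    ext i
    rw [← comb_T7_castSucc w i, hw]
    rfl) (by
    set f := algebraMap k (AlgebraicClosure k) with hf
    have hchar : CharP (AlgebraicClosure k) 2 := charP_of_injective_algebraMap f.injective 2
    intro x hx h1 h2 r s hrs
    have hpl : ∀ j : ℕ, (fun i l => f (pull (chG P A Δ Δ' j) T7 i l)) =
        pull (chG (P.map f) (A.map f) (Δ.map f) (Δ'.map f) j) T7 := by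
      intro j
      ext i l
      rw [pull_map, T7_map]
      congr 1
      ext i l
      exact chG_map f hP A Δ Δ' j i l
    rw [hpl] at h1 h2
    rw [hpl, hpl] at hrs
    rw [qf_pull, qf_chG] at h1 h2
    rw [pow_zero, one_mul] at h1
    rw [pow_one] at h2
    refine ch_jac (P := P.map f) (hP.map f) (by rw [hP.natDegree_map, hP4])
      (hsep.map (f := f)).squarefree (A.map f) (Δ := Δ.map f) (Δ' := Δ'.map f) ?_ ?_ ?_
      (z := comb T7 x) ?_ (comb_T7_last x) h1 h2 ?_
    · have := Polynomial.map_dvd f hΔ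
      simpa using this
    · rw [natDegree_map]; exact hΔ3
    · rw [coeff_map, coeff_map, coeff_map, coeff_map, ← map_mul, ← map_mul, ← map_add]
      intro h0
      exact hΔd (f.injective (by rw [h0, map_zero]))
    · intro h0
      apply hx
      ext i
      rw [← comb_T7_castSucc x i, h0]
      rfl
    · intro i hi
      obtain ⟨i', rfl⟩ : ∃ i' : Fin 7, i = i'.castSucc := by
        refine ⟨⟨i, ?_⟩, rfl⟩
        have h3 := i.2
        have h4 : (i : ℕ) ≠ 7 := fun h => hi (Fin.ext h)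
        omega
      have h3 := congrFun hrs i'
      rw [Matrix.add_mulVec, Matrix.smul_mulVec, Matrix.smul_mulVec, Pi.add_apply, Pi.smul_apply,
        Pi.smul_apply, mulVec_pull, mulVec_pull, Pi.zero_apply] at h3
      rw [Matrix.add_mulVec, Matrix.smul_mulVec, Matrix.smul_mulVec, Pi.add_apply, Pi.smul_apply,
        Pi.smul_apply, ← h3]
      simp only [T7, single_dotProduct, one_mul]) hloc
  rw [qf_chG] at hz1 hz2
  rw [pow_zero, one_mul] at hz1
  rw [pow_one] at hz2
  exact ⟨z, hz0, hz1, hz2⟩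

end Pool.Agent.Helper31.CB
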