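import Mathlib
import Pool.Agent.Helper26.Delta

set_option autoImplicit false
set_option linter.unusedSectionVars false

/-!
# Existence of elements with prescribed local symbols

This generalises `Pool.Agent.Helper26.GoodEmb.exists_delta` to a parameter in the big field.
-/

universe u v

namespace Pool.Agent.Helper31.CB

open Polynomial Pool.Agent.Helper26

variable {F : Type v} {k K : Type u} [Field F] [Finite F] [CharP F 2] [Field k] [CharP k 2]
  [Field K] [CharP K 2] [Algebra k K] [FiniteDimensional k K] [Algebra.IsSeparable k K]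

/-- Existence of elements with prescribed local symbols. -/
theorem exists_delta {φ : RatFunc F →+* k} (hφ : GoodEmb φ) {t : k} (ht : IsTwoBasis t)
    (htK : IsTwoBasis (algebraMap k K t)) (A : K)
    (S : Finset (ValuationSubring k)) (hS : ∀ V ∈ S, V ≠ ⊤) (e : ValuationSubring k → K)
    (he : ∀ V, e V ≠ 0) (heS : ∀ V, V ∉ S → e V = 1)
    (hpar : Even {V : ValuationSubring k | V ≠ ⊤ ∧
      ¬ LT ht V (Algebra.trace k K (htK.sym A (e V)))}.ncard) :
    ∃ δ : K, δ ≠ 0 ∧ ∀ V : ValuationSubring k, V ≠ ⊤ → ∀ W ∈ above K V,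
      NW W A (δ * e V) := by
  classical
  have hφK := hφ.ext (K := K)
  -- the omitted place
  obtain ⟨V₀, hV₀, hV₀S, htV₀⟩ : ∃ V₀ : ValuationSubring k, V₀ ≠ ⊤ ∧ V₀ ∉ S ∧ t ∈ V₀ := by
    have h1 : (S : Set (ValuationSubring k)).Finite := S.finite_toSet
    obtain ⟨V, hV, hV'⟩ := (hφ.infinite_places.sdiff (h1.union (hφ.hfin t))).nonempty
    simp only [Set.mem_union, not_or, Set.mem_ofPred_eq, not_not] at hV'
    exact ⟨V, hV, hV'.1, hV'.2⟩
  obtain ⟨W₀, hW₀⟩ : ∃ W₀ : ValuationSubring K, W₀ ∈ above K V₀ := by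
    by_contra hcon
    push Not at hcon
    obtain ⟨b, hb⟩ := hφ.exists_not_LT hV₀ ht
    obtain ⟨x, hx⟩ := Algebra.trace_surjective k K b
    apply hb
    rw [← hx]
    exact hφ.LT_trace hV₀ ht htK fun W hW => absurd hW (hcon W)
  have hW₀t : W₀ ≠ ⊤ := above_ne_top hV₀ hW₀
  -- the places where `b` is prescribed
  have hfinS : {W : ValuationSubring K | W ≠ W₀ ∧ ((∃ V ∈ S, W ∈ above K V) ∨
      W ∈ above K V₀ ∨ (W ≠ ⊤ ∧ algebraMap k K t ∉ W))}.Finite := by
    have h1 : (⋃ V ∈ S, above K V).Finite :=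
      S.finite_toSet.biUnion fun V hV => hφ.above_finite (hS V hV)
    refine ((h1.union (hφ.above_finite (K := K) hV₀)).union (hφK.hfin (algebraMap k K t))).subset ?_
    rintro W ⟨-, ⟨V, hV, hW⟩ | hW | ⟨-, hW⟩⟩
    · exact Or.inl (Or.inl (Set.mem_biUnion hV hW))
    · exact Or.inl (Or.inr hW)
    · exact Or.inr hW
  have hsm : ∀ W : ValuationSubring K, ∃ d : K, d ≠ 0 ∧ (W ≠ ⊤ → ∀ x : K, x / d ∈ W → LT htK W x) := by
    intro W
    by_cases hW : W = ⊤
    · exact ⟨1, one_ne_zero, fun h => absurd hW h⟩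
    · obtain ⟨d, hd, hd'⟩ := hφK.LT_small hW htK
      exact ⟨d, hd, fun _ => hd'⟩
  choose d hd0 hd using hsm
  obtain ⟨b, hb1, hb2⟩ := hφK.strong_approx hW₀t hfinS.toFinset (by
    intro W hW
    rw [Set.Finite.mem_toFinset] at hW
    refine ⟨?_, hW.1⟩
    rcases hW.2 with ⟨V, hV, hWV⟩ | hW' | ⟨hW', -⟩
    · exact above_ne_top (hS V hV) hWV
    · exact above_ne_top hV₀ hW'
    · exact hW') (fun W => htK.sym A (e (W.comap (algebraMap k K)))) d
    (fun W _ => hd0 W)
  -- local behaviour of `b` away from `W₀`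
  have hbW : ∀ W : ValuationSubring K, W ≠ ⊤ → W ≠ W₀ →
      LT htK W (b + htK.sym A (e (W.comap (algebraMap k K)))) := by
    intro W hW hne
    by_cases hWS : W ∈ hfinS.toFinset
    · have h1 := hd W hW _ (hb1 W hWS)
      rwa [CharTwo.sub_eq_add] at h1
    · have h1 : ¬ ((∃ V ∈ S, W ∈ above K V) ∨ W ∈ above K V₀ ∨
          (W ≠ ⊤ ∧ algebraMap k K t ∉ W)) := by
        intro hcon
        exact hWS (hfinS.mem_toFinset.2 ⟨hne, hcon⟩)
      rw [not_or, not_or] at h1
      obtain ⟨h3, -, h4⟩ := h1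
      have h5 : algebraMap k K t ∈ W := by
        by_contra hcon
        exact h4 ⟨hW, hcon⟩
      have h6 : e (W.comap (algebraMap k K)) = 1 := by
        apply heS
        intro hmem
        exact h3 ⟨_, hmem, rfl⟩
      rw [h6, htK.sym_one, add_zero]
      exact hφK.LT_of_mem hW htK h5 (hb2 W hW hne hWS)
  -- the trace of `b`
  have hbV : ∀ V : ValuationSubring k, V ≠ ⊤ → V ≠ V₀ →
      LT ht V (Algebra.trace k K b + Algebra.trace k K (htK.sym A (e V))) := by
    intro V hV hne
    rw [← map_add]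
    refine hφ.LT_trace hV ht htK fun W hW => ?_
    have hWne : W ≠ W₀ := by
      rintro rfl
      apply hne
      have h1 : W.comap (algebraMap k K) = V := hW
      have h2 : W.comap (algebraMap k K) = V₀ := hW₀
      rw [← h1, h2]
    have h3 := hbW W (above_ne_top hV hW) hWne
    have h4 : W.comap (algebraMap k K) = V := hW
    rwa [h4] at h3
  have hL0 : ∀ V, V ∉ S → LT ht V (Algebra.trace k K (htK.sym A (e V))) := by
    intro V hVS
    rw [heS V hVS, htK.sym_one, map_zero]
    exact LT.zero ht V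
  have hV₀L : LT ht V₀ (Algebra.trace k K b) := by
    by_contra hcon
    have h1 : badSet ht (Algebra.trace k K b) =
        insert V₀ {V : ValuationSubring k | V ≠ ⊤ ∧
          ¬ LT ht V (Algebra.trace k K (htK.sym A (e V)))} := by
      ext V
      constructor
      · rintro ⟨hV, hVL⟩
        by_cases hne : V = V₀
        · exact Or.inl hne
        · right
          exact ⟨hV, fun hN => hVL ((LT.congr (hbV V hV hne)).2 hN)⟩
      · rintro (rfl | ⟨hV, hN⟩)
        · exact ⟨hV₀, hcon⟩
        · refine ⟨hV, fun hL => hN ?_⟩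
          have hne : V ≠ V₀ := by
            rintro rfl
            exact hN (hL0 _ hV₀S)
          exact (LT.congr (hbV V hV hne)).1 hL
    have h2 := hφ.reciprocity ht (Algebra.trace k K b)
    have hfin2 : {V : ValuationSubring k | V ≠ ⊤ ∧
        ¬ LT ht V (Algebra.trace k K (htK.sym A (e V)))}.Finite := by
      refine S.finite_toSet.subset ?_
      rintro V ⟨hV, hN⟩
      by_contra hVS
      exact hN (hL0 V hVS)
    rw [h1, Set.ncard_insert_of_notMem (by
      rintro ⟨-, hN⟩
      exact hN (hL0 _ hV₀S)) hfin2] at h2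
    exact (Nat.even_add_one.1 h2) hpar
  have hW₀L : LT htK W₀ b := by
    refine hφ.LT_of_trace hV₀ ht htK hW₀ (fun W hW hne => ?_) hV₀L
    have h3 := hbW W (above_ne_top hV₀ hW) hne
    have h4 : W.comap (algebraMap k K) = V₀ := hW
    rwa [h4, heS V₀ hV₀S, htK.sym_one, add_zero] at h3
  obtain ⟨δ, hδ0, hδ⟩ := hφK.exists_symbol htK A b
    (fun W => e (W.comap (algebraMap k K))) (fun W _ => he _) (by
      intro W hW
      by_cases hne : W = W₀
      · subst hne
        have h4 : W.comap (algebraMap k K) = V₀ := hW₀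
        simp only [h4, heS V₀ hV₀S, htK.sym_one, add_zero]
        exact hW₀L
      · exact hbW W hW hne)
  refine ⟨δ, hδ0, fun V hV W hW => ?_⟩
  have h4 : W.comap (algebraMap k K) = V := hW
  have h5 := hδ W (above_ne_top hV hW)
  simp only [h4] at h5
  exact h5

end Pool.Agent.Helper31.CB
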