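import Mathlib
import Pool.Agent.Helper26.Delta

set_option autoImplicit false
set_option linter.unusedSectionVars false

/-!
# Non-degeneracy of the local symbols
-/

universe u v

namespace Pool.Agent.Helper31.CB

open Polynomial Pool.Agent.Helper26

section

variable {K : Type*} [Field K] [CharP K 2]

/-- The symbol and its unnormalised version. -/
lemma sym_raw {t : K} (ht : IsTwoBasis t) (V : ValuationSubring K) (a e : K) :
    LT ht V (ht.sym a e) ↔ LT ht V (a * ht.dl e) := by
  apply LT.congr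
  have h1 : ht.sym a e + a * ht.dl e = a * ht.dl e + ht.cart (a * ht.dl e) := by
    rw [IsTwoBasis.sym, add_comm]
  rw [h1]
  exact LT.triv ht V _

/-- Change of the two-basis for the unnormalised symbol. -/
lemma dl_change {t π : K} (ht : IsTwoBasis t) (h : IsTwoBasis π) (e : K) :
    h.dl e = h.cart t ^ 2 * ht.dl e := by
  rw [IsTwoBasis.dl, IsTwoBasis.dl, h.cart_change ht]
  ring

lemma LT_dl_change {t π : K} (ht : IsTwoBasis t) (h : IsTwoBasis π) (V : ValuationSubring K)
    (a e : K) : LT ht V (a * ht.dl e) ↔ LT h V (a * h.dl e) := by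
  rw [LT.change ht h, dl_change ht h]
  have : h.cart t ^ 2 * (a * ht.dl e) = a * (h.cart t ^ 2 * ht.dl e) := by ring
  rw [this]

/-- Squares modulo the maximal ideal. -/
lemma exists_sq_residue (V : ValuationSubring K) [Finite (IsLocalRing.ResidueField V)] {u : K}
    (hu : u ∈ V) : ∃ s ∈ V, u + s ^ 2 ∈ V.nonunits := by
  have hchar := charP_residue V
  have hsurj : Function.Surjective (frobenius (IsLocalRing.ResidueField V) 2) :=
    Finite.surjective_of_injective (frobenius_inj _ 2)
  obtain ⟨s, hs⟩ := hsurj (IsLocalRing.residue V ⟨u, hu⟩)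
  obtain ⟨s', rfl⟩ := IsLocalRing.residue_surjective s
  refine ⟨s', s'.2, ?_⟩
  have h3 : IsLocalRing.residue V (⟨u, hu⟩ + s' ^ 2) = 0 := by
    rw [map_add, map_pow, ← hs, frobenius_def]
    exact CharTwo.add_self_eq_zero _
  exact mem_nonunits_of_residue h3

/-- Reduction of an Artin-Schreier parameter to odd pole order. -/
lemma reduce_AS {V : ValuationSubring K} [Finite (IsLocalRing.ResidueField V)] {π : K}
    (hu : IsUnif V π) (n : ℕ) : ∀ a : K, a * π ^ n ∈ V → ∃ x : K, a + x ^ 2 + x ∈ V ∨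
      ∃ m : ℕ, Odd m ∧ (a + x ^ 2 + x) * π ^ m ∈ V ∧ (a + x ^ 2 + x) * π ^ m ∉ V.nonunits := by
  have h2 : ∀ x : K, x + x = 0 := fun x => CharTwo.add_self_eq_zero x
  have hπV := nonunits_mem hu.2.1
  have hπ := hu.1
  induction n using Nat.strong_induction_on with
  | _ n ih =>
    intro a ha
    rcases Nat.eq_zero_or_pos n with hn | hn
    · subst hn
      refine ⟨0, Or.inl ?_⟩
      rw [pow_zero, mul_one] at ha
      have : a + 0 ^ 2 + 0 = a := by ring
      rwa [this]
    rcases Nat.even_or_odd n with hev | hodd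
    · obtain ⟨m, hm⟩ := hev
      have hm0 : 0 < m := by omega
      obtain ⟨s, hs, hs'⟩ := exists_sq_residue V ha
      set y := s / π ^ m with hy
      have h3 : (a + y ^ 2 + y) * π ^ (n - 1) ∈ V := by
        have h4 : (a + y ^ 2 + y) * π ^ (n - 1) = (a * π ^ n + s ^ 2) / π + s * π ^ (m - 1) := by
          obtain ⟨l, rfl⟩ := Nat.exists_eq_succ_of_ne_zero hm0.ne'
          have hn' : n = 2 * l + 2 := by omega
          subst hn'
          rw [hy]
          simp only [Nat.succ_eq_add_one, Nat.add_sub_cancel, show 2 * l + 2 - 1 = 2 * l + 1 by omega]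
          field_simp
          ring
        rw [h4]
        exact V.add_mem _ _ (hu.2.2 _ hs') (V.mul_mem _ _ hs (pow_mem hπV _))
      obtain ⟨x, hx⟩ := ih (n - 1) (by omega) _ h3
      have h5 : a + y ^ 2 + y + x ^ 2 + x = a + (x + y) ^ 2 + (x + y) := by
        rw [CharTwo.add_sq]; ring
      refine ⟨x + y, ?_⟩
      rwa [h5] at hx
    · by_cases hn' : a * π ^ n ∈ V.nonunits
      · have h3 : a * π ^ (n - 1) ∈ V := by
          have h4 : a * π ^ (n - 1) = a * π ^ n / π := by
            obtain ⟨l, rfl⟩ := Nat.exists_eq_succ_of_ne_zero hn.ne'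
            simp only [Nat.succ_eq_add_one, Nat.add_sub_cancel]
            field_simp
            ring
          rw [h4]
          exact hu.2.2 _ hn'
        exact ih (n - 1) (by omega) a h3
      · refine ⟨0, Or.inr ⟨n, hodd, ?_⟩⟩
        have : a + 0 ^ 2 + 0 = a := by ring
        rw [this]
        exact ⟨ha, hn'⟩

/-- Non-degeneracy of the local symbol, for a uniformizer. -/
lemma split_of_symbols_unif {V : ValuationSubring K} (hr : IsRankOne V)
    [Finite (IsLocalRing.ResidueField V)] {π : K} (hu : IsUnif V π) (h : IsTwoBasis π) {a : K}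
    (ha : ∀ e : K, e ≠ 0 → LT h V (a * h.dl e)) : ∃ x : K, a + x ^ 2 + x ∈ V.nonunits := by
  have h2 : ∀ x : K, x + x = 0 := fun x => CharTwo.add_self_eq_zero x
  have hchar := charP_residue V
  have hπV := nonunits_mem hu.2.1
  have hπ := hu.1
  obtain ⟨n, hn⟩ : ∃ n : ℕ, a * π ^ n ∈ V := by
    by_cases ha0 : a = 0
    · exact ⟨0, by rw [ha0, zero_mul]; exact V.zero_mem⟩
    · obtain ⟨N, hN⟩ := hr π hu.2.1 a⁻¹ (inv_ne_zero ha0)
      exact ⟨N, by rwa [div_inv_eq_mul, mul_comm] at hN⟩
  obtain ⟨x, hx⟩ := reduce_AS hu n a hn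
  -- the symbols of `x ^ 2 + x` are trivial
  have hL : ∀ e : K, e ≠ 0 → LT h V ((a + x ^ 2 + x) * h.dl e) := by
    intro e he
    have h3 : (a + x ^ 2 + x) * h.dl e = a * h.dl e + (x ^ 2 * h.dl e + h.cart (x ^ 2 * h.dl e)) := by
      rw [h.cart_sq_mul, h.cart_dl]; ring
    rw [h3]
    exact (ha e he).add (LT.triv h V _)
  rcases hx with hx | ⟨m, hm, hx1, hx2⟩
  · -- integral case: use the symbol with the uniformizer
    have h3 := hL π hπ
    have h4 : h.dl π = 1 / π := by rw [IsTwoBasis.dl, h.cart_theta, one_pow]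
    rw [h4, mul_one_div] at h3
    obtain ⟨s, hs, hs'⟩ := LT.residue hr hu h hx h3
    refine ⟨x + s, ?_⟩
    have : a + (x + s) ^ 2 + (x + s) = a + x ^ 2 + x + s ^ 2 + s := by
      rw [CharTwo.add_sq]; ring
    rwa [this]
  · -- odd pole order
    exfalso
    set b := a + x ^ 2 + x with hb
    set w := b * π ^ m with hw
    have hw0 : w ≠ 0 := by
      intro h0
      apply hx2
      rw [h0, ValuationSubring.mem_nonunits_iff, map_zero]
      exact zero_lt_one
    have hwinv : w⁻¹ ∈ V := by
      rcases mem_nonunits_or hx1 with h3 | h3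
      · exact absurd h3 hx2
      · exact h3.2
    obtain ⟨j, hj⟩ := hm
    have hcartm : h.cart (π ^ m) ^ 2 = π ^ (2 * j) := by
      have h3 : π ^ m = (π ^ j) ^ 2 * π := by rw [hj]; ring
      rw [h3, h.cart_sq_mul, h.cart_theta]
      ring
    -- an element which is not of the form `s ^ 2 + s`
    obtain ⟨y, hy⟩ := (finite_AS (IsLocalRing.ResidueField V)).2
    obtain ⟨γ, rfl⟩ := IsLocalRing.residue_surjective y
    set c : K := γ * w⁻¹ with hc
    have hcV : c ∈ V := V.mul_mem _ _ γ.2 hwinv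
    have hcw : w * c = γ := by rw [hc]; field_simp
    have hmn : c * π ^ m ∈ V.nonunits := by
      rw [hj, pow_succ, ← mul_assoc]
      exact nonunits_mul' (V.mul_mem _ _ hcV (pow_mem hπV _)) hu.2.1
    obtain ⟨h5, h6⟩ := one_add_unit hmn
    set e := 1 + c * π ^ m with he
    have h7 := hL e h5
    have hce : h.cart e ^ 2 = c * π ^ (2 * j) + π ^ m * h.cart c ^ 2 := by
      rw [he, h.cart_add, h.cart_one, zero_add, h.cart_mul_pow, hcartm]
    have hint : w * c * (c * π ^ (2 * j)) * e⁻¹ + w * h.cart c ^ 2 * e⁻¹ ∈ V := by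
      refine V.add_mem _ _ (V.mul_mem _ _ (V.mul_mem _ _ (V.mul_mem _ _ hx1 hcV)
        (V.mul_mem _ _ hcV (pow_mem hπV _))) h6) (V.mul_mem _ _ (V.mul_mem _ _ hx1
        (pow_mem (unif_cart_mem hu h hcV).1 2)) h6)
    have h8 : b * h.dl e = w * c / π +
        (w * c * (c * π ^ (2 * j)) * e⁻¹ + w * h.cart c ^ 2 * e⁻¹) := by
      have hbw : b = w / π ^ m := by rw [hw]; field_simp
      have k1 : w / π ^ m * (c * π ^ (2 * j)) = w * c / π := by
        rw [hj, pow_succ]; field_simp
      have k2 : w / π ^ m * π ^ m = w := by field_simp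
      have k3 : c * π ^ m = c * π ^ (2 * j) * π := by rw [hj, pow_succ]; ring
      have k4 : (1 : K) = e + c * π ^ m := by rw [he]; linear_combination -h2 (c * π ^ m)
      have k5 : w * c / π * (e + c * π ^ m) * e⁻¹ = w * c / π + w * c * (c * π ^ (2 * j)) * e⁻¹ := by
        rw [k3]
        generalize π ^ (2 * j) = q
        clear_value e
        field_simp
      have k6 : b * h.dl e = w * c / π * (e + c * π ^ m) * e⁻¹ + w * h.cart c ^ 2 * e⁻¹ := by
        rw [IsTwoBasis.dl, hce, hbw, ← k4, mul_one, ← k1, div_eq_mul_inv (c * π ^ (2 * j) + _)]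
        linear_combination (h.cart c ^ 2 * e⁻¹) * k2
      rw [k6, k5]
      ring
    rw [h8] at h7
    have h9 : LT h V (w * c / π) := by
      have h10 := h7.add (LT.of_mem_unif hr hu h hint)
      rw [add_assoc, h2, add_zero] at h10
      exact h10
    rw [hcw] at h9
    obtain ⟨s, hs, hs'⟩ := LT.residue hr hu h γ.2 h9
    apply hy (IsLocalRing.residue V ⟨s, hs⟩)
    have h1 := residue_of_mem_nonunits (x := γ + ⟨s, hs⟩ ^ 2 + ⟨s, hs⟩) hs'
    rw [map_add, map_add, map_pow] at h1
    have h4 : ∀ x : IsLocalRing.ResidueField V, x + x = 0 := fun x => CharTwo.add_self_eq_zero x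
    linear_combination h1 - h4 (IsLocalRing.residue V ⟨s, hs⟩ ^ 2) -
      h4 (IsLocalRing.residue V ⟨s, hs⟩)

end

section

variable {F : Type v} {k : Type u} [Field F] [Finite F] [CharP F 2] [Field k] [CharP k 2]

/-- Non-degeneracy of the local symbol. -/
lemma split_of_symbols {φ : RatFunc F →+* k} (hφ : GoodEmb φ) {V : ValuationSubring k}
    (hV : V ≠ ⊤) {t : k} (ht : IsTwoBasis t) {a : k}
    (ha : ∀ e : k, e ≠ 0 → LT ht V (ht.sym a e)) : ∃ x : k, a + x ^ 2 + x ∈ V.nonunits := by
  obtain ⟨π, hu⟩ := hφ.exists_unif hV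
  have h := ht.of_not_sq hu.not_sq
  have := hφ.finite_residue hV
  refine split_of_symbols_unif (hφ.rankOne hV) hu h fun e he => ?_
  rw [← LT_dl_change ht h, ← sym_raw]
  exact ha e he

end

end Pool.Agent.Helper31.CB
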