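import Mathlib
import Pool.Agent.Helper31.CB.Nondeg

set_option autoImplicit false
set_option linter.unusedSectionVars false

/-!
# An Artin-Schreier parameter all of whose symbols are locally trivial is split
-/

universe u v

namespace Pool.Agent.Helper31.CB

open Polynomial Pool.Agent.Helper26

section

variable {k M : Type*} [Field k] [Field M] [CharP k 2] [CharP M 2] [Algebra k M]
  [FiniteDimensional k M] [Algebra.IsSeparable k M]

lemma trace_AS {a : k} {ρ : M} (hρ : ρ ^ 2 + ρ + algebraMap k M a = 0)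
    (hgen : ∀ u : M, ∃ x₀ x₁ : k, u = algebraMap k M x₀ + algebraMap k M x₁ * ρ)
    (hfr : Even (Module.finrank k M)) :
    Algebra.trace k M ρ = 1 ∧ ∀ x : k, Algebra.trace k M (algebraMap k M x) = 0 := by
  have h2 : ∀ x : k, x + x = 0 := fun x => CharTwo.add_self_eq_zero x
  have hc : ∀ x : k, Algebra.trace k M (algebraMap k M x) = 0 := by
    intro x
    rw [Algebra.trace_algebraMap]
    obtain ⟨m, hm⟩ := hfr
    rw [hm, add_smul, h2]
  refine ⟨?_, hc⟩
  have h1 : Algebra.trace k M ρ ≠ 0 := by
    intro h0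
    obtain ⟨y, hy⟩ := Algebra.trace_surjective k M 1
    obtain ⟨x₀, x₁, rfl⟩ := hgen y
    rw [map_add, hc, zero_add, ← Algebra.smul_def, LinearMap.map_smul, h0, smul_zero] at hy
    exact zero_ne_one hy
  have h3 := congrArg (Algebra.trace k M) hρ
  rw [map_add, map_add, hc, map_zero, trace_sq, add_zero] at h3
  have h4 : Algebra.trace k M ρ * (Algebra.trace k M ρ + 1) = 0 := by linear_combination h3
  exact CharTwo.add_eq_zero.1 ((mul_eq_zero.1 h4).resolve_left h1)

end

section

variable {F : Type v} {k M : Type u} [Field F] [Finite F] [CharP F 2] [Field k] [CharP k 2]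
  [Field M] [CharP M 2] [Algebra k M] [FiniteDimensional k M] [Algebra.IsSeparable k M]

lemma exists_above {φ : RatFunc F →+* k} (hφ : GoodEmb φ) {V : ValuationSubring k}
    (hV : V ≠ ⊤) : ∃ W : ValuationSubring M, W ∈ above M V := by
  have ht := hφ.isTwoBasis
  have htM : IsTwoBasis (algebraMap k M (φ RatFunc.X)) := ht.extend
  by_contra hcon
  push Not at hcon
  obtain ⟨b, hb⟩ := hφ.exists_not_LT hV ht
  obtain ⟨x, hx⟩ := Algebra.trace_surjective k M b
  apply hb
  rw [← hx]
  exact hφ.LT_trace hV ht htM fun W hW => absurd hW (hcon W)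

/-- If `y` is a non-unit at all places above `V` then its trace is not `1`. -/
lemma exists_above_notMem {φ : RatFunc F →+* k} (hφ : GoodEmb φ) {V : ValuationSubring k}
    (hV : V ≠ ⊤) {y : M} (hy : Algebra.trace k M y = 1) : ∃ W ∈ above M V, y ∉ W.nonunits := by
  by_contra hcon
  push Not at hcon
  obtain ⟨π, hπ0, hπ⟩ := exists_nonunit hV
  have hfin := hφ.above_finite (K := M) hV
  have hφM := hφ.ext (K := M)
  have hex : ∀ W ∈ above M V, ∃ n : ℕ, ∀ m, n ≤ m → y ^ m / algebraMap k M π ∈ W := by
    intro W hW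
    obtain ⟨n, hn⟩ := hφM.rankOne (above_ne_top hV hW) y (hcon W hW) (algebraMap k M π)
      (by rwa [Ne, map_eq_zero])
    refine ⟨n, fun m hm => ?_⟩
    obtain ⟨l, rfl⟩ := Nat.exists_eq_add_of_le hm
    have : y ^ (n + l) / algebraMap k M π = y ^ n / algebraMap k M π * y ^ l := by
      rw [pow_add]; ring
    rw [this]
    exact W.mul_mem _ _ hn (pow_mem (nonunits_mem (hcon W hW)) l)
  choose! n hn using hex
  set N := hfin.toFinset.sup n with hN
  have htr : ∀ j : ℕ, Algebra.trace k M (y ^ 2 ^ j) = 1 := by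
    intro j
    induction j with
    | zero => rw [pow_zero, pow_one, hy]
    | succ j ih => rw [pow_succ, pow_mul, trace_sq, ih, one_pow]
  have h1 := trace_div_mem (hφ.rankOne hV) hV (z := y ^ 2 ^ N) (d := π) (by
    intro W hW
    apply hn W hW
    exact (Finset.le_sup (f := n) (hfin.mem_toFinset.2 hW)).trans Nat.lt_two_pow_self.le)
  rw [htr] at h1
  rw [one_div] at h1
  exact not_inv_mem hπ hπ0 h1

/-- Refinement of a local splitting. -/
lemma split_refine {V : ValuationSubring k} (hr : IsRankOne V) {a x : k}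
    (hx : a + x ^ 2 + x ∈ V.nonunits) (d : k) (hd : d ≠ 0) :
    ∃ x' : k, (a + x' ^ 2 + x') / d ∈ V ∧ a + x' ^ 2 + x' ∈ V.nonunits := by
  obtain ⟨ρ, hρ, hρd⟩ := AS_hensel hr hx d hd
  have h1 : a + (x + ρ) ^ 2 + (x + ρ) = ρ ^ 2 + ρ + (a + x ^ 2 + x) := by
    rw [CharTwo.add_sq]; ring
  refine ⟨x + ρ, by rwa [h1], ?_⟩
  rw [h1]
  refine nonunits_add (nonunits_add ?_ hρ) hx
  rw [pow_two]
  exact nonunits_mul hρ (nonunits_mem hρ)

/-- A place at which the parameter is split has two places above it, and local triviality descends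
from the quadratic extension at such places. -/
lemma LT_descend {φ : RatFunc F →+* k} (hφ : GoodEmb φ) {V : ValuationSubring k}
    (hV : V ≠ ⊤) {t : k} (ht : IsTwoBasis t) (htM : IsTwoBasis (algebraMap k M t)) {a : k} {ρ : M}
    (hρ : ρ ^ 2 + ρ + algebraMap k M a = 0) (htr : Algebra.trace k M ρ = 1)
    (htr0 : ∀ x : k, Algebra.trace k M (algebraMap k M x) = 0) {x : k}
    (hx : a + x ^ 2 + x ∈ V.nonunits) {c : k} (hc : ∀ W ∈ above M V, LT htM W (algebraMap k M c)) :
    LT ht V c := by
  have h2 : ∀ x : M, x + x = 0 := fun x => CharTwo.add_self_eq_zero x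
  have hφM := hφ.ext (K := M)
  have hfin := hφ.above_finite (K := M) hV
  -- how small the error must be
  have hsm : ∀ W ∈ above M V, ∃ d : M, d ≠ 0 ∧ ∀ b : M, b / d ∈ W → LT htM W b :=
    fun W hW => hφM.LT_small (above_ne_top hV hW) htM
  choose! d hd0 hd using hsm
  obtain ⟨D, hD0, hD⟩ : ∃ D : k, D ≠ 0 ∧ ∀ W ∈ above M V,
      algebraMap k M D * (algebraMap k M c / d W) ∈ W := by
    have hex : ∀ W ∈ above M V, ∃ r : k, r ≠ 0 ∧ r ∈ V ∧
        algebraMap k M r * (algebraMap k M c / d W) ∈ W := by
      intro W hW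
      obtain ⟨r, hr0, hr⟩ := exists_mul_mem (k := k) W (algebraMap k M c / d W)
      by_cases h : r ∈ V
      · exact ⟨r, hr0, h, hr⟩
      · refine ⟨1, one_ne_zero, V.one_mem, ?_⟩
        have h1 : r⁻¹ ∈ V := nonunits_mem (notMem_iff_inv_nonunits h)
        have h3 : algebraMap k M 1 * (algebraMap k M c / d W) =
            algebraMap k M r⁻¹ * (algebraMap k M r * (algebraMap k M c / d W)) := by
          rw [← mul_assoc, ← map_mul, inv_mul_cancel₀ hr0]
        rw [h3]
        exact W.mul_mem _ _ ((mem_above_mem hW).2 h1) hr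
    choose! r hr0 hrV hr using hex
    refine ⟨∏ W ∈ hfin.toFinset, r W, Finset.prod_ne_zero_iff.2 fun W hW =>
      hr0 W (hfin.mem_toFinset.1 hW), fun W hW => ?_⟩
    classical
    rw [← Finset.mul_prod_erase _ _ (hfin.mem_toFinset.2 hW), map_mul]
    have h3 : algebraMap k M (r W) * algebraMap k M (∏ W' ∈ hfin.toFinset.erase W, r W') *
        (algebraMap k M c / d W) = algebraMap k M (∏ W' ∈ hfin.toFinset.erase W, r W') *
        (algebraMap k M (r W) * (algebraMap k M c / d W)) := by ring
    rw [h3]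
    exact W.mul_mem _ _ ((mem_above_mem hW).2 (prod_mem fun W' hW' =>
      hrV W' (hfin.mem_toFinset.1 (Finset.mem_of_mem_erase hW')))) (hr W hW)
  obtain ⟨x', hx', hxn⟩ := split_refine (hφ.rankOne hV) hx D hD0
  set η := a + x' ^ 2 + x' with hη
  set y := ρ + algebraMap k M x' with hy
  have hyη : y * (y + 1) = algebraMap k M η := by
    rw [hy, hη]
    simp only [map_add, map_pow]
    linear_combination hρ + h2 (ρ * algebraMap k M x') - h2 (algebraMap k M a)
  have hytr : Algebra.trace k M y = 1 := by rw [hy, map_add, htr, htr0, add_zero]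
  -- the element `y * c` is locally trivial above `V`
  have key : ∀ W ∈ above M V, LT htM W (algebraMap k M c * y) := by
    intro W hW
    have hηW : algebraMap k M η ∈ W.nonunits := (mem_above_nonunits hW).2 hxn
    have hyW : y ∈ W := by
      apply mem_of_sq_mem
      by_contra hcon
      have h3 : y ∉ W := fun h => hcon (pow_mem h 2)
      have h4 := notMem_iff_inv_nonunits h3
      have h5 : y ^ 2 * (1 + y⁻¹) = algebraMap k M η := by
        have hy0 : y ≠ 0 := by rintro h0; exact h3 (by rw [h0]; exact W.zero_mem)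
        rw [← hyη]; field_simp
      obtain ⟨h6, h7⟩ := one_add_unit h4
      apply hcon
      have h8 : y ^ 2 = algebraMap k M η * (1 + y⁻¹)⁻¹ := by
        rw [← h5, mul_inv_cancel_right₀ h6]
      rw [h8]
      exact W.mul_mem _ _ (nonunits_mem hηW) h7
    have hsmall : ∀ z : M, z ∈ W.nonunits → z * (z + 1) = algebraMap k M η →
        LT htM W (algebraMap k M c * z) := by
      intro z hz hzη
      obtain ⟨h3, h4⟩ := one_add_unit hz
      have hz1 : z + 1 ≠ 0 := by rwa [add_comm]
      have hzi : (z + 1)⁻¹ ∈ W := by rwa [add_comm]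
      have h5 : z = algebraMap k M η * (z + 1)⁻¹ := by rw [← hzη]; field_simp
      apply hd W hW
      have hD' : algebraMap k M D ≠ 0 := by rwa [Ne, map_eq_zero]
      have h6 : algebraMap k M c * z / d W = algebraMap k M (η / D) *
          (algebraMap k M D * (algebraMap k M c / d W)) * (z + 1)⁻¹ := by
        nth_rewrite 1 [h5]
        rw [map_div₀]
        field_simp
      rw [h6]
      exact W.mul_mem _ _ (W.mul_mem _ _ ((mem_above_mem hW).2 hx') (hD W hW)) hzi
    rcases mem_nonunits_or hyW with h3 | h3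
    · exact hsmall y h3 hyη
    · have hy1 : y + 1 ∈ W.nonunits := by
        have h4 : y + 1 = algebraMap k M η * y⁻¹ := by rw [← hyη]; field_simp [h3.1]
        rw [h4]
        exact nonunits_mul hηW h3.2
      have h5 := hsmall (y + 1) hy1 (by
        rw [← hyη]
        linear_combination (y + 1) * h2 1)
      have h6 : algebraMap k M c * y = algebraMap k M c * (y + 1) + algebraMap k M c := by
        linear_combination -h2 (algebraMap k M c)
      rw [h6]
      exact h5.add (hc W hW)
  have h3 := hφ.LT_trace hV ht htM key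
  rw [← Algebra.smul_def, LinearMap.map_smul, hytr, smul_eq_mul, mul_one] at h3
  exact h3

end

section

variable {F : Type v} {k : Type u} [Field F] [Finite F] [CharP F 2] [Field k] [CharP k 2]

/-- Non-degeneracy: a parameter all of whose symbols are locally trivial is split. -/
theorem exists_of_symbols {φ : RatFunc F →+* k} (hφ : GoodEmb φ) {t : k} (ht : IsTwoBasis t)
    {a : k} (ha : ∀ V : ValuationSubring k, V ≠ ⊤ → ∀ e : k, e ≠ 0 → LT ht V (ht.sym a e)) :
    ∃ x : k, x ^ 2 + x + a = 0 := by
  by_contra hno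
  push Not at hno
  obtain ⟨M, _, _, _, _, _, ρ, hρ, hgen, hind⟩ := exists_quadratic_ext hno
  have htM : IsTwoBasis (algebraMap k M t) := ht.extend
  have hφM := hφ.ext (K := M)
  have h2M : ∀ x : M, x + x = 0 := fun x => CharTwo.add_self_eq_zero x
  have hfr : Module.finrank k M = 2 := by
    have h1 : LinearIndependent k ![(1 : M), ρ] := by
      rw [LinearIndependent.pair_iff]
      intro s r h
      apply hind s r
      rw [← h, Algebra.smul_def, Algebra.smul_def, mul_one]
    have h2 : ⊤ ≤ Submodule.span k (Set.range ![(1 : M), ρ]) := by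
      intro u _
      obtain ⟨x₀, x₁, rfl⟩ := hgen u
      refine Submodule.add_mem _ ?_ ?_
      · rw [← mul_one (algebraMap k M x₀), ← Algebra.smul_def]
        exact Submodule.smul_mem _ _ (Submodule.subset_span ⟨0, rfl⟩)
      · rw [← Algebra.smul_def]
        exact Submodule.smul_mem _ _ (Submodule.subset_span ⟨1, rfl⟩)
    have h3 := Module.finrank_eq_card_basis (Module.Basis.mk h1 h2)
    simpa using h3
  obtain ⟨htr, htr0⟩ := trace_AS hρ hgen (by rw [hfr]; exact even_two)
  have hsplit : ∀ V : ValuationSubring k, V ≠ ⊤ → ∃ x : k, a + x ^ 2 + x ∈ V.nonunits :=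
    fun V hV => split_of_symbols hφ hV ht (ha V hV)
  obtain ⟨V₁, hV₁⟩ := hφ.exists_notMem
  have hV₁t : V₁ ≠ ⊤ := by rintro rfl; exact hV₁ trivial
  -- two places above `V₁`
  obtain ⟨W₁, hW₁, W₂, hW₂, hne⟩ : ∃ W₁ ∈ above M V₁, ∃ W₂ ∈ above M V₁, W₁ ≠ W₂ := by
    obtain ⟨x, hx⟩ := hsplit V₁ hV₁t
    set y := ρ + algebraMap k M x with hy
    have hyη : y * (y + 1) = algebraMap k M (a + x ^ 2 + x) := by
      rw [hy]
      simp only [map_add, map_pow]
      linear_combination hρ + h2M (ρ * algebraMap k M x) - h2M (algebraMap k M a)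
    have hytr : Algebra.trace k M y = 1 := by rw [hy, map_add, htr, htr0, add_zero]
    have hytr' : Algebra.trace k M (y + 1) = 1 := by
      have : (1 : M) = algebraMap k M 1 := (map_one _).symm
      rw [map_add, hytr, this, htr0, add_zero]
    obtain ⟨W₁, hW₁, h1⟩ := exists_above_notMem hφ hV₁t hytr
    obtain ⟨W₂, hW₂, h3⟩ := exists_above_notMem hφ hV₁t hytr'
    refine ⟨W₁, hW₁, W₂, hW₂, ?_⟩
    rintro rfl
    have hη : algebraMap k M (a + x ^ 2 + x) ∈ W₁.nonunits := (mem_above_nonunits hW₁).2 hx
    rw [← hyη] at hη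
    rw [ValuationSubring.mem_nonunits_iff] at hη h1 h3
    rw [not_lt] at h1 h3
    rw [map_mul] at hη
    exact absurd hη (not_lt.2 (Right.one_le_mul h1 h3))
  obtain ⟨b, hb⟩ := hφM.exists_two htM (above_ne_top hV₁t hW₁) (above_ne_top hV₁t hW₂) hne
  have hbW : ∀ W : ValuationSubring M, W ≠ ⊤ → W ≠ W₁ → W ≠ W₂ → LT htM W b := by
    intro W hW h1 h3
    by_contra hcon
    have : W ∈ badSet htM b := ⟨hW, hcon⟩
    rw [hb] at this
    rcases this with h4 | h4
    · exact h1 h4
    · exact h3 h4
  have hbW₁ : ¬ LT htM W₁ b := by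
    have : W₁ ∈ badSet htM b := by rw [hb]; exact Or.inl rfl
    exact this.2
  -- the trace of `b` is trivial
  have htrb : ∀ V : ValuationSubring k, V ≠ ⊤ → V ≠ V₁ → LT ht V (Algebra.trace k M b) := by
    intro V hV hVne
    refine hφ.LT_trace hV ht htM fun W hW => hbW W (above_ne_top hV hW) ?_ ?_
    · rintro rfl
      apply hVne
      have h4 : W.comap (algebraMap k M) = V := hW
      have h5 : W.comap (algebraMap k M) = V₁ := hW₁
      rw [← h4, h5]
    · rintro rfl
      apply hVne
      have h4 : W.comap (algebraMap k M) = V := hW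
      have h5 : W.comap (algebraMap k M) = V₁ := hW₂
      rw [← h4, h5]
  obtain ⟨q, hq⟩ := hφ.local_global hV₁t ht _ htrb
  obtain ⟨q', rfl⟩ := Algebra.trace_surjective k M q
  obtain ⟨x₀, x₁, hx⟩ := hgen (b + q' + htM.cart q')
  have hx1 : x₁ = 0 := by
    have h3 := congrArg (Algebra.trace k M) hx
    rw [map_add, map_add, map_add, ht.trace_cart htM, htr0, zero_add, ← Algebra.smul_def,
      LinearMap.map_smul, htr, smul_eq_mul, mul_one, hq] at h3
    rw [← h3]
    have h2 : ∀ x : k, x + x = 0 := fun x => CharTwo.add_self_eq_zero x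
    linear_combination h2 (Algebra.trace k M q') + h2 (ht.cart (Algebra.trace k M q'))
  rw [hx1, map_zero, zero_mul, add_zero] at hx
  have hcongr : ∀ W : ValuationSubring M, LT htM W b ↔ LT htM W (algebraMap k M x₀) := by
    intro W
    apply LT.congr
    rw [← hx]
    have : b + (b + q' + htM.cart q') = q' + htM.cart q' := by linear_combination h2M b
    rw [this]
    exact LT.triv htM W q'
  have hbad : badSet ht x₀ = {V₁} := by
    ext V
    rw [Set.mem_singleton_iff]
    constructor
    · rintro ⟨hV, hVL⟩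
      by_contra hVne
      apply hVL
      obtain ⟨x, hx⟩ := hsplit V hV
      refine LT_descend hφ hV ht htM hρ htr htr0 hx fun W hW => ?_
      rw [← hcongr]
      refine hbW W (above_ne_top hV hW) ?_ ?_
      · rintro rfl
        apply hVne
        have h4 : W.comap (algebraMap k M) = V := hW
        have h5 : W.comap (algebraMap k M) = V₁ := hW₁
        rw [← h4, h5]
      · rintro rfl
        apply hVne
        have h4 : W.comap (algebraMap k M) = V := hW
        have h5 : W.comap (algebraMap k M) = V₁ := hW₂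
        rw [← h4, h5]
    · rintro rfl
      refine ⟨hV₁t, fun hL => hbW₁ ?_⟩
      rw [hcongr]
      exact LT.up htM hW₁ hL
  have h3 := hφ.reciprocity ht x₀
  rw [hbad, Set.ncard_singleton] at h3
  exact absurd h3 (by decide)

end

end Pool.Agent.Helper31.CB
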