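import Mathlib
import Pool.Agent.Helper31.CB.Split

set_option autoImplicit false
set_option linter.unusedSectionVars false

/-!
# Local invariants with values in `ZMod 2`
-/

universe u v

namespace Pool.Agent.Helper31.CB

open Polynomial Pool.Agent.Helper26

section

variable {k : Type u} [Field k] [CharP k 2]

open Classical in
/-- The local invariant. -/
noncomputable def iv {t : k} (ht : IsTwoBasis t) (V : ValuationSubring k) (b : k) : ZMod 2 :=
  if LT ht V b then 0 else 1

lemma iv_eq_zero {t : k} {ht : IsTwoBasis t} {V : ValuationSubring k} {b : k} :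
    iv ht V b = 0 ↔ LT ht V b := by
  unfold iv
  split_ifs with h
  · exact ⟨fun _ => h, fun _ => rfl⟩
  · exact ⟨fun h1 => absurd h1 one_ne_zero, fun h1 => absurd h1 h⟩

lemma zmod2_add_self (x : ZMod 2) : x + x = 0 := by
  revert x; decide

lemma eq_of_add_eq_zero2 {x y : ZMod 2} (h : x + y = 0) : x = y := by
  revert x y; decide

lemma iv_triv {t : k} (ht : IsTwoBasis t) (V : ValuationSubring k) (P : k) :
    iv ht V (P + ht.cart P) = 0 := iv_eq_zero.2 (LT.triv ht V P)

lemma iv_zero {t : k} (ht : IsTwoBasis t) (V : ValuationSubring k) : iv ht V 0 = 0 :=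
  iv_eq_zero.2 (LT.zero ht V)

lemma iv_congr {t : k} {ht : IsTwoBasis t} {V : ValuationSubring k} {b c : k}
    (h : LT ht V (b + c)) : iv ht V b = iv ht V c := by
  unfold iv
  rw [LT.congr h]

end

section

variable {F : Type v} {k : Type u} [Field F] [Finite F] [CharP F 2] [Field k] [CharP k 2]

lemma iv_add {φ : RatFunc F →+* k} (hφ : GoodEmb φ) {V : ValuationSubring k} (hV : V ≠ ⊤)
    {t : k} (ht : IsTwoBasis t) (b c : k) : iv ht V (b + c) = iv ht V b + iv ht V c := by
  have h2 : ∀ x : k, x + x = 0 := fun x => CharTwo.add_self_eq_zero x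
  by_cases hb : LT ht V b
  · rw [iv_eq_zero.2 hb, zero_add]
    apply iv_congr
    have : b + c + c = b := by linear_combination h2 c
    rwa [this]
  · by_cases hc : LT ht V c
    · rw [iv_eq_zero.2 hc, add_zero]
      apply iv_congr
      have : b + c + b = c := by linear_combination h2 b
      rwa [this]
    · rw [iv_eq_zero.2 (hφ.LT_add hV hb hc)]
      have h1 : iv ht V b = 1 := by unfold iv; rw [if_neg hb]
      have h3 : iv ht V c = 1 := by unfold iv; rw [if_neg hc]
      rw [h1, h3]
      decide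

lemma iv_sum {φ : RatFunc F →+* k} (hφ : GoodEmb φ) {V : ValuationSubring k} (hV : V ≠ ⊤)
    {t : k} (ht : IsTwoBasis t) {ι : Type*} (s : Finset ι) (b : ι → k) :
    iv ht V (∑ i ∈ s, b i) = ∑ i ∈ s, iv ht V (b i) := by
  classical
  induction s using Finset.induction_on with
  | empty => rw [Finset.sum_empty, Finset.sum_empty, iv_zero]
  | insert a s ha ih => rw [Finset.sum_insert ha, Finset.sum_insert ha, iv_add hφ hV, ih]

/-- Parity of a set and sums in `ZMod 2`. -/
lemma even_ncard_iv {t : k} (ht : IsTwoBasis t) (S : Finset (ValuationSubring k))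
    (hS : ∀ V ∈ S, V ≠ ⊤) (b : ValuationSubring k → k)
    (hb : ∀ V : ValuationSubring k, V ≠ ⊤ → V ∉ S → LT ht V (b V)) :
    Even {V : ValuationSubring k | V ≠ ⊤ ∧ ¬ LT ht V (b V)}.ncard ↔
      ∑ V ∈ S, iv ht V (b V) = 0 := by
  classical
  have h1 : {V : ValuationSubring k | V ≠ ⊤ ∧ ¬ LT ht V (b V)} =
      ((S.filter fun V => ¬ LT ht V (b V) : Finset (ValuationSubring k)) :
        Set (ValuationSubring k)) := by
    ext V
    simp only [Set.mem_ofPred_eq, Finset.coe_filter]
    constructor
    · rintro ⟨hV, hL⟩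
      refine ⟨?_, hL⟩
      by_contra hVS
      exact hL (hb V hV hVS)
    · rintro ⟨hVS, hL⟩
      exact ⟨hS V hVS, hL⟩
  rw [h1, Set.ncard_coe_finset]
  have h2 : ∑ V ∈ S, iv ht V (b V) = (((S.filter fun V => ¬ LT ht V (b V)).card : ℕ) : ZMod 2) := by
    rw [Finset.card_filter, Nat.cast_sum]
    refine Finset.sum_congr rfl fun V _ => ?_
    unfold iv
    split_ifs <;> simp_all
  rw [h2, ZMod.natCast_eq_zero_iff_even]

/-- Reciprocity. -/
lemma sum_iv {φ : RatFunc F →+* k} (hφ : GoodEmb φ) {t : k} (ht : IsTwoBasis t)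
    (S : Finset (ValuationSubring k)) (hS : ∀ V ∈ S, V ≠ ⊤) (b : k)
    (hb : ∀ V : ValuationSubring k, V ≠ ⊤ → V ∉ S → LT ht V b) : ∑ V ∈ S, iv ht V b = 0 := by
  rw [← even_ncard_iv ht S hS (fun _ => b) hb]
  exact hφ.reciprocity ht b

variable {K : Type u} [Field K] [CharP K 2] [Algebra k K] [FiniteDimensional k K]
  [Algebra.IsSeparable k K]

/-- The trace of a symbol with a constant second argument. -/
lemma trace_sym_const {t : k} (ht : IsTwoBasis t) (htK : IsTwoBasis (algebraMap k K t))
    (α : K) (e : k) : Algebra.trace k K (htK.sym α (algebraMap k K e)) =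
      ht.sym (Algebra.trace k K α) e := by
  rw [IsTwoBasis.sym, IsTwoBasis.sym, ht.map_dl (algebraMap k K) htK, ht.trace_cart htK]
  congr 1
  rw [mul_comm α, ← Algebra.smul_def, LinearMap.map_smul, smul_eq_mul, mul_comm]

end

section

variable {F : Type v} {k : Type u} [Field F] [Finite F] [CharP F 2] [Field k] [CharP k 2]

/-- Correction by ideles: given parameters `a i` and parities `c i` such that the parities cancel
along every relation between the parameters, there is an idele with the given parities. -/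
theorem exists_idele {φ : RatFunc F →+* k} (hφ : GoodEmb φ) {t : k} (ht : IsTwoBasis t)
    {ι : Type*} [Fintype ι] (a : ι → k) (c : ι → ZMod 2)
    (hc : ∀ T : Finset ι, (∃ x : k, x ^ 2 + x + ∑ i ∈ T, a i = 0) → ∑ i ∈ T, c i = 0) :
    ∃ (S : Finset (ValuationSubring k)) (ρ : ValuationSubring k → k), (∀ V ∈ S, V ≠ ⊤) ∧
      (∀ V, ρ V ≠ 0) ∧ (∀ V, V ∉ S → ρ V = 1) ∧
      ∀ i, ∑ V ∈ S, iv ht V (ht.sym (a i) (ρ V)) = c i := by
  classical
  -- the set of good families
  let G : Submodule (ZMod 2) (ι → ZMod 2) :=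
    { carrier := {c | ∃ (S : Finset (ValuationSubring k)) (ρ : ValuationSubring k → k),
        (∀ V ∈ S, V ≠ ⊤) ∧ (∀ V, ρ V ≠ 0) ∧ (∀ V, V ∉ S → ρ V = 1) ∧
        ∀ i, ∑ V ∈ S, iv ht V (ht.sym (a i) (ρ V)) = c i}
      zero_mem' := ⟨∅, fun _ => 1, fun V hV => absurd hV (Finset.notMem_empty V),
        fun _ => one_ne_zero, fun _ _ => rfl, fun i => by rw [Finset.sum_empty]; rfl⟩
      add_mem' := by
        rintro c d ⟨S₁, ρ₁, h1, h2, h3, h4⟩ ⟨S₂, ρ₂, g1, g2, g3, g4⟩
        have hSt : ∀ V ∈ S₁ ∪ S₂, V ≠ ⊤ := by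
          intro V hV
          rcases Finset.mem_union.1 hV with h | h
          · exact h1 V h
          · exact g1 V h
        refine ⟨S₁ ∪ S₂, fun V => ρ₁ V * ρ₂ V, hSt, fun V => mul_ne_zero (h2 V) (g2 V), ?_, ?_⟩
        · intro V hV
          rw [Finset.mem_union, not_or] at hV
          change ρ₁ V * ρ₂ V = 1
          rw [h3 V hV.1, g3 V hV.2, one_mul]
        · intro i
          have e1 : ∀ V ∈ S₁ ∪ S₂, iv ht V (ht.sym (a i) (ρ₁ V * ρ₂ V)) =
              iv ht V (ht.sym (a i) (ρ₁ V)) + iv ht V (ht.sym (a i) (ρ₂ V)) := by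
            intro V hV
            rw [ht.sym_mul _ (h2 V) (g2 V), iv_add hφ (hSt V hV)]
          rw [Finset.sum_congr rfl e1, Finset.sum_add_distrib]
          have e2 : ∑ V ∈ S₁ ∪ S₂, iv ht V (ht.sym (a i) (ρ₁ V)) = c i := by
            rw [← h4 i]
            symm
            apply Finset.sum_subset Finset.subset_union_left
            intro V _ hV
            rw [h3 V hV, ht.sym_one, iv_zero]
          have e3 : ∑ V ∈ S₁ ∪ S₂, iv ht V (ht.sym (a i) (ρ₂ V)) = d i := by
            rw [← g4 i]
            symm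
            apply Finset.sum_subset Finset.subset_union_right
            intro V _ hV
            rw [g3 V hV, ht.sym_one, iv_zero]
          rw [e2, e3]
          rfl
      smul_mem' := by
        intro z c hc
        have hz : z = 0 ∨ z = 1 := by revert z; decide
        rcases hz with rfl | rfl
        · rw [zero_smul]
          exact ⟨∅, fun _ => 1, fun V hV => absurd hV (Finset.notMem_empty V),
            fun _ => one_ne_zero, fun _ _ => rfl, fun i => by rw [Finset.sum_empty]; rfl⟩
        · rwa [one_smul] }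
  by_contra hcon
  have hcG : c ∉ G := hcon
  obtain ⟨f, hfc, hfG⟩ := Submodule.exists_le_ker_of_notMem hcG
  set T : Finset ι := Finset.univ.filter fun i => f (Pi.single i 1) ≠ 0 with hT
  have hf : ∀ x : ι → ZMod 2, f x = ∑ i ∈ T, x i := by
    intro x
    have h1 : x = ∑ i, x i • (Pi.single i 1 : ι → ZMod 2) := by
      ext j
      rw [Finset.sum_apply, Finset.sum_eq_single j]
      · simp
      · intro i _ hij
        rw [Pi.smul_apply, Pi.single_eq_of_ne hij.symm, smul_zero]
      · intro h; exact absurd (Finset.mem_univ j) h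
    have h2 : ∀ y : ZMod 2, y ≠ 0 → y = 1 := by decide
    conv_lhs => rw [h1]
    rw [map_sum, hT, Finset.sum_filter]
    refine Finset.sum_congr rfl fun i _ => ?_
    rw [LinearMap.map_smul, smul_eq_mul]
    split_ifs with h
    · rw [h2 _ h, mul_one]
    · push Not at h
      rw [h, mul_zero]
  apply hfc
  rw [hf]
  apply hc
  apply exists_of_symbols hφ ht
  intro V hV e he
  have h1 : (fun i => iv ht V (ht.sym (a i) e)) ∈ G := by
    refine ⟨{V}, fun V' => if V' = V then e else 1, ?_, ?_, ?_, ?_⟩
    · intro V' hV'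
      rw [Finset.mem_singleton.1 hV']
      exact hV
    · intro V'
      change (if V' = V then e else 1) ≠ 0
      split_ifs
      · exact he
      · exact one_ne_zero
    · intro V' hV'
      rw [Finset.mem_singleton] at hV'
      exact if_neg hV'
    · intro i
      rw [Finset.sum_singleton]
      simp
  have h2 : f (fun i => iv ht V (ht.sym (a i) e)) = 0 := hfG h1
  rw [hf, ← iv_sum hφ hV] at h2
  rw [← iv_eq_zero]
  rw [← h2]
  congr 1
  rw [IsTwoBasis.sym, Finset.sum_mul, ht.cart_sum]
  rfl

end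

end Pool.Agent.Helper31.CB
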