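import Mathlib
import Pool.Agent.Helper26.ChMain
import Pool.Agent.Helper31.CB.ChHP
import Pool.Agent.Helper31.CB.Delta
import Pool.Agent.Helper31.CB.Iv

set_option autoImplicit false
set_option linter.unusedSectionVars false

/-!
# The core of the argument: from local data to a point of the base line
-/

universe u v

namespace Pool.Agent.Helper31.CB

open Polynomial Finset
open Pool.Agent.Helper26 hiding chQ chG chG_map qf_chG pm_chG pm_chG_mulVec ch_jac ch_hp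

section

variable {F : Type v} {k : Type u} [Field F] [Finite F] [CharP F 2] [Field k] [CharP k 2]
  {ι : Type*} [Fintype ι] {K : ι → Type u} [∀ i, Field (K i)] [∀ i, CharP (K i) 2]
  [∀ i, Algebra k (K i)] [∀ i, FiniteDimensional k (K i)] [∀ i, Algebra.IsSeparable k (K i)]

/-- The class attached to a point `(A, B)` of the base line. -/
noncomputable def cls {τ : k} (hK : ∀ i, IsTwoBasis (algebraMap k (K i) τ)) (α θ : ∀ i, K i)
    (T : Finset ι) (A B : k) : k :=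
  ∑ i ∈ T, Algebra.trace k (K i) ((hK i).sym (α i) (lin (θ i) A B))

lemma lin_zero_of {θ₀ : k} {i : ι} {θ : ∀ i, K i} (h : θ i = algebraMap k (K i) θ₀) :
    lin (θ i) θ₀ 1 = 0 := by
  rw [lin, h, map_one, one_mul]
  exact CharTwo.add_self_eq_zero _

open Classical in
/-- The first step: ideles making all parities even. -/
theorem exists_ideles {φ : RatFunc F →+* k} (hφ : GoodEmb φ) {τ : k} (hτ : IsTwoBasis τ)
    (hK : ∀ i, IsTwoBasis (algebraMap k (K i) τ)) (α θ : ∀ i, K i)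
    (S : Finset (ValuationSubring k)) (hS : ∀ V ∈ S, V ≠ ⊤)
    (A B : ValuationSubring k → k) (hAB : ∀ V ∈ S, ∀ i, lin (θ i) (A V) (B V) ≠ 0)
    (hT : ∀ T : Finset ι, (∃ x : k, x ^ 2 + x + ∑ i ∈ T, Algebra.trace k (K i) (α i) = 0) →
      ∑ V ∈ S, iv hτ V (cls hK α θ T (A V) (B V)) = 0) :
    ∃ (S' : Finset (ValuationSubring k)) (ρ : ValuationSubring k → k), (∀ V ∈ S', V ≠ ⊤) ∧
      S ⊆ S' ∧ (∀ V, ρ V ≠ 0) ∧
      ∀ i, ∑ V ∈ S', iv hτ V (Algebra.trace k (K i) ((hK i).sym (α i)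
        (if V ∈ S then lin (θ i) (ρ V * A V) (ρ V * B V) else algebraMap k (K i) (ρ V)))) = 0 := by
  classical
  obtain ⟨S₁, ρ, h1, h2, h3, h4⟩ := exists_idele hφ hτ (fun i => Algebra.trace k (K i) (α i))
    (fun i => ∑ V ∈ S, iv hτ V (Algebra.trace k (K i) ((hK i).sym (α i)
      (lin (θ i) (A V) (B V))))) (by
    intro T hTx
    rw [Finset.sum_comm, ← hT T hTx]
    exact Finset.sum_congr rfl fun V hV => (iv_sum hφ (hS V hV) hτ T _).symm)
  have hSt : ∀ V ∈ S ∪ S₁, V ≠ ⊤ := by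
    intro V hV
    rcases Finset.mem_union.1 hV with h | h
    · exact hS V h
    · exact h1 V h
  refine ⟨S ∪ S₁, ρ, hSt, Finset.subset_union_left, h2, fun i => ?_⟩
  have hK0 : ∀ V, algebraMap k (K i) (ρ V) ≠ 0 := fun V => by rw [Ne, map_eq_zero]; exact h2 V
  have e1 : ∀ V ∈ S ∪ S₁, iv hτ V (Algebra.trace k (K i) ((hK i).sym (α i)
        (if V ∈ S then lin (θ i) (ρ V * A V) (ρ V * B V) else algebraMap k (K i) (ρ V)))) =
      iv hτ V (hτ.sym (Algebra.trace k (K i) (α i)) (ρ V)) +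
      (if V ∈ S then iv hτ V (Algebra.trace k (K i) ((hK i).sym (α i)
        (lin (θ i) (A V) (B V)))) else 0) := by
    intro V hV
    by_cases hVS : V ∈ S
    · rw [if_pos hVS, if_pos hVS, lin_smul, (hK i).sym_mul _ (hK0 V) (hAB V hVS i), map_add,
        iv_add hφ (hSt V hV), trace_sym_const hτ]
    · rw [if_neg hVS, if_neg hVS, add_zero, trace_sym_const hτ]
  rw [Finset.sum_congr rfl e1, Finset.sum_add_distrib]
  have e2 : ∑ V ∈ S ∪ S₁, iv hτ V (hτ.sym (Algebra.trace k (K i) (α i)) (ρ V)) =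
      ∑ V ∈ S, iv hτ V (Algebra.trace k (K i) ((hK i).sym (α i) (lin (θ i) (A V) (B V)))) := by
    rw [← h4 i]
    symm
    apply Finset.sum_subset Finset.subset_union_right
    intro V _ hV
    rw [h3 V hV, hτ.sym_one, iv_zero]
  rw [e2, Finset.sum_ite_mem, Finset.union_inter_cancel_left]
  exact zmod2_add_self _

/-- The second step: the multipliers. -/
theorem exists_deltas {φ : RatFunc F →+* k} (hφ : GoodEmb φ) {τ : k} (hτ : IsTwoBasis τ)
    (hK : ∀ i, IsTwoBasis (algebraMap k (K i) τ)) (α : ∀ i, K i)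
    (S : Finset (ValuationSubring k)) (hS : ∀ V ∈ S, V ≠ ⊤) (e : ∀ i, ValuationSubring k → K i)
    (he : ∀ i V, e i V ≠ 0) (heS : ∀ i V, V ∉ S → e i V = 1)
    (hpar : ∀ i, ∑ V ∈ S, iv hτ V (Algebra.trace k (K i) ((hK i).sym (α i) (e i V))) = 0) :
    ∃ δ : ∀ i, K i, (∀ i, δ i ≠ 0) ∧ ∀ V : ValuationSubring k, V ≠ ⊤ → ∀ i,
      ∀ W ∈ above (K i) V, NW W (α i) (δ i * e i V) := by
  have key : ∀ i, ∃ δ : K i, δ ≠ 0 ∧ ∀ V : ValuationSubring k, V ≠ ⊤ →
      ∀ W ∈ above (K i) V, NW W (α i) (δ * e i V) := by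
    intro i
    refine exists_delta hφ hτ (hK i) (α i) S hS (e i) (he i) (heS i) ?_
    rw [even_ncard_iv hτ S hS]
    · exact hpar i
    · intro V _ hVS
      rw [heS i V hVS, IsTwoBasis.sym_one, map_zero]
      exact LT.zero hτ V
  choose δ h0 h1 using key
  exact ⟨δ, h0, fun V hV i => h1 i V hV⟩

/-- Symbols of elements which are norms at all places above `V`. -/
lemma iv_trace_of_NW {φ : RatFunc F →+* k} (hφ : GoodEmb φ) {τ : k} (hτ : IsTwoBasis τ)
    (hK : ∀ i, IsTwoBasis (algebraMap k (K i) τ)) (i : ι) (α x : K i) (hx : x ≠ 0)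
    {V : ValuationSubring k} (hV : V ≠ ⊤) (h : ∀ W ∈ above (K i) V, NW W α x) :
    iv hτ V (Algebra.trace k (K i) ((hK i).sym α x)) = 0 := by
  rw [iv_eq_zero]
  refine hφ.LT_trace hV hτ (hK i) fun W hW => ?_
  rw [← (hφ.ext (K := K i)).NW_iff (above_ne_top hV hW) (hK i) α hx]
  exact h W hW

/-- The class of the final point. -/
theorem cls_final {φ : RatFunc F →+* k} (hφ : GoodEmb φ) {τ : k} (hτ : IsTwoBasis τ)
    (hK : ∀ i, IsTwoBasis (algebraMap k (K i) τ)) (α θ : ∀ i, K i)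
    (δ : ∀ i, K i) (hδ0 : ∀ i, δ i ≠ 0) (κ : k)
    (hδ : ∀ V : ValuationSubring k, V ≠ ⊤ →
      iv hτ V κ + ∑ i, iv hτ V (Algebra.trace k (K i) ((hK i).sym (α i) (δ i))) = 0)
    (A B : k) (hne : ∀ i, lin (θ i) A B ≠ 0)
    (h : ∀ i, ∀ V : ValuationSubring k, V ≠ ⊤ → ∀ W ∈ above (K i) V,
      NW W (α i) (δ i * lin (θ i) A B)) :
    ∃ Q : k, cls hK α θ Finset.univ A B + κ = Q + hτ.cart Q := by
  obtain ⟨V₁, hV₁⟩ := hφ.exists_notMem
  have hV₁t : V₁ ≠ ⊤ := by rintro rfl; exact hV₁ trivial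
  refine hφ.local_global hV₁t hτ _ fun V hV _ => ?_
  rw [← iv_eq_zero, iv_add hφ hV, cls, iv_sum hφ hV, ← hδ V hV, add_comm]
  congr 1
  refine Finset.sum_congr rfl fun i _ => ?_
  have h1 := iv_trace_of_NW hφ hτ hK i (α i) _ (mul_ne_zero (hδ0 i) (hne i)) hV
    (fun W hW => h i V hV W hW)
  rw [(hK i).sym_mul _ (hδ0 i) (hne i), map_add, iv_add hφ hV] at h1
  exact (eq_of_add_eq_zero2 h1).symm

/-- The case in which the component at one of the factors is split. -/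
theorem case_split {φ : RatFunc F →+* k} (hφ : GoodEmb φ) {P : k[X]} {θ : ∀ i, K i}
    (hF : IsFam P K θ) (hsum : ∑ i, Module.finrank k (K i) = 4) {τ : k} (hτ : IsTwoBasis τ)
    (hK : ∀ i, IsTwoBasis (algebraMap k (K i) τ)) (α : ∀ i, K i) (κ : k)
    (δ : ∀ i, K i) (hδ0 : ∀ i, δ i ≠ 0)
    (hδ : ∀ V : ValuationSubring k, V ≠ ⊤ →
      iv hτ V κ + ∑ i, iv hτ V (Algebra.trace k (K i) ((hK i).sym (α i) (δ i))) = 0)
    {i₀ : ι} {r : K i₀} (hr : r ^ 2 + r + α i₀ = 0) :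
    ∃ A B : k, (A ≠ 0 ∨ B ≠ 0) ∧ ((∃ i, lin (θ i) A B = 0) ∨
      ∃ Q : k, cls hK α θ Finset.univ A B + κ = Q + hτ.cart Q) := by
  classical
  by_cases h1 : ∃ i, Module.finrank k (K i) = 1
  · obtain ⟨i, hi⟩ := h1
    obtain ⟨θ₀, hθ₀⟩ : ∃ θ₀ : k, algebraMap k (K i) θ₀ = θ i := by
      have h2 : (⊥ : Subalgebra k (K i)) = ⊤ := Subalgebra.bot_eq_top_of_finrank_eq_one hi
      have h3 : θ i ∈ (⊥ : Subalgebra k (K i)) := by rw [h2]; trivial
      exact Algebra.mem_bot.1 h3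
    exact ⟨θ₀, 1, Or.inr one_ne_zero, Or.inl ⟨i, lin_zero_of hθ₀.symm⟩⟩
  push Not at h1
  have hpos : ∀ i, 2 ≤ Module.finrank k (K i) := fun i => by
    have h2 : 0 < Module.finrank k (K i) := Module.finrank_pos
    have h3 := h1 i
    omega
  have h2 : Module.finrank k (K i₀) + ∑ j ∈ univ.erase i₀, Module.finrank k (K j) = 4 := by
    rw [Finset.add_sum_erase _ (fun j => Module.finrank k (K j)) (Finset.mem_univ i₀)]
    exact hsum
  obtain ⟨A, B, hne, hAB⟩ : ∃ A B : k, (A ≠ 0 ∨ B ≠ 0) ∧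
      ∀ i ∈ univ.erase i₀, lin (θ i) A B = δ i := by
    by_cases h3 : (univ.erase i₀).Nonempty
    · obtain ⟨j, hj⟩ := h3
      have h4 : ∑ j ∈ univ.erase i₀, Module.finrank k (K j) = 2 := by
        have h5 := Finset.single_le_sum (f := fun j => Module.finrank k (K j))
          (fun i _ => Nat.zero_le _) hj
        have h6 := hpos j
        have h7 := hpos i₀
        omega
      obtain ⟨A, B, hAB⟩ := hF.exists_lin _ h4 δ
      refine ⟨A, B, ?_, hAB⟩
      by_contra hcon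
      push Not at hcon
      obtain ⟨hA, hB⟩ := hcon
      apply hδ0 j
      rw [← hAB j hj, hA, hB, lin, map_zero, zero_mul, add_zero]
    · rw [Finset.not_nonempty_iff_eq_empty] at h3
      exact ⟨1, 0, Or.inl one_ne_zero, fun i hi => by rw [h3] at hi; exact absurd hi (by simp)⟩
  refine ⟨A, B, hne, ?_⟩
  by_cases h0 : ∃ i, lin (θ i) A B = 0
  · exact Or.inl h0
  push Not at h0
  refine Or.inr (cls_final hφ hτ hK α θ δ hδ0 κ hδ A B h0 fun i V hV W hW => ?_)
  by_cases hii : i = i₀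
  · subst hii
    refine NW.of_split ((hφ.ext (K := K i)).rankOne (above_ne_top hV hW)) (R := r) ?_ _
    rw [hr]
    exact zero_mem_nonunits W
  · rw [hAB i (Finset.mem_erase.2 ⟨hii, Finset.mem_univ i⟩), ← pow_two]
    exact NW.of_sq W _ _

end

end Pool.Agent.Helper31.CB
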