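import Mathlib
import Pool.Agent.Helper26.ExtPlaces
import Pool.Agent.Helper31.Fam

set_option autoImplicit false
set_option linter.unusedSectionVars false

/-!
# The key formula: the sum of the corestrictions of the symbols at the degenerate fibres
-/

universe u v

namespace Pool.Agent.Helper31.CB

open Polynomial Pool.Agent.Helper26 Pool.Agent.Helper31.Fam

variable {k : Type u} [Field k] [CharP k 2] {P : k[X]}

instance charP_FK (i : Ix P) : CharP (FK i) 2 :=
  charP_of_injective_algebraMap (algebraMap k (FK i)).injective 2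

lemma tb {τ : k} (hτ : IsTwoBasis τ) (hsep : P.Separable) (i : Ix P) :
    IsTwoBasis (algebraMap k (FK i) τ) := by
  have := isSeparable_FK hsep i
  exact hτ.extend

/-- The total trace. -/
noncomputable def TT (P : k[X]) (z : ∀ i : Ix P, FK i) : k := ∑ i, Algebra.trace k (FK i) (z i)

lemma TT_add (z w : ∀ i : Ix P, FK i) : TT P (fun i => z i + w i) = TT P z + TT P w := by
  simp only [TT, map_add, Finset.sum_add_distrib]

lemma TT_mul (c : k) (z : ∀ i : Ix P, FK i) :
    TT P (fun i => algebraMap k (FK i) c * z i) = c * TT P z := by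
  simp only [TT, ← Algebra.smul_def, LinearMap.map_smul, smul_eq_mul, Finset.mul_sum]

lemma TT_const (hP : P.Monic) (hP4 : P.natDegree = 4) (hsep : P.Separable) (c : k) :
    TT P (fun i => algebraMap k (FK i) c) = 0 := by
  simp only [TT, Algebra.trace_algebraMap, ← Finset.sum_smul, sum_finrank hP hsep, hP4]
  rw [nsmul_eq_mul]
  have : ((4 : ℕ) : k) = 0 := by
    have h2 : (2 : k) = 0 := CharTwo.two_eq_zero
    have : ((4 : ℕ) : k) = 2 * 2 := by norm_num
    rw [this, h2, mul_zero]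
  rw [this, zero_mul]

/-- The trace of the root. -/
lemma TT_rt (hP : P.Monic) (hP4 : P.natDegree = 4) (hsep : P.Separable) :
    TT P (fun i => rt i) = P.coeff 3 := by
  have h1 : P.nextCoeff = P.coeff 3 := by
    rw [nextCoeff_of_natDegree_pos (by omega), hP4]
  have h2 : P.nextCoeff = ∑ i : Ix P, i.1.nextCoeff := by
    conv_lhs => rw [← prod_facs hP hsep]
    exact Monic.nextCoeff_prod _ _ fun i _ => i.monic
  rw [← h1, h2, TT]
  refine Finset.sum_congr rfl fun i _ => ?_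
  have h3 := (AdjoinRoot.powerBasis i.irreducible.ne_zero).trace_gen_eq_nextCoeff_minpoly
  rw [AdjoinRoot.powerBasis_gen] at h3
  rw [h3, CharTwo.neg_eq]
  congr 1
  exact minpoly_rt i

lemma aeval_quartic {R : Type*} [CommRing R] [Algebra k R] (hP : P.Monic)
    (hP4 : P.natDegree = 4) (x : R) : aeval x P = x ^ 4 + algebraMap k R (P.coeff 3) * x ^ 3 +
      algebraMap k R (P.coeff 2) * x ^ 2 + algebraMap k R (P.coeff 1) * x +
      algebraMap k R (P.coeff 0) := by
  rw [aeval_eq_sum_range, hP4]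
  have h4 : P.coeff 4 = 1 := by rw [← hP4]; exact hP.coeff_natDegree
  simp only [Finset.sum_range_succ, Finset.sum_range_zero, h4, Algebra.smul_def, map_one]
  ring

lemma eval_quartic (hP : P.Monic) (hP4 : P.natDegree = 4) (x : k) :
    P.eval x = x ^ 4 + P.coeff 3 * x ^ 3 + P.coeff 2 * x ^ 2 + P.coeff 1 * x + P.coeff 0 := by
  have := aeval_quartic (R := k) hP hP4 x
  simpa using this

/-- The product of the norms. -/
lemma prod_norm_add (hP : P.Monic) (hsep : P.Separable) (T : k) :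
    ∏ i : Ix P, Algebra.norm k (algebraMap k (FK i) T + rt i) = P.eval T := by
  have h := sum_eq_prod_norm hP hsep T 1
  simp only [map_one, one_mul, one_pow, mul_one] at h
  rw [← h, eval_eq_sum_range]

lemma add_rt_ne_zero (hP : P.Monic) (hsep : P.Separable) {T : k} (hT : P.eval T ≠ 0) (i : Ix P) :
    algebraMap k (FK i) T + rt i ≠ 0 := by
  intro h
  apply hT
  rw [← prod_norm_add hP hsep]
  apply Finset.prod_eq_zero (Finset.mem_univ i)
  rw [h, Algebra.norm_zero]

/-- The logarithmic derivative of `P(T)`. -/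
lemma dl_eval {τ : k} (hτ : IsTwoBasis τ) (hP : P.Monic) (hsep : P.Separable) {T : k}
    (hT : P.eval T ≠ 0) : hτ.dl (P.eval T) =
      TT P (fun i => (tb hτ hsep i).dl (algebraMap k (FK i) T + rt i)) := by
  rw [← prod_norm_add hP hsep, hτ.dl_prod, TT]
  · refine Finset.sum_congr rfl fun i _ => ?_
    have := isSeparable_FK hsep i
    exact hτ.dl_norm (tb hτ hsep i) (add_rt_ne_zero hP hsep hT i)
  · intro i _ h
    apply hT
    rw [← prod_norm_add hP hsep]
    exact Finset.prod_eq_zero (Finset.mem_univ i) h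

/-- The polynomial identity giving the traces of `θ ^ j Dθ`. -/
lemma poly_identity [Infinite k] {τ : k} (hτ : IsTwoBasis τ) (hP : P.Monic)
    (hP4 : P.natDegree = 4) (hsep : P.Separable) :
    C (TT P fun i => (tb hτ hsep i).cart (rt i) ^ 2) * X ^ 3 +
    C (TT P fun i => (rt i + algebraMap k (FK i) (P.coeff 3)) *
      (tb hτ hsep i).cart (rt i) ^ 2) * X ^ 2 +
    C (TT P fun i => (rt i ^ 2 + algebraMap k (FK i) (P.coeff 3) * rt i +
      algebraMap k (FK i) (P.coeff 2)) * (tb hτ hsep i).cart (rt i) ^ 2) * X +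
    C (TT P fun i => (rt i ^ 3 + algebraMap k (FK i) (P.coeff 3) * rt i ^ 2 +
      algebraMap k (FK i) (P.coeff 2) * rt i + algebraMap k (FK i) (P.coeff 1)) *
      (tb hτ hsep i).cart (rt i) ^ 2) =
    C (hτ.cart (P.coeff 3) ^ 2) * X ^ 3 + C (hτ.cart (P.coeff 2) ^ 2) * X ^ 2 +
    C (hτ.cart (P.coeff 1) ^ 2) * X + C (hτ.cart (P.coeff 0) ^ 2) := by
  classical
  have h2 : ∀ x : k, x + x = 0 := fun x => CharTwo.add_self_eq_zero x
  apply eq_of_infinite_eval_eq
  have hinf : {x : k | ∃ c : k, c ^ 2 = x ∧ P.eval x ≠ 0}.Infinite := by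
    have h3 : (Set.range fun c : k => c ^ 2).Infinite := by
      apply Set.infinite_range_of_injective
      intro a b hab
      have h4 : (a + b) ^ 2 = 0 := by
        rw [CharTwo.add_sq]
        simp only at hab
        rw [hab, h2]
      exact CharTwo.add_eq_zero.1 ((pow_eq_zero_iff two_ne_zero).1 h4)
    have h4 : {x : k | P.eval x = 0}.Finite := by
      have h5 : {x : k | P.eval x = 0} ⊆ (P.roots.toFinset : Set k) := by
        intro x hx
        simp only [Finset.mem_coe, Multiset.mem_toFinset, mem_roots hP.ne_zero]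
        exact hx
      exact (Finset.finite_toSet _).subset h5
    refine (h3.sdiff h4).mono ?_
    rintro x ⟨⟨c, rfl⟩, hx⟩
    exact ⟨c, rfl, hx⟩
  refine hinf.mono ?_
  rintro T ⟨c, rfl, hT⟩
  simp only [Set.mem_ofPred_eq, eval_add, eval_mul, eval_C, eval_pow, eval_X]
  have h3 := dl_eval hτ hP hsep hT
  set T := c ^ 2 with hTc
  have hcT : hτ.cart T = 0 := hτ.cart_sq c
  have h5 : hτ.cart (P.eval T) ^ 2 = P.eval T * hτ.dl (P.eval T) := by
    rw [IsTwoBasis.dl]; field_simp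
  have h6 : hτ.cart (P.eval T) ^ 2 = hτ.cart (P.coeff 3) ^ 2 * T ^ 3 +
      hτ.cart (P.coeff 2) ^ 2 * T ^ 2 + hτ.cart (P.coeff 1) ^ 2 * T +
      hτ.cart (P.coeff 0) ^ 2 := by
    rw [eval_quartic hP hP4]
    have e4 : T ^ 4 = (T ^ 2) ^ 2 := by ring
    have e3 : P.coeff 3 * T ^ 3 = (c ^ 3) ^ 2 * P.coeff 3 := by rw [hTc]; ring
    have e2 : P.coeff 2 * T ^ 2 = (c ^ 2) ^ 2 * P.coeff 2 := by rw [hTc]; ring
    have e1 : P.coeff 1 * T = c ^ 2 * P.coeff 1 := by rw [hTc]; ring
    rw [e4, e3, e2, e1, hτ.cart_add, hτ.cart_add, hτ.cart_add, hτ.cart_add, hτ.cart_sq,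
      hτ.cart_sq_mul, hτ.cart_sq_mul, hτ.cart_sq_mul, CharTwo.add_sq, CharTwo.add_sq,
      CharTwo.add_sq, zero_add, hTc]
    ring
  rw [← h6, h5, h3, ← TT_mul]
  have h7 : ∀ i : Ix P, algebraMap k (FK i) (P.eval T) *
      (tb hτ hsep i).dl (algebraMap k (FK i) T + rt i) =
      algebraMap k (FK i) (T ^ 3) * (tb hτ hsep i).cart (rt i) ^ 2 +
      algebraMap k (FK i) (T ^ 2) * ((rt i + algebraMap k (FK i) (P.coeff 3)) *
        (tb hτ hsep i).cart (rt i) ^ 2) +
      algebraMap k (FK i) T * ((rt i ^ 2 + algebraMap k (FK i) (P.coeff 3) * rt i +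
        algebraMap k (FK i) (P.coeff 2)) * (tb hτ hsep i).cart (rt i) ^ 2) +
      (rt i ^ 3 + algebraMap k (FK i) (P.coeff 3) * rt i ^ 2 +
        algebraMap k (FK i) (P.coeff 2) * rt i + algebraMap k (FK i) (P.coeff 1)) *
        (tb hτ hsep i).cart (rt i) ^ 2 := by
    intro i
    have h2' : ∀ x : FK i, x + x = 0 := fun x => CharTwo.add_self_eq_zero x
    have hne := add_rt_ne_zero hP hsep hT i
    have hθ := aeval_rt i
    rw [aeval_quartic hP hP4] at hθ
    have hcart : (tb hτ hsep i).cart (algebraMap k (FK i) T + rt i) =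
        (tb hτ hsep i).cart (rt i) := by
      rw [IsTwoBasis.cart_add, hτ.map_cart (algebraMap k (FK i)) (tb hτ hsep i), hcT, map_zero,
        zero_add]
    rw [IsTwoBasis.dl, hcart, mul_div_assoc', div_eq_iff hne, eval_quartic hP hP4]
    simp only [map_add, map_mul, map_pow]
    set θ := rt i
    set t' := algebraMap k (FK i) T
    set s3 := algebraMap k (FK i) (P.coeff 3)
    set s2 := algebraMap k (FK i) (P.coeff 2)
    set s1 := algebraMap k (FK i) (P.coeff 1)
    set s0 := algebraMap k (FK i) (P.coeff 0)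
    set D := (tb hτ hsep i).cart θ ^ 2
    linear_combination -D * hθ + h2' (s0 * D) - h2' (t' ^ 3 * θ * D) -
      h2' (t' ^ 2 * θ ^ 2 * D) - h2' (t' ^ 2 * s3 * θ * D) - h2' (t' * θ ^ 3 * D) -
      h2' (t' * s3 * θ ^ 2 * D) - h2' (t' * s2 * θ * D)
  have h8 : (fun i : Ix P => algebraMap k (FK i) (P.eval T) *
      (tb hτ hsep i).dl (algebraMap k (FK i) T + rt i)) = _ := funext h7
  rw [h8, TT_add, TT_add, TT_add, TT_mul, TT_mul, TT_mul]
  ring

lemma cub3 (a b c d : k) : (C a * X ^ 3 + C b * X ^ 2 + C c * X + C d : k[X]).coeff 3 = a := by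
  simp

lemma cub2 (a b c d : k) : (C a * X ^ 3 + C b * X ^ 2 + C c * X + C d : k[X]).coeff 2 = b := by
  simp

lemma TT_cart_rt [Infinite k] {τ : k} (hτ : IsTwoBasis τ) (hP : P.Monic)
    (hP4 : P.natDegree = 4) (hsep : P.Separable) :
    TT P (fun i => (tb hτ hsep i).cart (rt i) ^ 2) = hτ.cart (P.coeff 3) ^ 2 := by
  have h := congrArg (fun p : k[X] => p.coeff 3) (poly_identity hτ hP hP4 hsep)
  rwa [cub3, cub3] at h

lemma TT_rt_cart_rt [Infinite k] {τ : k} (hτ : IsTwoBasis τ) (hP : P.Monic)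
    (hP4 : P.natDegree = 4) (hsep : P.Separable) :
    TT P (fun i => rt i * (tb hτ hsep i).cart (rt i) ^ 2) =
      hτ.cart (P.coeff 2) ^ 2 + P.coeff 3 * hτ.cart (P.coeff 3) ^ 2 := by
  have h := congrArg (fun p : k[X] => p.coeff 2) (poly_identity hτ hP hP4 hsep)
  have h1 : TT P (fun i => (rt i + algebraMap k (FK i) (P.coeff 3)) *
      (tb hτ hsep i).cart (rt i) ^ 2) = hτ.cart (P.coeff 2) ^ 2 := by
    rwa [cub2, cub2] at h
  have h2 : ∀ x : k, x + x = 0 := fun x => CharTwo.add_self_eq_zero x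
  rw [← h1]
  have h3 : (fun i : Ix P => (rt i + algebraMap k (FK i) (P.coeff 3)) *
      (tb hτ hsep i).cart (rt i) ^ 2) = fun i => rt i * (tb hτ hsep i).cart (rt i) ^ 2 +
      algebraMap k (FK i) (P.coeff 3) * (tb hτ hsep i).cart (rt i) ^ 2 := by
    funext i
    ring
  rw [h3, TT_add, TT_mul, TT_cart_rt hτ hP hP4 hsep]
  linear_combination -h2 (P.coeff 3 * hτ.cart (P.coeff 3) ^ 2)

/-- The key formula. -/
theorem key_formula [Infinite k] {τ : k} (hτ : IsTwoBasis τ) (hP : P.Monic)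
    (hP4 : P.natDegree = 4) (hsep : P.Separable) (a₀ a₁ a₂ : k) {T : k} (hT : P.eval T ≠ 0) :
    TT P (fun i => (algebraMap k (FK i) a₀ + algebraMap k (FK i) a₁ * rt i +
        algebraMap k (FK i) a₂ * rt i ^ 2) *
        (tb hτ hsep i).dl (algebraMap k (FK i) T + rt i)) =
      (a₀ + a₁ * T + a₂ * T ^ 2) * hτ.dl (P.eval T) +
      (a₁ * hτ.cart (P.coeff 3) ^ 2 + a₂ * (hτ.cart (P.coeff 2) ^ 2 +
        hτ.cart (P.coeff 3 * T) ^ 2 + P.coeff 3 * hτ.cart (P.coeff 3) ^ 2)) := by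
  have h2 : ∀ x : k, x + x = 0 := fun x => CharTwo.add_self_eq_zero x
  have h1 : ∀ i : Ix P, (algebraMap k (FK i) a₀ + algebraMap k (FK i) a₁ * rt i +
        algebraMap k (FK i) a₂ * rt i ^ 2) *
        (tb hτ hsep i).dl (algebraMap k (FK i) T + rt i) =
      algebraMap k (FK i) (a₀ + a₁ * T + a₂ * T ^ 2) *
        (tb hτ hsep i).dl (algebraMap k (FK i) T + rt i) +
      (algebraMap k (FK i) (a₁ + a₂ * T) * (tb hτ hsep i).cart (rt i) ^ 2 +
        (algebraMap k (FK i) a₂ * (rt i * (tb hτ hsep i).cart (rt i) ^ 2) +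
        (algebraMap k (FK i) (a₂ * hτ.cart T ^ 2) * rt i +
          algebraMap k (FK i) ((a₁ + a₂ * T) * hτ.cart T ^ 2)))) := by
    intro i
    have h2' : ∀ x : FK i, x + x = 0 := fun x => CharTwo.add_self_eq_zero x
    have hne := add_rt_ne_zero hP hsep hT i
    have hcart : (tb hτ hsep i).cart (algebraMap k (FK i) T + rt i) ^ 2 =
        algebraMap k (FK i) (hτ.cart T ^ 2) + (tb hτ hsep i).cart (rt i) ^ 2 := by
      rw [IsTwoBasis.cart_add, hτ.map_cart (algebraMap k (FK i)) (tb hτ hsep i), CharTwo.add_sq,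
        map_pow]
    rw [IsTwoBasis.dl, hcart]
    simp only [map_add, map_mul, map_pow]
    set θ := rt i
    set t' := algebraMap k (FK i) T
    set D := (tb hτ hsep i).cart θ ^ 2
    set b₀ := algebraMap k (FK i) a₀
    set b₁ := algebraMap k (FK i) a₁
    set b₂ := algebraMap k (FK i) a₂
    set E := algebraMap k (FK i) (hτ.cart T) ^ 2
    have h3 : b₀ + b₁ * θ + b₂ * θ ^ 2 = (b₀ + b₁ * t' + b₂ * t' ^ 2) +
        (t' + θ) * (b₁ + b₂ * (t' + θ)) := by
      linear_combination -h2' (b₁ * t') - h2' (b₂ * t' ^ 2) - h2' (b₂ * t' * θ)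
    rw [h3, add_mul]
    have h4 : (t' + θ) * (b₁ + b₂ * (t' + θ)) * ((E + D) / (t' + θ)) =
        (b₁ + b₂ * (t' + θ)) * (E + D) := by
      field_simp
    rw [h4]
    ring
  have h3 : (fun i : Ix P => (algebraMap k (FK i) a₀ + algebraMap k (FK i) a₁ * rt i +
        algebraMap k (FK i) a₂ * rt i ^ 2) *
        (tb hτ hsep i).dl (algebraMap k (FK i) T + rt i)) = _ := funext h1
  rw [h3, TT_add, TT_add, TT_add, TT_add, TT_mul, TT_mul, TT_mul, TT_mul,
    TT_const hP hP4 hsep, TT_rt hP hP4 hsep, TT_cart_rt hτ hP hP4 hsep,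
    TT_rt_cart_rt hτ hP hP4 hsep, ← dl_eval hτ hP hsep hT, hτ.cart_mul_pow]
  ring

end Pool.Agent.Helper31.CB
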