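import Mathlib
import Pool.Agent.Helper31.CB.Key
import Pool.Agent.Helper31.CB.Core

set_option autoImplicit false
set_option linter.unusedSectionVars false

/-!
# The class of the conic over a point of the base line
-/

universe u v

namespace Pool.Agent.Helper31.CB

open Polynomial Finset Pool.Agent.Helper31.Fam
open Pool.Agent.Helper26 hiding chQ chG chG_map qf_chG pm_chG pm_chG_mulVec ch_jac ch_hp

/-- The trace of a square. -/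
lemma trace_sq {k K : Type*} [Field k] [CharP k 2] [Field K] [Algebra k K]
    [FiniteDimensional k K] [Algebra.IsSeparable k K] (x : K) :
    Algebra.trace k K (x ^ 2) = Algebra.trace k K x ^ 2 := by
  have hc : CharP (AlgebraicClosure k) 2 :=
    charP_of_injective_algebraMap (algebraMap k (AlgebraicClosure k)).injective 2
  apply (algebraMap k (AlgebraicClosure k)).injective
  rw [RingHom.map_pow, trace_eq_sum_embeddings (AlgebraicClosure k),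
    trace_eq_sum_embeddings (AlgebraicClosure k), sum_pow_char 2]
  refine Finset.sum_congr rfl fun σ _ => ?_
  rw [map_pow]

section

variable {k : Type u} [Field k] [CharP k 2] {P : k[X]}

lemma sym_add {τ : k} (hτ : IsTwoBasis τ) (a b e : k) :
    hτ.sym (a + b) e = hτ.sym a e + hτ.sym b e := by
  rw [IsTwoBasis.sym, IsTwoBasis.sym, IsTwoBasis.sym, add_mul, hτ.cart_add]

lemma sym_AS {τ : k} (hτ : IsTwoBasis τ) (x e : k) :
    hτ.sym (x ^ 2 + x) e = x * hτ.dl e + hτ.cart (x * hτ.dl e) := by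
  rw [sym_add, IsTwoBasis.sym, hτ.cart_sq_mul, hτ.cart_dl, IsTwoBasis.sym]

lemma mul_dl {τ : k} (hτ : IsTwoBasis τ) {n : k} (hn : n ≠ 0) : n * hτ.dl n = hτ.cart n ^ 2 := by
  rw [IsTwoBasis.dl]; field_simp

lemma dl_sq_mul {τ : k} (hτ : IsTwoBasis τ) {c x : k} (hc : c ≠ 0) (hx : x ≠ 0) :
    hτ.dl (c ^ 2 * x) = hτ.dl x := by
  rw [hτ.dl_mul (pow_ne_zero _ hc) hx, hτ.dl_sq, zero_add]

/-- The class at a point as the Cartier operator of a trace. -/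
lemma cls_eq {τ : k} (hτ : IsTwoBasis τ) (hsep : P.Separable) (a₀ a₁ a₂ T : k) :
    cls (tb hτ hsep) (fun i => aeval (rt i) (C a₀ + C a₁ * X + C a₂ * X ^ 2))
      (fun i : Ix P => rt i) Finset.univ T 1 =
    hτ.cart (TT P (fun i => (algebraMap k (FK i) a₀ + algebraMap k (FK i) a₁ * rt i +
        algebraMap k (FK i) a₂ * rt i ^ 2) *
        (tb hτ hsep i).dl (algebraMap k (FK i) T + rt i))) := by
  rw [cls, TT, hτ.cart_sum]
  refine Finset.sum_congr rfl fun i _ => ?_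
  have := isSeparable_FK hsep i
  rw [IsTwoBasis.sym, hτ.trace_cart (tb hτ hsep i), lin, map_one, one_mul]
  simp only [map_add, map_mul, map_pow, aeval_C, aeval_X]

/-- The class formula, first case. -/
theorem class_I [Infinite k] {τ : k} (hτ : IsTwoBasis τ) (hP : P.Monic)
    (hP4 : P.natDegree = 4) (hsep : P.Separable) {a₀ a₁ a₂ c₀ c₁ r₁ r₂ b₂ : k} (hc : c₁ ≠ 0)
    (hm : r₂ ^ 2 + a₂ * c₁ ^ 2 ≠ 0)
    (h3 : (r₂ ^ 2 + a₂ * c₁ ^ 2) * P.coeff 3 = c₁ * r₂ + a₁ * c₁ ^ 2)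
    (h2 : (r₂ ^ 2 + a₂ * c₁ ^ 2) * P.coeff 2 =
      r₁ ^ 2 + c₁ * r₁ + c₀ * r₂ + a₀ * c₁ ^ 2 + a₂ * c₀ ^ 2 + b₂) {T : k} (hT : P.eval T ≠ 0) :
    ∃ Q : k, hτ.sym (a₀ + a₁ * T + a₂ * T ^ 2) ((r₂ ^ 2 + a₂ * c₁ ^ 2) * P.eval T) +
      (cls (tb hτ hsep) (fun i => aeval (rt i) (C a₀ + C (a₁ + r₂ / c₁) * X +
        C (a₂ + (r₂ / c₁) ^ 2) * X ^ 2)) (fun i : Ix P => rt i) Finset.univ T 1 +
      hτ.sym ((b₂ + r₁ ^ 2 + c₁ * r₁ + c₀ * r₂ + a₂ * c₀ ^ 2) / c₁ ^ 2)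
        (a₂ + (r₂ / c₁) ^ 2)) = Q + hτ.cart Q := by
  have h2' : ∀ x : k, x + x = 0 := fun x => CharTwo.add_self_eq_zero x
  set r := r₂ / c₁ with hr
  set n := a₂ + r ^ 2 with hn
  set β := (b₂ + r₁ ^ 2 + c₁ * r₁ + c₀ * r₂ + a₂ * c₀ ^ 2) / c₁ ^ 2 with hβ
  have hmn : r₂ ^ 2 + a₂ * c₁ ^ 2 = c₁ ^ 2 * n := by
    rw [hn, hr]; field_simp; ring
  have hn0 : n ≠ 0 := by
    intro h0
    apply hm
    rw [hmn, h0, mul_zero]
  have hs1 : a₁ + r = n * P.coeff 3 := by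
    rw [hmn] at h3
    have h5 : c₁ ^ 2 * (a₁ + r) = c₁ ^ 2 * (n * P.coeff 3) := by
      have h6 : c₁ * r = r₂ := by rw [hr]; field_simp
      linear_combination -h3 + c₁ * h6
    exact mul_left_cancel₀ (pow_ne_zero 2 hc) h5
  have hs2 : β = a₀ + n * P.coeff 2 := by
    rw [hmn] at h2
    have h5 : c₁ ^ 2 * β = c₁ ^ 2 * (a₀ + n * P.coeff 2) := by
      rw [hβ]
      field_simp
      linear_combination -h2 - h2' (a₀ * c₁ ^ 2)
    exact mul_left_cancel₀ (pow_ne_zero 2 hc) h5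
  refine ⟨(r * T) * hτ.dl (n * P.eval T), ?_⟩
  have hA : a₀ + a₁ * T + a₂ * T ^ 2 = (a₀ + (a₁ + r) * T + n * T ^ 2) + ((r * T) ^ 2 + r * T) := by
    rw [hn]
    linear_combination -h2' (r * T) - h2' (r ^ 2 * T ^ 2)
  have hdl : hτ.dl ((r₂ ^ 2 + a₂ * c₁ ^ 2) * P.eval T) = hτ.dl (n * P.eval T) := by
    rw [hmn, mul_assoc, dl_sq_mul hτ hc (mul_ne_zero hn0 hT)]
  have hsy : ∀ a, hτ.sym a ((r₂ ^ 2 + a₂ * c₁ ^ 2) * P.eval T) = hτ.sym a (n * P.eval T) := by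
    intro a
    rw [IsTwoBasis.sym, hdl, IsTwoBasis.sym]
  rw [hsy, hA, sym_add, sym_AS, cls_eq hτ hsep, key_formula hτ hP hP4 hsep _ _ _ hT]
  have key : hτ.sym (a₀ + (a₁ + r) * T + n * T ^ 2) (n * P.eval T) +
      (hτ.cart ((a₀ + (a₁ + r) * T + n * T ^ 2) * hτ.dl (P.eval T) +
        ((a₁ + r) * hτ.cart (P.coeff 3) ^ 2 + n * (hτ.cart (P.coeff 2) ^ 2 +
        hτ.cart (P.coeff 3 * T) ^ 2 + P.coeff 3 * hτ.cart (P.coeff 3) ^ 2))) + hτ.sym β n) = 0 := by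
    rw [IsTwoBasis.sym, IsTwoBasis.sym, hτ.dl_mul hn0 hT, ← hτ.cart_add, ← hτ.cart_add]
    have h6 : (a₀ + (a₁ + r) * T + n * T ^ 2) * (hτ.dl n + hτ.dl (P.eval T)) +
        ((a₀ + (a₁ + r) * T + n * T ^ 2) * hτ.dl (P.eval T) +
        ((a₁ + r) * hτ.cart (P.coeff 3) ^ 2 + n * (hτ.cart (P.coeff 2) ^ 2 +
        hτ.cart (P.coeff 3 * T) ^ 2 + P.coeff 3 * hτ.cart (P.coeff 3) ^ 2)) + β * hτ.dl n) =
        (T * hτ.cart n + hτ.cart (n * (P.coeff 3 * T)) + hτ.cart (n * P.coeff 2)) ^ 2 := by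
      rw [CharTwo.add_sq, CharTwo.add_sq, hτ.cart_mul_pow n, hτ.cart_mul_pow n, hs1, hs2]
      have h7 := mul_dl hτ hn0
      linear_combination (T ^ 2 + P.coeff 3 * T + P.coeff 2) * h7 +
        h2' ((a₀ + n * P.coeff 3 * T + n * T ^ 2) * hτ.dl (P.eval T)) +
        h2' (n * P.coeff 3 * hτ.cart (P.coeff 3) ^ 2) + h2' (a₀ * hτ.dl n)
    rw [h6, hτ.cart_sq]
  linear_combination key

/-- The class formula, second case. -/
theorem class_II [Infinite k] {τ : k} (hτ : IsTwoBasis τ) (hP : P.Monic)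
    (hP4 : P.natDegree = 4) (hsep : P.Separable) {a₀ a₁ a₂ c₀ r₁ r₂ b₂ : k}
    (hm : r₂ ≠ 0) (ha : a₂ ≠ 0) (h3 : r₂ ^ 2 * P.coeff 3 = 0)
    (h2 : r₂ ^ 2 * P.coeff 2 = r₁ ^ 2 + c₀ * r₂ + a₂ * c₀ ^ 2 + b₂) {T : k}
    (hT : P.eval T ≠ 0) :
    hτ.sym (a₀ + a₁ * T + a₂ * T ^ 2) (r₂ ^ 2 * P.eval T) +
      (cls (tb hτ hsep) (fun i => aeval (rt i) (C a₀ + C a₁ * X + C a₂ * X ^ 2))
        (fun i : Ix P => rt i) Finset.univ T 1 +
      hτ.sym (a₂ * (b₂ + r₁ ^ 2 + c₀ * r₂ + a₂ * c₀ ^ 2) / r₂ ^ 2) a₂) = 0 := by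
  have h2' : ∀ x : k, x + x = 0 := fun x => CharTwo.add_self_eq_zero x
  have hs1 : P.coeff 3 = 0 := (mul_eq_zero.1 h3).resolve_left (pow_ne_zero 2 hm)
  have hs2 : a₂ * (b₂ + r₁ ^ 2 + c₀ * r₂ + a₂ * c₀ ^ 2) / r₂ ^ 2 = a₂ * P.coeff 2 := by
    field_simp
    linear_combination -h2
  rw [hs2, cls_eq hτ hsep, key_formula hτ hP hP4 hsep _ _ _ hT, hs1, zero_mul, hτ.cart_zero,
    IsTwoBasis.sym, IsTwoBasis.sym, dl_sq_mul hτ hm hT, ← hτ.cart_add, ← hτ.cart_add]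
  have h6 : (a₀ + a₁ * T + a₂ * T ^ 2) * hτ.dl (P.eval T) +
      ((a₀ + a₁ * T + a₂ * T ^ 2) * hτ.dl (P.eval T) +
        (a₁ * 0 ^ 2 + a₂ * (hτ.cart (P.coeff 2) ^ 2 + 0 ^ 2 + 0 * 0 ^ 2)) +
        a₂ * P.coeff 2 * hτ.dl a₂) = (hτ.cart (a₂ * P.coeff 2)) ^ 2 := by
    rw [hτ.cart_mul_pow a₂]
    have h7 := mul_dl hτ ha
    linear_combination P.coeff 2 * h7 + h2' ((a₀ + a₁ * T + a₂ * T ^ 2) * hτ.dl (P.eval T))
  rw [h6, hτ.cart_sq]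

/-- The trace of the Artin-Schreier parameter vanishes. -/
lemma trace_param (hP : P.Monic) (hP4 : P.natDegree = 4) (hsep : P.Separable) {a₀ a₁ a₂ : k}
    (h : a₁ * P.coeff 3 + a₂ * P.coeff 3 ^ 2 = 0) :
    ∑ i : Ix P, Algebra.trace k (FK i) (aeval (rt i) (C a₀ + C a₁ * X + C a₂ * X ^ 2)) = 0 := by
  have h1 := TT_rt hP hP4 hsep
  have h2 : TT P (fun i => rt i ^ 2) = P.coeff 3 ^ 2 := by
    rw [← h1, TT, TT, sum_pow_char 2]
    refine Finset.sum_congr rfl fun i _ => ?_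
    have := isSeparable_FK hsep i
    exact trace_sq _
  have h3 : ∑ i : Ix P, Algebra.trace k (FK i)
      (aeval (rt i) (C a₀ + C a₁ * X + C a₂ * X ^ 2)) =
      TT P (fun i => (algebraMap k (FK i) a₀ + algebraMap k (FK i) a₁ * rt i) +
        algebraMap k (FK i) a₂ * rt i ^ 2) := by
    rw [TT]
    simp only [map_add, map_mul, map_pow, aeval_C, aeval_X]
  rw [h3, TT_add, TT_add, TT_mul, TT_mul, TT_const hP hP4 hsep, h1, h2, zero_add, h]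

end

end Pool.Agent.Helper31.CB
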