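import Mathlib
import Pool.Agent.Helper31.CB.Core
import Pool.Agent.Helper26.GLoc

set_option autoImplicit false
set_option linter.unusedSectionVars false

/-!
# The core of the argument, continued: the anisotropic case
-/

universe u v

namespace Pool.Agent.Helper31.CB

open Polynomial Finset
open Pool.Agent.Helper26 hiding chQ chG chG_map qf_chG pm_chG pm_chG_mulVec ch_jac ch_hp

section

variable {F : Type v} {k : Type u} [Field F] [Finite F] [CharP F 2] [Field k] [CharP k 2]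
  {ι : Type*} [Fintype ι] {K : ι → Type u} [∀ i, Field (K i)] [∀ i, CharP (K i) 2]
  [∀ i, Algebra k (K i)] [∀ i, FiniteDimensional k (K i)] [∀ i, Algebra.IsSeparable k (K i)]

/-- The case in which no component is split. -/
theorem case_anisotropic {φ : RatFunc F →+* k} (hφ : GoodEmb φ) [Infinite k] {P : k[X]}
    (hP : P.Monic) (hP4 : P.natDegree = 4) (hsep : P.Separable) {θ : ∀ i, K i}
    (hF : IsFam P K θ) {τ : k} (hτ : IsTwoBasis τ)
    (hK : ∀ i, IsTwoBasis (algebraMap k (K i) τ)) (a : k[X]) (κ : k)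
    (δ : ∀ i, K i) (hδ0 : ∀ i, δ i ≠ 0)
    (hδ : ∀ V : ValuationSubring k, V ≠ ⊤ →
      iv hτ V κ + ∑ i, iv hτ V (Algebra.trace k (K i)
        ((hK i).sym (aeval (θ i) a) (δ i))) = 0)
    (A₀ B₀ : ValuationSubring k → k)
    (hAB : ∀ V : ValuationSubring k, V ≠ ⊤ → ∀ i, lin (θ i) (A₀ V) (B₀ V) ≠ 0)
    (hloc : ∀ V : ValuationSubring k, V ≠ ⊤ → ∀ i, ∀ W ∈ above (K i) V,
        NW W (aeval (θ i) a) (δ i * lin (θ i) (A₀ V) (B₀ V)))
    (hroot : ∀ i, ∀ r : K i, r ^ 2 + r + aeval (θ i) a ≠ 0) :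
    ∃ A B : k, (A ≠ 0 ∨ B ≠ 0) ∧ ((∃ i, lin (θ i) A B = 0) ∨
      ∃ Q : k, cls hK (fun i => aeval (θ i) a) θ Finset.univ A B + κ = Q + hτ.cart Q) := by
  classical
  obtain ⟨Δ, Δ', hΔ4, hΔd, hΔ, hΔv⟩ := hF.exists_multiplier hP4 hτ δ hδ0
  choose Z hZ0 hZ using hΔv
  have hΔ' : ∀ i, aeval (θ i) Δ * aeval (θ i) Δ' = 1 := by
    intro i
    obtain ⟨R, hR⟩ := hΔ
    have h1 := congrArg (aeval (θ i)) hR
    rw [map_sub, map_mul, map_mul, hF.root, zero_mul, map_one] at h1
    exact sub_eq_zero.1 h1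
  obtain ⟨z, hz0, hz1, hz2⟩ := ch_hp hφ hP hP4 hsep a hΔ hΔ4 hΔd (fun V hV => by
    refine loc_smooth_gen hφ hP hP4 hF hV a hΔ (A₀ V) (B₀ V) (hAB V hV) fun i W hW => ?_
    have h1 : aeval (θ i) Δ * (algebraMap k (K i) (A₀ V) + algebraMap k (K i) (B₀ V) * θ i) =
        (δ i * lin (θ i) (A₀ V) (B₀ V)) * Z i ^ 2 := by
      rw [hZ, lin]; ring
    rw [h1]
    exact (hφ.ext (K := K i)).NW_mul (above_ne_top hV hW)
      (mul_ne_zero (hδ0 i) (hAB V hV i)) (pow_ne_zero _ (hZ0 i)) (hloc V hV i W hW)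
      (NW.of_sq W _ _))
  -- the linear polynomial
  have hP1 : P ≠ 1 := by rintro rfl; simp at hP4
  set Q := chQ a Δ Δ' (Xp z) (Yp z) with hQ
  set R := Q %ₘ P with hR
  have hRd : R.natDegree < 4 := by
    rw [← hP4]; exact natDegree_modByMonic_lt _ hP hP1
  have hdR : P ∣ Q - R := by
    have h3 := modByMonic_add_div Q P
    exact ⟨Q /ₘ P, by rw [← hR] at h3; linear_combination -h3⟩
  have c3 : R.coeff 3 = 0 := by
    rw [← tau_of_natDegree hP hP4 hRd, ← hz1]
    apply tau_eq_of_dvd hP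
    rw [← neg_sub, dvd_neg]
    exact hdR
  have hR2 : R.natDegree ≤ 2 := by
    rw [natDegree_le_iff_coeff_eq_zero]
    intro m hm
    rcases Nat.lt_or_ge 3 m with h4 | h4
    · exact coeff_eq_zero_of_natDegree_lt (by omega)
    · have : m = 3 := by omega
      rw [this]; exact c3
  have c2 : R.coeff 2 = 0 := by
    have h3 : tau P (X * R) = 0 := by
      rw [← hz2]
      apply tau_eq_of_dvd hP
      rw [← neg_sub, dvd_neg, ← mul_sub]
      exact hdR.mul_left _
    rw [tau_of_natDegree hP hP4 (by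
      have h8 := natDegree_mul_le (p := (X : k[X])) (q := R)
      rw [natDegree_X] at h8
      omega), coeff_X_mul] at h3
    exact h3
  have hR1 : R.natDegree ≤ 1 := by
    rw [natDegree_le_iff_coeff_eq_zero]
    intro m hm
    rcases Nat.lt_or_ge 2 m with h4 | h4
    · exact coeff_eq_zero_of_natDegree_lt (by omega)
    · have : m = 2 := by omega
      rw [this]; exact c2
  have hRl : R = C (R.coeff 1) * X + C (R.coeff 0) := eq_X_add_C_of_natDegree_le_one hR1
  have hval : ∀ i, aeval (θ i) Q = lin (θ i) (R.coeff 0) (R.coeff 1) := by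
    intro i
    obtain ⟨R', hR'⟩ := hdR
    have h1 := congrArg (aeval (θ i)) hR'
    rw [map_sub, map_mul, hF.root, zero_mul] at h1
    rw [sub_eq_zero.1 h1]
    nth_rewrite 1 [hRl]
    rw [map_add, map_mul, aeval_C, aeval_C, aeval_X, lin, add_comm]
  have hnf : ∀ i, aeval (θ i) Δ * lin (θ i) (R.coeff 0) (R.coeff 1) =
      nf (aeval (θ i) a) (aeval (θ i) Δ * aeval (θ i) (Xp z)) (aeval (θ i) (Yp z)) := by
    intro i
    rw [← hval, hQ, chQ, nf]
    simp only [map_add, map_mul, map_pow]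
    linear_combination (aeval (θ i) a * aeval (θ i) (Yp z) ^ 2) * hΔ' i
  have hΔ0 : ∀ i, aeval (θ i) Δ ≠ 0 := fun i => left_ne_zero_of_mul_eq_one (hΔ' i)
  have hne : R.coeff 0 ≠ 0 ∨ R.coeff 1 ≠ 0 := by
    by_contra hcon
    push Not at hcon
    obtain ⟨h0, h1⟩ := hcon
    have hXY : ∀ i, aeval (θ i) (Xp z) = 0 ∧ aeval (θ i) (Yp z) = 0 := by
      intro i
      have h3 := hnf i
      rw [h0, h1, lin, map_zero, zero_mul, add_zero, mul_zero, nf] at h3
      have hY : aeval (θ i) (Yp z) = 0 := by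
        by_contra hY
        apply hroot i (aeval (θ i) Δ * aeval (θ i) (Xp z) / aeval (θ i) (Yp z))
        field_simp
        linear_combination -h3
      rw [hY] at h3
      have h4 : (aeval (θ i) Δ * aeval (θ i) (Xp z)) ^ 2 = 0 := by
        linear_combination -h3
      exact ⟨(mul_eq_zero.1 ((pow_eq_zero_iff two_ne_zero).1 h4)).resolve_left (hΔ0 i), hY⟩
    apply hz0
    apply vec_eq_zero
    · apply eq_zero_of_dvd_of_natDegree_lt (hF.dvd _ fun i => (hXY i).1)
      rw [hP4, Xp_eq]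
      exact natDegree_cubic' _ _ _ _
    · apply eq_zero_of_dvd_of_natDegree_lt (hF.dvd _ fun i => (hXY i).2)
      rw [hP4, Yp_eq]
      exact natDegree_cubic' _ _ _ _
  refine ⟨R.coeff 0, R.coeff 1, hne, ?_⟩
  by_cases h0 : ∃ i, lin (θ i) (R.coeff 0) (R.coeff 1) = 0
  · exact Or.inl h0
  push Not at h0
  refine Or.inr (cls_final hφ hτ hK _ θ δ hδ0 κ hδ _ _ h0 fun i V hV W hW => ?_)
  have h1 : NW W (aeval (θ i) a) (aeval (θ i) Δ * lin (θ i) (R.coeff 0) (R.coeff 1)) :=
    NW.of_norm W (hnf i)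
  have h3 : aeval (θ i) Δ * lin (θ i) (R.coeff 0) (R.coeff 1) =
      (δ i * lin (θ i) (R.coeff 0) (R.coeff 1)) * Z i ^ 2 := by
    rw [hZ]; ring
  rw [h3] at h1
  exact ((hφ.ext (K := K i)).NW_mul_iff (above_ne_top hV hW) (mul_ne_zero (hδ0 i) (h0 i))
    (pow_ne_zero _ (hZ0 i)) h1).2 (NW.of_sq W _ _)

/-- The core theorem. -/
theorem conic_core {φ : RatFunc F →+* k} (hφ : GoodEmb φ) [Infinite k] {P : k[X]}
    (hP : P.Monic) (hP4 : P.natDegree = 4) (hsep : P.Separable) {θ : ∀ i, K i}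
    (hF : IsFam P K θ) (hsum : ∑ i, Module.finrank k (K i) = 4) {τ : k} (hτ : IsTwoBasis τ)
    (hK : ∀ i, IsTwoBasis (algebraMap k (K i) τ)) (a : k[X])
    (ha : ∑ i, Algebra.trace k (K i) (aeval (θ i) a) = 0) (κ : k)
    (S : Finset (ValuationSubring k)) (hS : ∀ V ∈ S, V ≠ ⊤)
    (hκS : ∀ V : ValuationSubring k, V ≠ ⊤ → V ∉ S → LT hτ V κ)
    (A B : ValuationSubring k → k) (hAB : ∀ V ∈ S, ∀ i, lin (θ i) (A V) (B V) ≠ 0)
    (hN : ∀ V ∈ S, LT hτ V (cls hK (fun i => aeval (θ i) a) θ Finset.univ (A V) (B V) + κ))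
    (hT : ∀ T : Finset ι, (∃ x : k, x ^ 2 + x + ∑ i ∈ T, Algebra.trace k (K i)
        (aeval (θ i) a) = 0) →
      ∑ V ∈ S, iv hτ V (cls hK (fun i => aeval (θ i) a) θ T (A V) (B V)) = 0) :
    ∃ A B : k, (A ≠ 0 ∨ B ≠ 0) ∧ ((∃ i, lin (θ i) A B = 0) ∨
      ∃ Q : k, cls hK (fun i => aeval (θ i) a) θ Finset.univ A B + κ = Q + hτ.cart Q) := by
  classical
  obtain ⟨S', ρ, hS', hSS', hρ0, hpar⟩ := exists_ideles hφ hτ hK (fun i => aeval (θ i) a) θ S hS
    A B hAB hT
  have hρK : ∀ i V, algebraMap k (K i) (ρ V) ≠ 0 := fun i V => by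
    rw [Ne, map_eq_zero]; exact hρ0 V
  set e : ∀ i, ValuationSubring k → K i := fun i V => if V ∈ S' then
    (if V ∈ S then lin (θ i) (ρ V * A V) (ρ V * B V) else algebraMap k (K i) (ρ V)) else 1 with he
  have heA : ∀ i V, V ∈ S → e i V = lin (θ i) (ρ V * A V) (ρ V * B V) := by
    intro i V hV
    simp only [he]
    rw [if_pos (hSS' hV), if_pos hV]
  have heB : ∀ i V, V ∈ S' → V ∉ S → e i V = algebraMap k (K i) (ρ V) := by
    intro i V hV hV'
    simp only [he]
    rw [if_pos hV, if_neg hV']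
  have heC : ∀ i V, V ∉ S' → e i V = 1 := by
    intro i V hV
    simp only [he]
    rw [if_neg hV]
  have he0 : ∀ i V, e i V ≠ 0 := by
    intro i V
    by_cases h1 : V ∈ S'
    · by_cases h2 : V ∈ S
      · rw [heA i V h2, lin_smul]
        exact mul_ne_zero (hρK i V) (hAB V h2 i)
      · rw [heB i V h1 h2]
        exact hρK i V
    · rw [heC i V h1]
      exact one_ne_zero
  obtain ⟨δ, hδ0, hδ1⟩ := exists_deltas hφ hτ hK (fun i => aeval (θ i) a) S' hS' e he0 heC (by
    intro i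
    rw [← hpar i]
    refine Finset.sum_congr rfl fun V hV => ?_
    simp only [he]
    rw [if_pos hV])
  -- the sum of the invariants
  have hsym : ∀ (V : ValuationSubring k), V ≠ ⊤ → ∑ i, iv hτ V (Algebra.trace k (K i)
      ((hK i).sym (aeval (θ i) a) (algebraMap k (K i) (ρ V)))) = 0 := by
    intro V hV
    rw [← iv_sum hφ hV]
    have h1 : ∑ i, Algebra.trace k (K i) ((hK i).sym (aeval (θ i) a)
        (algebraMap k (K i) (ρ V))) = 0 := by
      rw [Finset.sum_congr rfl fun i _ => trace_sym_const hτ (hK i) (aeval (θ i) a) (ρ V)]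
      have h2 : ∑ i, hτ.sym (Algebra.trace k (K i) (aeval (θ i) a)) (ρ V) =
          hτ.sym (∑ i, Algebra.trace k (K i) (aeval (θ i) a)) (ρ V) := by
        simp only [IsTwoBasis.sym]
        rw [Finset.sum_mul, hτ.cart_sum]
      rw [h2, ha, IsTwoBasis.sym, zero_mul, hτ.cart_zero]
    rw [h1, iv_zero]
  have hδ : ∀ V : ValuationSubring k, V ≠ ⊤ →
      iv hτ V κ + ∑ i, iv hτ V (Algebra.trace k (K i)
        ((hK i).sym (aeval (θ i) a) (δ i))) = 0 := by
    intro V hV
    have h1 : ∀ i, iv hτ V (Algebra.trace k (K i) ((hK i).sym (aeval (θ i) a) (δ i))) =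
        iv hτ V (Algebra.trace k (K i) ((hK i).sym (aeval (θ i) a) (e i V))) := by
      intro i
      have h2 := iv_trace_of_NW hφ hτ hK i (aeval (θ i) a) _ (mul_ne_zero (hδ0 i) (he0 i V)) hV
        (fun W hW => hδ1 V hV i W hW)
      rw [(hK i).sym_mul _ (hδ0 i) (he0 i V), map_add, iv_add hφ hV] at h2
      exact eq_of_add_eq_zero2 h2
    rw [Finset.sum_congr rfl fun i _ => h1 i]
    by_cases h2 : V ∈ S
    · have h3 : ∀ i, iv hτ V (Algebra.trace k (K i) ((hK i).sym (aeval (θ i) a) (e i V))) =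
          iv hτ V (Algebra.trace k (K i) ((hK i).sym (aeval (θ i) a)
            (algebraMap k (K i) (ρ V)))) +
          iv hτ V (Algebra.trace k (K i) ((hK i).sym (aeval (θ i) a)
            (lin (θ i) (A V) (B V)))) := by
        intro i
        rw [heA i V h2, lin_smul, (hK i).sym_mul _ (hρK i V) (hAB V h2 i), map_add,
          iv_add hφ hV]
      rw [Finset.sum_congr rfl fun i _ => h3 i, Finset.sum_add_distrib, hsym V hV, zero_add]
      have h4 := iv_eq_zero.2 (hN V h2)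
      rw [iv_add hφ hV, cls, iv_sum hφ hV, add_comm] at h4
      exact h4
    · have hκ : iv hτ V κ = 0 := iv_eq_zero.2 (hκS V hV h2)
      rw [hκ, zero_add]
      by_cases h3 : V ∈ S'
      · rw [Finset.sum_congr rfl fun i _ => by rw [heB i V h3 h2], hsym V hV]
      · apply Finset.sum_eq_zero
        intro i _
        rw [heC i V h3, IsTwoBasis.sym_one, map_zero, iv_zero]
  by_cases hroot : ∃ i, ∃ r : K i, r ^ 2 + r + aeval (θ i) a = 0
  · obtain ⟨i₀, r, hr⟩ := hroot
    exact case_split hφ hF hsum hτ hK (fun i => aeval (θ i) a) κ δ hδ0 hδ hr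
  · push Not at hroot
    refine case_anisotropic hφ hP hP4 hsep hF hτ hK a κ δ hδ0 hδ
      (fun V => if V ∈ S' then (if V ∈ S then ρ V * A V else ρ V) else 1)
      (fun V => if V ∈ S then ρ V * B V else 0)
      (fun V hV i => ?_) (fun V hV i W hW => ?_) hroot
    · have h1 : lin (θ i) (if V ∈ S' then (if V ∈ S then ρ V * A V else ρ V) else 1)
          (if V ∈ S then ρ V * B V else 0) = e i V := by
        by_cases h2 : V ∈ S
        · rw [heA i V h2, if_pos (hSS' h2), if_pos h2, if_pos h2]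
        · by_cases h3 : V ∈ S'
          · rw [heB i V h3 h2, if_pos h3, if_neg h2, if_neg h2, lin, map_zero, zero_mul, add_zero]
          · rw [heC i V h3, if_neg h3, if_neg h2, lin_one]
      rw [h1]
      exact he0 i V
    · have h1 : lin (θ i) (if V ∈ S' then (if V ∈ S then ρ V * A V else ρ V) else 1)
          (if V ∈ S then ρ V * B V else 0) = e i V := by
        by_cases h2 : V ∈ S
        · rw [heA i V h2, if_pos (hSS' h2), if_pos h2, if_pos h2]
        · by_cases h3 : V ∈ S'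
          · rw [heB i V h3 h2, if_pos h3, if_neg h2, if_neg h2, lin, map_zero, zero_mul, add_zero]
          · rw [heC i V h3, if_neg h3, if_neg h2, lin_one]
      rw [h1]
      exact hδ1 V hV i W hW

end

end Pool.Agent.Helper31.CB
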