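import Mathlib
import Pool.Agent.Helper31.CB.Iv

set_option autoImplicit false
set_option linter.unusedSectionVars false

/-!
# The local invariant of a trace is the sum of the local invariants
-/

universe u v

namespace Pool.Agent.Helper31.CB

open Polynomial Pool.Agent.Helper26

section

variable {F : Type v} {k K : Type u} [Field F] [Finite F] [CharP F 2] [Field k] [CharP k 2]
  [Field K] [CharP K 2] [Algebra k K] [FiniteDimensional k K] [Algebra.IsSeparable k K]

/-- An element which is non-trivial at exactly one place above `V`, with non-trivial trace. -/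
lemma exists_local_unit {φ : RatFunc F →+* k} (hφ : GoodEmb φ) {V : ValuationSubring k}
    (hV : V ≠ ⊤) {t : k} (ht : IsTwoBasis t) (htK : IsTwoBasis (algebraMap k K t))
    {W₀ : ValuationSubring K} (hW₀ : W₀ ∈ above K V) :
    ∃ x : K, iv ht V (Algebra.trace k K x) = 1 ∧ iv htK W₀ x = 1 ∧
      ∀ W ∈ above K V, W ≠ W₀ → iv htK W x = 0 := by
  have hφK := hφ.ext (K := K)
  obtain ⟨c, hc⟩ := hφ.exists_not_LT hV ht
  have hsm : ∀ W ∈ above K V, ∃ d : K, d ≠ 0 ∧ ∀ x : K, x / d ∈ W → LT htK W x :=
    fun W hW => hφK.LT_small (above_ne_top hV hW) htK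
  choose! d hd0 hd using hsm
  obtain ⟨x, hx, hxW⟩ := hφ.exists_trace_eq hV hW₀ c d hd0
  have hxL : ∀ W ∈ above K V, W ≠ W₀ → LT htK W x := fun W hW hne => hd W hW x (hxW W hW hne)
  have hc1 : iv ht V c = 1 := by unfold iv; rw [if_neg hc]
  refine ⟨x, by rw [hx, hc1], ?_, fun W hW hne => iv_eq_zero.2 (hxL W hW hne)⟩
  unfold iv
  rw [if_neg]
  intro h0
  apply hc
  rw [← hx]
  refine hφ.LT_trace hV ht htK fun W hW => ?_
  by_cases hne : W = W₀
  · rw [hne]; exact h0
  · exact hxL W hW hne

/-- The local invariant of a trace. -/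
theorem iv_trace {φ : RatFunc F →+* k} (hφ : GoodEmb φ) {V : ValuationSubring k}
    (hV : V ≠ ⊤) {t : k} (ht : IsTwoBasis t) (htK : IsTwoBasis (algebraMap k K t)) (b : K) :
    iv ht V (Algebra.trace k K b) =
      ∑ W ∈ (hφ.above_finite (K := K) hV).toFinset, iv htK W b := by
  classical
  have hφK := hφ.ext (K := K)
  have hfin := hφ.above_finite (K := K) hV
  have hz : ∀ y : ZMod 2, y = 0 ∨ y = 1 := by decide
  -- induction on the number of places with non-trivial invariant
  obtain ⟨n, hn⟩ : ∃ n, (hfin.toFinset.filter fun W => iv htK W b = 1).card = n := ⟨_, rfl⟩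
  induction n generalizing b with
  | zero =>
    have h1 : ∀ W ∈ hfin.toFinset, iv htK W b = 0 := by
      intro W hW
      rcases hz (iv htK W b) with h | h
      · exact h
      · exfalso
        have : W ∈ hfin.toFinset.filter fun W => iv htK W b = 1 := Finset.mem_filter.2 ⟨hW, h⟩
        rw [Finset.card_eq_zero.1 hn] at this
        simp at this
    rw [Finset.sum_eq_zero h1, iv_eq_zero]
    exact hφ.LT_trace hV ht htK fun W hW => iv_eq_zero.1 (h1 W (hfin.mem_toFinset.2 hW))
  | succ n ih =>
    obtain ⟨W₀, hW₀⟩ : (hfin.toFinset.filter fun W => iv htK W b = 1).Nonempty := by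
      rw [← Finset.card_pos, hn]; omega
    obtain ⟨hW₀1, hW₀2⟩ := Finset.mem_filter.1 hW₀
    obtain ⟨x, hx1, hx2, hx3⟩ := exists_local_unit hφ hV ht htK (hfin.mem_toFinset.1 hW₀1)
    have hbx : ∀ W ∈ hfin.toFinset, iv htK W (b + x) = iv htK W b +
        if W = W₀ then 1 else 0 := by
      intro W hW
      rw [iv_add hφK (above_ne_top hV (hfin.mem_toFinset.1 hW))]
      congr 1
      split_ifs with h
      · rw [h]; exact hx2
      · exact hx3 W (hfin.mem_toFinset.1 hW) h
    have hfilter : (hfin.toFinset.filter fun W => iv htK W (b + x) = 1) =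
        (hfin.toFinset.filter fun W => iv htK W b = 1).erase W₀ := by
      ext W
      rw [Finset.mem_erase, Finset.mem_filter, Finset.mem_filter]
      constructor
      · rintro ⟨hW, h⟩
        rw [hbx W hW] at h
        by_cases hne : W = W₀
        · exfalso
          rw [if_pos hne, hne, hW₀2] at h
          exact absurd h (by decide)
        · rw [if_neg hne, add_zero] at h
          exact ⟨hne, hW, h⟩
      · rintro ⟨hne, hW, h⟩
        refine ⟨hW, ?_⟩
        rw [hbx W hW, if_neg hne, add_zero, h]
    have h1 := ih (b + x) (by rw [hfilter, Finset.card_erase_of_mem hW₀, hn]; omega)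
    rw [map_add, iv_add hφ hV, hx1, Finset.sum_congr rfl hbx, Finset.sum_add_distrib,
      Finset.sum_ite_eq' hfin.toFinset W₀, if_pos hW₀1] at h1
    exact add_right_cancel h1

end

end Pool.Agent.Helper31.CB
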