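import Mathlib
import Pool.Agent.Helper31.FamNF
import Pool.Agent.Helper26.ChFinal

set_option autoImplicit false
set_option linter.unusedSectionVars false

/-!
# Binary forms of small degree and normal form at a given point
-/

universe u v

namespace Pool.Agent.Helper31.CB

open Polynomial Pool.Agent.Helper31.Fam

section

variable {k : Type u} [Field k]

/-- Binary linear forms. -/
lemma lin_form [Infinite k] {l : MvPolynomial (Fin 2) k} (hl : l.IsHomogeneous 1) :
    ∃ c₀ c₁ : k, l = MvPolynomial.C c₁ * MvPolynomial.X 0 + MvPolynomial.C c₀ * MvPolynomial.X 1 := by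
  set p : k[X] := MvPolynomial.aeval ![(X : k[X]), 1] l with hp
  have h1 : p.homogenize 1 = l := homogenize_eq_of_isHomogeneous hl hp.symm
  refine ⟨p.coeff 0, p.coeff 1, ?_⟩
  apply MvPolynomial.funext
  intro x
  have h2 := eval₂_homogenize_sum (RingHom.id k) p 1 x
  rw [MvPolynomial.eval₂_id, h1] at h2
  rw [h2]
  simp [Finset.sum_range_succ]
  ring

/-- Binary quadratic forms. -/
lemma quad_form [Infinite k] {q : MvPolynomial (Fin 2) k} (hq : q.IsHomogeneous 2) :
    ∃ a₀ a₁ a₂ : k, q = MvPolynomial.C a₂ * MvPolynomial.X 0 ^ 2 +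
      MvPolynomial.C a₁ * MvPolynomial.X 0 * MvPolynomial.X 1 +
      MvPolynomial.C a₀ * MvPolynomial.X 1 ^ 2 := by
  set p : k[X] := MvPolynomial.aeval ![(X : k[X]), 1] q with hp
  have h1 : p.homogenize 2 = q := homogenize_eq_of_isHomogeneous hq hp.symm
  refine ⟨p.coeff 0, p.coeff 1, p.coeff 2, ?_⟩
  apply MvPolynomial.funext
  intro x
  have h2 := eval₂_homogenize_sum (RingHom.id k) p 2 x
  rw [MvPolynomial.eval₂_id, h1] at h2
  rw [h2]
  simp [Finset.sum_range_succ]
  ring

/-- Normal form of a smooth binary form at a point where it does not vanish. -/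
theorem normal_form_one [Infinite k] {n : ℕ} (f : MvPolynomial (Fin 2) k)
    (hf : f.IsHomogeneous n)
    (hsm : ∀ x : Fin 2 → AlgebraicClosure k, MvPolynomial.aeval x f = 0 →
      (∀ i, MvPolynomial.aeval x (MvPolynomial.pderiv i f) = 0) → x = 0)
    (hv : MvPolynomial.eval ![1, 0] f ≠ 0) :
    ∃ P : k[X], P.Monic ∧ P.Separable ∧ P.natDegree = n ∧
      f = MvPolynomial.C (MvPolynomial.eval ![1, 0] f) * P.homogenize n := by
  set c : k := MvPolynomial.eval ![1, 0] f with hc
  set q : k[X] := MvPolynomial.aeval ![(X : k[X]), 1] f with hq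
  have hqd : q.natDegree ≤ n := natDegree_aeval_X_one_le hf
  have hqg : q.homogenize n = f := homogenize_eq_of_isHomogeneous hf hq.symm
  have hqn : q.coeff n = c := by
    have h2 := eval₂_homogenize_sum (RingHom.id k) q n ![1, 0]
    rw [MvPolynomial.eval₂_id, hqg, ← hc, Finset.sum_range_succ, Finset.sum_eq_zero] at h2
    · simpa using h2.symm
    · intro j hj
      have : n - j ≠ 0 := by
        have := Finset.mem_range.1 hj
        omega
      simp [this]
  have hcoef : (C c⁻¹ * q).coeff n = 1 := by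
    rw [coeff_C_mul, hqn, inv_mul_cancel₀ hv]
  have hPd : (C c⁻¹ * q).natDegree = n := by
    refine le_antisymm ((natDegree_C_mul_le _ _).trans hqd) ?_
    refine le_natDegree_of_ne_zero ?_
    rw [hcoef]
    exact one_ne_zero
  refine ⟨C c⁻¹ * q, ?_, ?_, hPd, ?_⟩
  · rw [Monic, leadingCoeff, hPd, hcoef]
  · refine (Polynomial.isCoprime_iff_aeval_ne_zero_of_isAlgClosed (k := k)
      (AlgebraicClosure k) _ _).2 ?_
    intro r
    by_contra hr
    push Not at hr
    obtain ⟨hr1, hr2⟩ := hr
    have hc' : (C c⁻¹ : k[X]) ≠ 0 := by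
      rw [Ne, C_eq_zero]
      exact inv_ne_zero hv
    have hc'' : algebraMap k (AlgebraicClosure k) c⁻¹ ≠ 0 := by
      rw [Ne, map_eq_zero]
      exact inv_ne_zero hv
    rw [derivative_C_mul] at hr2
    rw [map_mul, aeval_C] at hr1 hr2
    have hq1 : aeval r q = 0 := (mul_eq_zero.1 hr1).resolve_left hc''
    have hq2 : aeval r (derivative q) = 0 := (mul_eq_zero.1 hr2).resolve_left hc''
    have hcomp : ∀ p : MvPolynomial (Fin 2) k,
        aeval r (MvPolynomial.aeval ![(X : k[X]), 1] p) =
          MvPolynomial.aeval ![r, (1 : AlgebraicClosure k)] p := by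
      intro p
      have h := MvPolynomial.comp_aeval_apply (aeval (R := k) r) (f := ![(X : k[X]), 1]) p
      rw [h]
      congr 2
      funext i
      fin_cases i <;> simp
    rw [hq, hcomp] at hq1
    rw [hq, derivative_aeval_X_one, hcomp] at hq2
    have heul := congrArg (MvPolynomial.aeval ![r, (1 : AlgebraicClosure k)])
      hf.sum_X_mul_pderiv
    rw [Fin.sum_univ_two, map_add, map_mul, map_mul, map_nsmul, hq1, hq2] at heul
    have hq3 : MvPolynomial.aeval ![r, (1 : AlgebraicClosure k)] (MvPolynomial.pderiv 1 f) = 0 := by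
      simpa using heul
    have hx := hsm ![r, (1 : AlgebraicClosure k)] hq1 (fun i => by
      fin_cases i
      · exact hq2
      · exact hq3)
    exact one_ne_zero (congrFun hx 1)
  · rw [homogenize_C_mul, hqg, ← mul_assoc, ← MvPolynomial.C_mul, mul_inv_cancel₀ hv,
      MvPolynomial.C_1, one_mul]

end

end Pool.Agent.Helper31.CB
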