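import Mathlib
import Pool.Agent.Helper26.ChComp
import Pool.Agent.Helper26.ChMove
import Pool.Agent.Helper31.CB.Defs
import Pool.Agent.Helper31.CB.Forms2

set_option autoImplicit false
set_option linter.unusedSectionVars false

/-!
# Elementary facts about conic bundles
-/

universe u v

namespace Pool.Agent.Helper31.CB

open Polynomial Pool.Agent.Helper31.Fam Pool.Agent.Helper26

section

variable {k : Type u} [Field k] [CharP k 2] {L : Type*} [Field L]

lemma eval₂_discr' (f : k →+* L) (l : Fin 2 → MvPolynomial (Fin 2) k)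
    (q : Fin 3 → MvPolynomial (Fin 2) k) (u : Fin 2 → L) :
    MvPolynomial.eval₂ f u (discr l q) = MvPolynomial.eval₂ f u (q 1) ^ 2 +
      MvPolynomial.eval₂ f u (l 0) * MvPolynomial.eval₂ f u (l 1) * MvPolynomial.eval₂ f u (q 1) +
      MvPolynomial.eval₂ f u (q 0) * MvPolynomial.eval₂ f u (l 1) ^ 2 +
      MvPolynomial.eval₂ f u (q 2) * MvPolynomial.eval₂ f u (l 0) ^ 2 := by
  rw [discr]
  simp only [MvPolynomial.eval₂_add, MvPolynomial.eval₂_mul, MvPolynomial.eval₂_pow]

lemma bundle_point (f : k →+* L) (l : Fin 2 → MvPolynomial (Fin 2) k)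
    (q : Fin 3 → MvPolynomial (Fin 2) k) (u : Fin 2 → L) (a b : L) :
    bundleForm f l q u ![a + MvPolynomial.eval₂ f u (q 1), b + MvPolynomial.eval₂ f u (l 1),
      MvPolynomial.eval₂ f u (l 0)] = a ^ 2 + a * (MvPolynomial.eval₂ f u (l 0) * b) +
      MvPolynomial.eval₂ f u (q 0) * b ^ 2 + MvPolynomial.eval₂ f u (discr l q) := by
  have hchar : CharP L 2 := charP_of_injective_ringHom f.injective 2
  have h2 : (2 : L) = 0 := CharTwo.two_eq_zero
  rw [eval₂_discr', bundleForm]
  simp only [Matrix.cons_val_zero, Matrix.cons_val_one, Matrix.cons_val]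
  set l0 := MvPolynomial.eval₂ f u (l 0)
  set l1 := MvPolynomial.eval₂ f u (l 1)
  set q0 := MvPolynomial.eval₂ f u (q 0)
  set q1 := MvPolynomial.eval₂ f u (q 1)
  set q2 := MvPolynomial.eval₂ f u (q 2)
  linear_combination (a * q1 + a * l0 * l1 + q1 * l0 * l1 + q1 * b * l0 + q0 * b * l1) * h2

lemma discr_isHomogeneous {l : Fin 2 → MvPolynomial (Fin 2) k}
    {q : Fin 3 → MvPolynomial (Fin 2) k} (hl : ∀ i, (l i).IsHomogeneous 1)
    (hq : ∀ i, (q i).IsHomogeneous 2) : (discr l q).IsHomogeneous 4 := by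
  rw [discr]
  refine ((MvPolynomial.IsHomogeneous.add ?_ ?_).add ?_).add ?_
  · exact (hq 1).pow 2
  · exact ((hl 0).mul (hl 1)).mul (hq 1)
  · exact (hq 0).mul ((hl 1).pow 2)
  · exact (hq 2).mul ((hl 0).pow 2)

/-- A rational zero of the discriminant gives a rational point. -/
lemma point_of_zero {l : Fin 2 → MvPolynomial (Fin 2) k} {q : Fin 3 → MvPolynomial (Fin 2) k}
    (hsm : IsSmoothForm (discr l q)) {u : Fin 2 → k} (hu : u ≠ 0)
    (h0 : MvPolynomial.eval u (discr l q) = 0) :
    ∃ y : Fin 3 → k, y ≠ 0 ∧ bundleForm (RingHom.id k) l q u y = 0 := by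
  have h2 : (2 : k) = 0 := CharTwo.two_eq_zero
  refine ⟨![MvPolynomial.eval u (q 1), MvPolynomial.eval u (l 1), MvPolynomial.eval u (l 0)],
    ?_, ?_⟩
  · intro hy
    have e1 : MvPolynomial.eval u (q 1) = 0 := congrFun hy 0
    have e2 : MvPolynomial.eval u (l 1) = 0 := congrFun hy 1
    have e3 : MvPolynomial.eval u (l 0) = 0 := congrFun hy 2
    obtain ⟨i, hi⟩ := hsm (fun j => algebraMap k (AlgebraicClosure k) (u j)) (by
      intro h
      apply hu
      ext j
      exact (map_eq_zero _).1 (congrFun h j)) (by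
      have h3 := MvPolynomial.aeval_algebraMap_apply (AlgebraicClosure k) u (discr l q)
      have h4 : MvPolynomial.aeval u (discr l q) = 0 := h0
      have h5 : (fun j => algebraMap k (AlgebraicClosure k) (u j)) =
        (algebraMap k (AlgebraicClosure k)) ∘ u := rfl
      rw [h5, h3, h4, map_zero])
    apply hi
    have h3 := MvPolynomial.aeval_algebraMap_apply (AlgebraicClosure k) u
      (MvPolynomial.pderiv i (discr l q))
    have h5 : (fun j => algebraMap k (AlgebraicClosure k) (u j)) =
      (algebraMap k (AlgebraicClosure k)) ∘ u := rfl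
    rw [h5, h3]
    have h4 : MvPolynomial.aeval u (MvPolynomial.pderiv i (discr l q)) =
      MvPolynomial.eval u (MvPolynomial.pderiv i (discr l q)) := rfl
    rw [h4, discr]
    simp only [map_add, Derivation.leibniz, Derivation.leibniz_pow, smul_eq_mul, map_mul,
      map_pow, e1, e2, e3, nsmul_eq_mul]
    simp
  · have h := bundle_point (RingHom.id k) l q u 0 0
    simp only [MvPolynomial.eval₂_id, zero_add] at h
    rw [h, h0]
    simp

end

section

variable {k : Type u} [Field k] [CharP k 2]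
  {L : Type*} [Field L] {Γ₀ : Type*} [LinearOrderedCommGroupWithZero Γ₀] [Valued L Γ₀]
  {V : ValuationSubring k} {f : k →+* L}

/-- Open sets contain points over `k` with nonzero second coordinate. -/
lemma exists_near (hf : CompEmb V f) (hr : IsRankOne V) (hV : V ≠ ⊤) {O : Set (Fin 2 → L)}
    (hO : IsOpen O) {u : Fin 2 → L} (hu : u ∈ O) :
    ∃ w : Fin 2 → k, (fun j => f (w j)) ∈ O ∧ w 1 ≠ 0 := by
  have hopen : IsOpen {x : Fin 2 → L | x 1 ≠ 0} :=
    isOpen_ne.preimage (continuous_apply 1)
  obtain ⟨x, hxO, hx1⟩ : ∃ x ∈ O, x 1 ≠ 0 := by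
    by_cases h1 : u 1 = 0
    · set g : L → (Fin 2 → L) := fun s => ![u 0, s] with hg
      have hgc : Continuous g := by
        rw [hg]
        refine continuous_pi fun i => ?_
        fin_cases i
        · exact continuous_const
        · exact continuous_id
      have hg0 : g 0 = u := by
        rw [hg]
        ext i
        fin_cases i
        · rfl
        · exact h1.symm
      obtain ⟨s, hs, hs0⟩ := hf.exists_mem_ne hr hV (hO.preimage hgc) (by
        change g 0 ∈ O
        rw [hg0]; exact hu)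
      exact ⟨g s, hs, hs0⟩
    · exact ⟨u, hu, h1⟩
  obtain ⟨w, hw⟩ := (DenseRange.piMap fun _ : Fin 2 => hf.dense).exists_mem_open
    (hO.inter hopen) ⟨x, hxO, hx1⟩
  refine ⟨w, hw.1, fun h0 => hw.2 ?_⟩
  change f (w 1) = 0
  rw [h0, map_zero]

end

end Pool.Agent.Helper31.CB
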