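import Mathlib
import Pool.Agent.Helper31.CB.ClassF
import Pool.Agent.Helper31.CB.Core2
import Pool.Agent.Helper31.CB.IvTrace
import Pool.Agent.Helper31.CB.Norm1

set_option autoImplicit false
set_option linter.unusedSectionVars false

/-!
# Conic bundles in normal form: preparations
-/

universe u v

namespace Pool.Agent.Helper31.CB

open Polynomial Finset Pool.Agent.Helper31.Fam
open Pool.Agent.Helper26 hiding chQ chG chG_map qf_chG pm_chG pm_chG_mulVec ch_jac ch_hp

section

variable {k : Type u} [Field k] [CharP k 2] {P : k[X]}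

lemma eval_discr_prod (hP : P.Monic) (hP4 : P.natDegree = 4) (hsep : P.Separable) {m : k}
    {D : MvPolynomial (Fin 2) k} (hF : D = MvPolynomial.C m * P.homogenize 4) (A B : k) :
    MvPolynomial.eval ![A, B] D = m * ∏ i : Ix P, Algebra.norm k (lin (rt i) A B) := by
  have h1 : gT (P := P) Finset.univ = P.homogenize 4 := by
    rw [gT, sum_natDegree hP hsep, prod_facs hP hsep, hP4]
  rw [hF, map_mul, MvPolynomial.eval_C, ← h1, eval_gT]
  rfl

lemma eval_discr_ne (hP4 : P.natDegree = 4) {m : k}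
    {D : MvPolynomial (Fin 2) k} (hF : D = MvPolynomial.C m * P.homogenize 4) (A : k) {B : k}
    (hB : B ≠ 0) : MvPolynomial.eval ![A, B] D = m * P.eval (A / B) * B ^ 4 := by
  have h2 := eval_homogenize_ne (RingHom.id k) hP4.le A hB
  rw [MvPolynomial.eval₂_id, Polynomial.map_id] at h2
  rw [hF, map_mul, MvPolynomial.eval_C, h2]
  ring

/-- The class does not change when the coordinates are multiplied by a scalar. -/
lemma cls_smul {τ : k} (hτ : IsTwoBasis τ) (hsep : P.Separable) {a : k[X]}
    (ha : ∑ i : Ix P, Algebra.trace k (FK i) (aeval (rt i) a) = 0) {ρ A B : k} (hρ : ρ ≠ 0)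
    (hAB : ∀ i : Ix P, lin (rt i) A B ≠ 0) :
    cls (tb hτ hsep) (fun i => aeval (rt i) a) (fun i : Ix P => rt i) Finset.univ
      (ρ * A) (ρ * B) =
    cls (tb hτ hsep) (fun i => aeval (rt i) a) (fun i : Ix P => rt i) Finset.univ A B := by
  have h1 : ∀ i : Ix P, Algebra.trace k (FK i) ((tb hτ hsep i).sym (aeval (rt i) a)
      (lin (rt i) (ρ * A) (ρ * B))) = hτ.sym (Algebra.trace k (FK i) (aeval (rt i) a)) ρ +
      Algebra.trace k (FK i) ((tb hτ hsep i).sym (aeval (rt i) a) (lin (rt i) A B)) := by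
    intro i
    have := isSeparable_FK hsep i
    rw [lin_smul, IsTwoBasis.sym_mul _ _ (by rwa [Ne, map_eq_zero]) (hAB i), map_add,
      trace_sym_const hτ]
  have h2 : ∑ i : Ix P, hτ.sym (Algebra.trace k (FK i) (aeval (rt i) a)) ρ = 0 := by
    have h3 : ∑ i : Ix P, hτ.sym (Algebra.trace k (FK i) (aeval (rt i) a)) ρ =
        hτ.sym (∑ i : Ix P, Algebra.trace k (FK i) (aeval (rt i) a)) ρ := by
      simp only [IsTwoBasis.sym]
      rw [Finset.sum_mul, hτ.cart_sum]
    rw [h3, ha, IsTwoBasis.sym, zero_mul, hτ.cart_zero]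
  rw [cls, cls, Finset.sum_congr rfl fun i _ => h1 i, Finset.sum_add_distrib, h2, zero_add]

lemma cls_infty {τ : k} (hτ : IsTwoBasis τ) (hsep : P.Separable) {a : k[X]}
    (ha : ∑ i : Ix P, Algebra.trace k (FK i) (aeval (rt i) a) = 0) {A : k} (hA : A ≠ 0) :
    cls (tb hτ hsep) (fun i => aeval (rt i) a) (fun i : Ix P => rt i) Finset.univ A 0 = 0 := by
  have h1 := cls_smul hτ hsep ha (ρ := A) (A := 1) (B := 0) hA (fun i => by
    rw [lin_one]; exact one_ne_zero)
  rw [mul_one, mul_zero] at h1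
  rw [h1, cls]
  refine Finset.sum_eq_zero fun i _ => ?_
  rw [lin_one, IsTwoBasis.sym_one, map_zero]

end

section

variable {F : Type v} {k K : Type u} [Field F] [Finite F] [CharP F 2] [Field k] [CharP k 2]
  [Field K] [CharP K 2] [Algebra k K] [FiniteDimensional k K] [Algebra.IsSeparable k K]

/-- The local invariant of a corestriction as a parity. -/
lemma iv_eq_parity {φ : RatFunc F →+* k} (hφ : GoodEmb φ) {V : ValuationSubring k}
    (hV : V ≠ ⊤) {t : k} (ht : IsTwoBasis t) (htK : IsTwoBasis (algebraMap k K t)) (α : K)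
    {e : K} (he : e ≠ 0) :
    iv ht V (Algebra.trace k K (htK.sym α e)) =
      (({W : ValuationSubring K | W ∈ above K V ∧ ¬ NW W α e}.ncard : ℕ) : ZMod 2) := by
  classical
  have hφK := hφ.ext (K := K)
  have hfin := hφ.above_finite (K := K) hV
  rw [iv_trace hφ hV ht htK]
  have h1 : {W : ValuationSubring K | W ∈ above K V ∧ ¬ NW W α e} =
      ((hfin.toFinset.filter fun W => ¬ NW W α e : Finset (ValuationSubring K)) :
        Set (ValuationSubring K)) := by
    ext W
    simp only [Set.mem_ofPred_eq, Finset.coe_filter, Set.Finite.mem_toFinset]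
  rw [h1, Set.ncard_coe_finset, Finset.card_filter, Nat.cast_sum]
  refine Finset.sum_congr rfl fun W hW => ?_
  have hWa := hfin.mem_toFinset.1 hW
  have h2 := hφK.NW_iff (above_ne_top hV hWa) htK α he
  unfold iv
  by_cases h3 : NW W α e
  · rw [if_pos (h2.1 h3), if_neg (by simpa using h3), Nat.cast_zero]
  · rw [if_neg (fun h4 => h3 (h2.2 h4)), if_pos h3, Nat.cast_one]

end

end Pool.Agent.Helper31.CB
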