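import Mathlib
import Pool.Agent.Helper31.CB.Norm2
import Pool.Agent.Helper26.CBLoc

set_option autoImplicit false
set_option linter.unusedSectionVars false

/-!
# Conic bundles in normal form
-/

universe u v

namespace Pool.Agent.Helper31.CB

open Polynomial Finset Pool.Agent.Helper31.Fam
open Pool.Agent.Helper26 hiding chQ chG chG_map qf_chG pm_chG pm_chG_mulVec ch_jac ch_hp

lemma eval₂_smul_homog {k L : Type*} [Field k] [Field L] (f : k →+* L)
    {D : MvPolynomial (Fin 2) k} {n : ℕ} (hD : D.IsHomogeneous n) (c : L) (x : Fin 2 → L) :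
    MvPolynomial.eval₂ f (fun j => c * x j) D = c ^ n * MvPolynomial.eval₂ f x D := by
  rw [MvPolynomial.eval₂_eq', MvPolynomial.eval₂_eq', Finset.mul_sum]
  refine Finset.sum_congr rfl fun d hd => ?_
  have h1 : d 0 + d 1 = n := by
    have h := hD (MvPolynomial.mem_support_iff.1 hd)
    rw [← h]
    simp [Finsupp.weight_apply, Finsupp.sum_fintype, Fin.sum_univ_two]
  rw [Fin.prod_univ_two, Fin.prod_univ_two, ← h1]
  ring

section

variable {F : Type v} {k K : Type u} [Field F] [Finite F] [CharP F 2] [Field k] [CharP k 2]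
  [Field K] [CharP K 2] [Algebra k K] [FiniteDimensional k K] [Algebra.IsSeparable k K]

/-- A linear factor of the discriminant does not vanish where the discriminant does not. -/
lemma lin_ne_zero_comp {V : ValuationSubring k} {W : ValuationSubring K} (hW : W ∈ above K V)
    {D : MvPolynomial (Fin 2) k} {n : ℕ} (hD : D.IsHomogeneous n)
    (u : Fin 2 → V.valuation.Completion) (hu : MvPolynomial.eval₂ (toCompletion V) u D ≠ 0)
    (t : Fin 2 → K) (ht : t ≠ 0) (h0 : MvPolynomial.eval₂ (algebraMap k K) t D = 0) :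
    toCompletion W (t 1) * compMap V W (u 0) + toCompletion W (t 0) * compMap V W (u 1) ≠ 0 := by
  obtain ⟨g, hg, -, hgk⟩ := compMap_spec hW
  have hchar : CharP W.valuation.Completion 2 :=
    charP_of_injective_ringHom (toCompletion W).injective 2
  rw [← hg, ← hg]
  intro h
  have h1 : toCompletion W (t 1) * g (u 0) = toCompletion W (t 0) * g (u 1) :=
    CharTwo.add_eq_zero.1 h
  obtain ⟨c, hc⟩ : ∃ c : W.valuation.Completion, ∀ j, g (u j) = c * toCompletion W (t j) := by
    by_cases ht1 : t 1 = 0
    · have ht0 : t 0 ≠ 0 := by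
        intro ht0
        apply ht
        ext j
        fin_cases j
        · exact ht0
        · exact ht1
      have ht0' : toCompletion W (t 0) ≠ 0 := by rwa [Ne, map_eq_zero]
      rw [ht1, map_zero, zero_mul] at h1
      have h3 : g (u 1) = 0 := (mul_eq_zero.1 h1.symm).resolve_left ht0'
      refine ⟨g (u 0) / toCompletion W (t 0), fun j => ?_⟩
      fin_cases j
      · simp only [Fin.zero_eta, Fin.isValue]
        field_simp
      · simp only [Fin.mk_one, Fin.isValue]
        rw [h3, ht1, map_zero, mul_zero]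
    · have ht1' : toCompletion W (t 1) ≠ 0 := by rwa [Ne, map_eq_zero]
      refine ⟨g (u 1) / toCompletion W (t 1), fun j => ?_⟩
      fin_cases j
      · simp only [Fin.zero_eta, Fin.isValue]
        field_simp
        linear_combination h1
      · simp only [Fin.mk_one, Fin.isValue]
        field_simp
  have h2 : MvPolynomial.eval₂ (g.comp (toCompletion V)) (fun j => g (u j)) D =
      g (MvPolynomial.eval₂ (toCompletion V) u D) :=
    (MvPolynomial.eval₂_comp_left g (toCompletion V) u D).symm
  have h3 : g.comp (toCompletion V) = (toCompletion W).comp (algebraMap k K) := by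
    ext a
    exact hgk a
  have h4 : MvPolynomial.eval₂ ((toCompletion W).comp (algebraMap k K))
      (fun j => toCompletion W (t j)) D = 0 := by
    have := (MvPolynomial.eval₂_comp_left (toCompletion W) (algebraMap k K) t D).symm
    rw [h0, map_zero] at this
    exact this
  have h5 : (fun j => g (u j)) = fun j => c * toCompletion W (t j) := funext hc
  rw [h5, h3, eval₂_smul_homog _ hD, h4, mul_zero] at h2
  exact hu ((map_eq_zero g).1 h2.symm)

end

section

variable {k : Type u} [Field k]

/-- The condition at the separable quadratic extensions of `k`. -/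
def BMC (l : Fin 2 → MvPolynomial (Fin 2) k) (q : Fin 3 → MvPolynomial (Fin 2) k)
    (u : ∀ V : ValuationSubring k, Fin 2 → V.valuation.Completion) : Prop :=
  ∀ (K : Type u) [Field K] [Algebra k K] [Algebra.IsSeparable k K], Module.finrank k K = 2 →
    ∀ t : Fin 2 → K, LinearIndependent k t →
      MvPolynomial.eval₂ (algebraMap k K) t (discr l q) = 0 →
    ∀ (z : Fin 3 → K) (ε : K), linPart (algebraMap k K) l t z ≠ 0 →
      bundleForm (algebraMap k K) l q t z = ε * linPart (algebraMap k K) l t z ^ 2 →
      (∃ x : k, x ^ 2 + x = Algebra.trace k K ε) →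
      {V : ValuationSubring k | V ≠ ⊤ ∧ Odd {W : ValuationSubring K |
        W.comap (algebraMap k K) = V ∧ ¬ IsNormValue (toCompletion W ε)
          (toCompletion W (t 1) * compMap V W (u V 0) +
            toCompletion W (t 0) * compMap V W (u V 1))}.ncard}.Finite ∧
      Even {V : ValuationSubring k | V ≠ ⊤ ∧ Odd {W : ValuationSubring K |
        W.comap (algebraMap k K) = V ∧ ¬ IsNormValue (toCompletion W ε)
          (toCompletion W (t 1) * compMap V W (u V 0) +
            toCompletion W (t 0) * compMap V W (u V 1))}.ncard}.ncard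

end

section

variable {F : Type v} {k : Type u} [Field F] [Finite F] [CharP F 2] [Field k] [CharP k 2]
  {P : k[X]}

/-- The local approximations. -/
lemma local_data {φ : RatFunc F →+* k} (hφ : GoodEmb φ) [Infinite k]
    {l : Fin 2 → MvPolynomial (Fin 2) k} {q : Fin 3 → MvPolynomial (Fin 2) k}
    (hl0 : l 0 = MvPolynomial.X 1) (hP : P.Monic) (hP4 : P.natDegree = 4) (hsep : P.Separable)
    {m : k} (hF : discr l q = MvPolynomial.C m * P.homogenize 4)
    (a : k[X]) {V : ValuationSubring k} (hV : V ≠ ⊤) (u : Fin 2 → V.valuation.Completion)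
    (y : Fin 3 → V.valuation.Completion)
    (hu : MvPolynomial.eval₂ (toCompletion V) u (discr l q) ≠ 0) (hy : y ≠ 0)
    (h : bundleForm (toCompletion V) l q u y = 0) :
    ∃ w : Fin 2 → k, w 1 ≠ 0 ∧ MvPolynomial.eval w (discr l q) ≠ 0 ∧
      NW V (MvPolynomial.eval w (q 0) / w 1 ^ 2) (MvPolynomial.eval w (discr l q)) ∧
      ∀ i : Ix P, ∀ W ∈ above (FK i) V, (NW W (aeval (rt i) a) (lin (rt i) (w 0) (w 1)) ↔
        IsNormValue (toCompletion W (aeval (rt i) a))
          (toCompletion W 1 * compMap V W (u 0) + toCompletion W (rt i) * compMap V W (u 1))) := by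
  classical
  have hsK : ∀ i : Ix P, Algebra.IsSeparable k (FK i) := fun i => isSeparable_FK hsep i
  have hfin : ∀ i : Ix P, (above (FK i) V).Finite := fun i => hφ.above_finite (K := FK i) hV
  have hD : (discr l q).IsHomogeneous 4 := by
    rw [hF]
    have := (MvPolynomial.isHomogeneous_C (Fin 2) m).mul (isHomogeneous_homogenize (n := 4) P)
    rwa [zero_add] at this
  obtain ⟨O, hO, huO, hOk⟩ := CompEmb.conic_approx hφ (compEmb V) hV l q u y hy h hu
  have hW : ∀ i : Ix P, ∀ W : {W // W ∈ above (FK i) V},
      ∃ O : Set (Fin 2 → V.valuation.Completion), IsOpen O ∧ u ∈ O ∧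
      ∀ u' : Fin 2 → k, (fun j => toCompletion V (u' j)) ∈ O →
        (1 : FK i) * algebraMap k (FK i) (u' 0) + rt i * algebraMap k (FK i) (u' 1) ≠ 0 ∧
        (NW W.1 (aeval (rt i) a)
          ((1 : FK i) * algebraMap k (FK i) (u' 0) + rt i * algebraMap k (FK i) (u' 1)) ↔
          IsNormValue (toCompletion W.1 (aeval (rt i) a))
            (toCompletion W.1 (1 : FK i) * compMap V W.1 (u 0) +
            toCompletion W.1 (rt i) * compMap V W.1 (u 1))) := by
    intro i W
    refine approx_above hφ hV W.2 ![rt i, 1] (aeval (rt i) a) u ?_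
    have hne : (![rt i, 1] : Fin 2 → FK i) ≠ 0 := by
      intro h0
      exact one_ne_zero (congrFun h0 1)
    refine lin_ne_zero_comp W.2 hD u hu ![rt i, 1] hne ?_
    have h3 := eval_homogenize_ne (algebraMap k (FK i)) hP4.le (rt i) (B := 1) one_ne_zero
    rw [hF, MvPolynomial.eval₂_mul, h3, div_one, one_pow, mul_one]
    have h4 : (P.map (algebraMap k (FK i))).eval (rt i) = 0 := by
      rw [eval_map_algebraMap]
      exact aeval_rt i
    rw [h4, mul_zero]
  choose O' hO' huO' hOk' using hW
  have hfinS : ∀ i : Ix P, Finite {W // W ∈ above (FK i) V} := fun i => (hfin i).to_subtype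
  obtain ⟨w, hw, hw1⟩ := exists_near (compEmb V) (hφ.rankOne hV) hV
    (O := O ∩ ⋂ i, ⋂ W, O' i W)
    (hO.inter (isOpen_iInter_of_finite fun i => isOpen_iInter_of_finite fun W => hO' i W))
    (u := u) ⟨huO, Set.mem_iInter.2 fun i => Set.mem_iInter.2 fun W => huO' i W⟩
  have h5 := hOk w hw.1
  have hl : MvPolynomial.eval w (l 0) = w 1 := by rw [hl0, MvPolynomial.eval_X]
  rw [hl] at h5
  refine ⟨w, hw1, h5.1, h5.2 hw1, fun i W hW => ?_⟩
  have h6 := (hOk' i ⟨W, hW⟩ w (Set.mem_iInter.1 (Set.mem_iInter.1 hw.2 i) ⟨W, hW⟩)).2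
  have h7 : (1 : FK i) * algebraMap k (FK i) (w 0) + rt i * algebraMap k (FK i) (w 1) =
      lin (rt i) (w 0) (w 1) := by
    rw [lin]; ring
  rw [h7] at h6
  exact h6

end

end Pool.Agent.Helper31.CB
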