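import Mathlib
import Pool.Agent.Helper31.CB.Norm3

set_option autoImplicit false
set_option linter.unusedSectionVars false

/-!
# Conic bundles in normal form: the theorem
-/

universe u v

namespace Pool.Agent.Helper31.CB

open Polynomial Finset Pool.Agent.Helper31.Fam
open Pool.Agent.Helper26 hiding chQ chG chG_map qf_chG pm_chG pm_chG_mulVec ch_jac ch_hp

section

variable {F : Type v} {k : Type u} [Field F] [Finite F] [CharP F 2] [Field k] [CharP k 2]
  {P : k[X]}

lemma odd_iff_zmod (n : ℕ) : Odd n ↔ ((n : ℕ) : ZMod 2) = 1 := by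
  rw [← Nat.not_even_iff_odd, ← ZMod.natCast_eq_zero_iff_even]
  generalize ((n : ℕ) : ZMod 2) = x
  revert x
  decide

/-- The theorem for a conic bundle in normal form with a class formula. -/
theorem normalized_core {φ : RatFunc F →+* k} (hφ : GoodEmb φ) [Infinite k]
    {l : Fin 2 → MvPolynomial (Fin 2) k} {q : Fin 3 → MvPolynomial (Fin 2) k}
    (hl0 : l 0 = MvPolynomial.X 1) (hq0 : (q 0).IsHomogeneous 2)
    (hsm : IsSmoothForm (discr l q)) (hP : P.Monic) (hP4 : P.natDegree = 4) (hsep : P.Separable)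
    {m : k} (hm : m ≠ 0) (hF : discr l q = MvPolynomial.C m * P.homogenize 4)
    {τ : k} (hτ : IsTwoBasis τ) (a : k[X]) (κ : k)
    (ha : ∑ i : Ix P, Algebra.trace k (FK i) (aeval (rt i) a) = 0)
    (hx : ∀ i : Ix P, ∃ x : FK i, aeval (rt i) a =
      MvPolynomial.eval₂ (algebraMap k (FK i)) ![rt i, 1] (q 0) + x ^ 2 + x)
    (hcl : ∀ T : k, P.eval T ≠ 0 → ∃ Q : k,
      hτ.sym (MvPolynomial.eval ![T, 1] (q 0)) (m * P.eval T) +
        (cls (tb hτ hsep) (fun i => aeval (rt i) a) (fun i : Ix P => rt i) Finset.univ T 1 + κ) =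
        Q + hτ.cart Q)
    (hinf : (∃ Q : k, κ = Q + hτ.cart Q) →
      ∃ y : Fin 3 → k, y ≠ 0 ∧ bundleForm (RingHom.id k) l q ![1, 0] y = 0)
    (u : ∀ V : ValuationSubring k, Fin 2 → V.valuation.Completion)
    (y : ∀ V : ValuationSubring k, Fin 3 → V.valuation.Completion)
    (hloc : ∀ V : ValuationSubring k, V ≠ ⊤ →
      MvPolynomial.eval₂ (toCompletion V) (u V) (discr l q) ≠ 0 ∧ y V ≠ 0 ∧
      bundleForm (toCompletion V) l q (u V) (y V) = 0)
    (hBM : BMC l q u) :
    ∃ (u : Fin 2 → k) (y : Fin 3 → k), u ≠ 0 ∧ y ≠ 0 ∧ bundleForm (RingHom.id k) l q u y = 0 := by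
  classical
  have hsK : ∀ i : Ix P, Algebra.IsSeparable k (FK i) := fun i => isSeparable_FK hsep i
  have h2 : ∀ x : k, x + x = 0 := fun x => CharTwo.add_self_eq_zero x
  have hsum : ∑ i : Ix P, Module.finrank k (FK i) = 4 := by rw [sum_finrank hP hsep, hP4]
  -- a point of the base line where a linear factor vanishes
  have hzero : ∀ (i : Ix P) (A B : k), (A ≠ 0 ∨ B ≠ 0) → lin (rt i) A B = 0 →
      ∃ (u : Fin 2 → k) (y : Fin 3 → k), u ≠ 0 ∧ y ≠ 0 ∧
        bundleForm (RingHom.id k) l q u y = 0 := by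
    intro i A B hAB h0
    have h1 : MvPolynomial.eval ![A, B] (discr l q) = 0 := by
      rw [eval_discr_prod hP hP4 hsep hF, Finset.prod_eq_zero (Finset.mem_univ i), mul_zero]
      rw [h0, Algebra.norm_zero]
    have hu : (![A, B] : Fin 2 → k) ≠ 0 := by
      intro h3
      rcases hAB with h4 | h4
      · exact h4 (congrFun h3 0)
      · exact h4 (congrFun h3 1)
    obtain ⟨y, hy, hb⟩ := point_of_zero hsm hu h1
    exact ⟨_, y, hu, hy, hb⟩
  by_cases hdeg : ∃ i : Ix P, Module.finrank k (FK i) = 1
  · obtain ⟨i, hi⟩ := hdeg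
    obtain ⟨θ₀, hθ₀⟩ : ∃ θ₀ : k, algebraMap k (FK i) θ₀ = rt i := by
      have h3 : (⊥ : Subalgebra k (FK i)) = ⊤ := Subalgebra.bot_eq_top_of_finrank_eq_one hi
      have h4 : rt i ∈ (⊥ : Subalgebra k (FK i)) := by rw [h3]; trivial
      exact Algebra.mem_bot.1 h4
    exact hzero i θ₀ 1 (Or.inr one_ne_zero) (lin_zero_of (θ := fun i => rt i) hθ₀.symm)
  push Not at hdeg
  have hpos : ∀ i : Ix P, 2 ≤ Module.finrank k (FK i) := fun i => by
    have h3 : 0 < Module.finrank k (FK i) := Module.finrank_pos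
    have h4 := hdeg i
    omega
  -- local approximations
  have hap : ∀ V : ValuationSubring k, V ≠ ⊤ → ∃ w : Fin 2 → k, w 1 ≠ 0 ∧
      MvPolynomial.eval w (discr l q) ≠ 0 ∧
      NW V (MvPolynomial.eval w (q 0) / w 1 ^ 2) (MvPolynomial.eval w (discr l q)) ∧
      ∀ i : Ix P, ∀ W ∈ above (FK i) V, (NW W (aeval (rt i) a) (lin (rt i) (w 0) (w 1)) ↔
        IsNormValue (toCompletion W (aeval (rt i) a))
          (toCompletion W 1 * compMap V W (u V 0) +
            toCompletion W (rt i) * compMap V W (u V 1))) := fun V hV =>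
    local_data hφ hl0 hP hP4 hsep hF a hV (u V) (y V) (hloc V hV).1 (hloc V hV).2.1
      (hloc V hV).2.2
  choose! w hw1 hwF hwN hwi using hap
  have hlin : ∀ V : ValuationSubring k, V ≠ ⊤ → ∀ i : Ix P, lin (rt i) (w V 0) (w V 1) ≠ 0 := by
    intro V hV i h0
    apply hwF V hV
    have h3 : w V = ![w V 0, w V 1] := by
      ext j
      fin_cases j <;> rfl
    rw [h3, eval_discr_prod hP hP4 hsep hF, Finset.prod_eq_zero (Finset.mem_univ i), mul_zero]
    rw [h0, Algebra.norm_zero]
  -- the class formula at the approximations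
  have hscale : ∀ (A B : k), B ≠ 0 → (∀ i : Ix P, lin (rt i) A B ≠ 0) →
      P.eval (A / B) ≠ 0 ∧
      cls (tb hτ hsep) (fun i => aeval (rt i) a) (fun i : Ix P => rt i) Finset.univ A B =
        cls (tb hτ hsep) (fun i => aeval (rt i) a) (fun i : Ix P => rt i) Finset.univ (A / B) 1 := by
    intro A B hB hne
    have e1 : B * (A / B) = A := by field_simp
    have hne' : ∀ i : Ix P, lin (rt i) (A / B) (1 : k) ≠ 0 := by
      intro i h0
      apply hne i
      have h3 := lin_smul (rt i) B (A / B) 1
      rw [e1, mul_one, h0, mul_zero] at h3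
      exact h3
    refine ⟨?_, ?_⟩
    · intro h0
      have h3 := eval_discr_ne hP4 hF A hB
      rw [h0, mul_zero, zero_mul, eval_discr_prod hP hP4 hsep hF] at h3
      rcases mul_eq_zero.1 h3 with h4 | h4
      · exact hm h4
      · obtain ⟨i, -, hi⟩ := Finset.prod_eq_zero_iff.1 h4
        exact hne i (Algebra.norm_eq_zero_iff.1 hi)
    · have h3 := cls_smul hτ hsep ha (ρ := B) (A := A / B) (B := 1) hB hne'
      rw [e1, mul_one] at h3
      exact h3
  have hNloc : ∀ V : ValuationSubring k, V ≠ ⊤ → LT hτ V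
      (cls (tb hτ hsep) (fun i => aeval (rt i) a) (fun i : Ix P => rt i) Finset.univ
        (w V 0) (w V 1) + κ) := by
    intro V hV
    have hB := hw1 V hV
    have h3 : w V = ![w V 0, w V 1] := by
      ext j
      fin_cases j <;> rfl
    obtain ⟨hPT, hc⟩ := hscale (w V 0) (w V 1) hB (hlin V hV)
    obtain ⟨Q, hQ⟩ := hcl _ hPT
    have h4 := (hφ.NW_iff hV hτ _ (hwF V hV)).1 (hwN V hV)
    have h5 : MvPolynomial.eval (w V) (q 0) / w V 1 ^ 2 =
        MvPolynomial.eval ![w V 0 / w V 1, 1] (q 0) := by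
      have h6 := eval₂_smul_homog (RingHom.id k) hq0 (w V 1) ![w V 0 / w V 1, 1]
      have h7 : (fun j => w V 1 * (![w V 0 / w V 1, 1] : Fin 2 → k) j) = w V := by
        ext j
        fin_cases j
        · simp only [Fin.zero_eta, Fin.isValue, Matrix.cons_val_zero]
          field_simp
        · simp
      rw [h7, MvPolynomial.eval₂_id, MvPolynomial.eval₂_id] at h6
      rw [h6]
      field_simp
    have h6 : MvPolynomial.eval (w V) (discr l q) =
        (m * P.eval (w V 0 / w V 1)) * (w V 1 ^ 2) ^ 2 := by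
      have h7 := eval_discr_ne hP4 hF (w V 0) hB
      rw [← h3] at h7
      rw [h7]; ring
    rw [h5, h6, hτ.sym_mul _ (mul_ne_zero hm hPT) (pow_ne_zero _ (pow_ne_zero _ hB)),
      hτ.sym_sq, add_zero] at h4
    rw [hc]
    rw [← iv_eq_zero] at h4 ⊢
    have h7 := iv_triv hτ V Q
    rw [← hQ, iv_add hφ hV, h4, zero_add] at h7
    exact h7
  -- the sets of places attached to the quadratic factors
  set J := {i : Ix P // Module.finrank k (FK i) = 2 ∧
    ∃ x : k, x ^ 2 + x + Algebra.trace k (FK i) (aeval (rt i) a) = 0} with hJ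
  have hbm : ∀ j : J, {V : ValuationSubring k | V ≠ ⊤ ∧
        iv hτ V (Algebra.trace k (FK j.1) ((tb hτ hsep j.1).sym (aeval (rt j.1) a)
          (lin (rt j.1) (w V 0) (w V 1)))) = 1}.Finite ∧
      Even {V : ValuationSubring k | V ≠ ⊤ ∧
        iv hτ V (Algebra.trace k (FK j.1) ((tb hτ hsep j.1).sym (aeval (rt j.1) a)
          (lin (rt j.1) (w V 0) (w V 1)))) = 1}.ncard := by
    rintro ⟨i, hi2, x, hx0⟩
    simp only
    have hlindep : LinearIndependent k ![rt i, (1 : FK i)] := by
      rw [LinearIndependent.pair_iff]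
      intro s t hst
      by_cases hs : s = 0
      · rw [hs, zero_smul, zero_add] at hst
        refine ⟨hs, ?_⟩
        exact (smul_eq_zero.1 hst).resolve_right one_ne_zero
      · exfalso
        apply hdeg i
        have h3 : rt i = algebraMap k (FK i) (t / s) := by
          rw [Algebra.smul_def, Algebra.smul_def, mul_one] at hst
          have hs' : algebraMap k (FK i) s ≠ 0 := by rwa [Ne, map_eq_zero]
          have h4 : algebraMap k (FK i) s * rt i = algebraMap k (FK i) t :=
            CharTwo.add_eq_zero.1 hst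
          rw [map_div₀, eq_div_iff hs', mul_comm]
          exact h4
        have h4 : i.1.natDegree = 1 := by
          have h5 := minpoly_rt i
          rw [h3, minpoly.eq_X_sub_C] at h5
          rw [← h5, natDegree_X_sub_C]
        rw [finrank_FK]
        exact h4
    have hdisc : MvPolynomial.eval₂ (algebraMap k (FK i)) ![rt i, 1] (discr l q) = 0 := by
      have h3 := eval_homogenize_ne (algebraMap k (FK i)) hP4.le (rt i) (B := 1) one_ne_zero
      rw [hF, MvPolynomial.eval₂_mul, h3, div_one, one_pow, mul_one]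
      have h4 : (P.map (algebraMap k (FK i))).eval (rt i) = 0 := by
        rw [eval_map_algebraMap]
        exact aeval_rt i
      rw [h4, mul_zero]
    obtain ⟨x', hx'⟩ := hx i
    have hl0e : MvPolynomial.eval₂ (algebraMap k (FK i)) ![rt i, 1] (l 0) = 1 := by
      rw [hl0, MvPolynomial.eval₂_X]
      rfl
    have hlp : linPart (algebraMap k (FK i)) l ![rt i, 1] ![x', 1, 0] = 1 := by
      rw [linPart, hl0e]
      simp
    have hbf : bundleForm (algebraMap k (FK i)) l q ![rt i, 1] ![x', 1, 0] =
        aeval (rt i) a * linPart (algebraMap k (FK i)) l ![rt i, 1] ![x', 1, 0] ^ 2 := by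
      rw [hlp, hx', bundleForm, hl0e]
      simp
      ring
    have h3 := hBM (FK i) hi2 ![rt i, 1] hlindep hdisc ![x', 1, 0] (aeval (rt i) a)
      (by rw [hlp]; exact one_ne_zero) hbf ⟨x, by linear_combination hx0 - h2 (Algebra.trace k (FK i) (aeval (rt i) a))⟩
    have hset : {V : ValuationSubring k | V ≠ ⊤ ∧
        iv hτ V (Algebra.trace k (FK i) ((tb hτ hsep i).sym (aeval (rt i) a)
          (lin (rt i) (w V 0) (w V 1)))) = 1} =
        {V : ValuationSubring k | V ≠ ⊤ ∧ Odd {W : ValuationSubring (FK i) |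
        W.comap (algebraMap k (FK i)) = V ∧ ¬ IsNormValue (toCompletion W (aeval (rt i) a))
          (toCompletion W ((![rt i, 1] : Fin 2 → FK i) 1) * compMap V W (u V 0) +
            toCompletion W ((![rt i, 1] : Fin 2 → FK i) 0) * compMap V W (u V 1))}.ncard} := by
      ext V
      simp only [Set.mem_ofPred_eq]
      refine and_congr_right fun hV => ?_
      rw [odd_iff_zmod, iv_eq_parity hφ hV hτ (tb hτ hsep i) _ (hlin V hV i)]
      have h4 : {W : ValuationSubring (FK i) | W ∈ above (FK i) V ∧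
          ¬ NW W (aeval (rt i) a) (lin (rt i) (w V 0) (w V 1))} =
          {W : ValuationSubring (FK i) |
        W.comap (algebraMap k (FK i)) = V ∧ ¬ IsNormValue (toCompletion W (aeval (rt i) a))
          (toCompletion W ((![rt i, 1] : Fin 2 → FK i) 1) * compMap V W (u V 0) +
            toCompletion W ((![rt i, 1] : Fin 2 → FK i) 0) * compMap V W (u V 1))} := by
        ext W
        simp only [Set.mem_ofPred_eq]
        constructor
        · rintro ⟨hW, hn⟩
          exact ⟨hW, fun h5 => hn ((hwi V hV i W hW).2 h5)⟩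
        · rintro ⟨hW, hn⟩
          exact ⟨hW, fun h5 => hn ((hwi V hV i W hW).1 h5)⟩
      rw [h4]
    rw [hset]
    exact h3
  -- the finite set of places
  have hκfin : {V : ValuationSubring k | V ≠ ⊤ ∧ ¬ LT hτ V κ}.Finite := hφ.badSet_finite hτ κ
  set S : Finset (ValuationSubring k) := hκfin.toFinset ∪
    Finset.univ.biUnion (fun j : J => (hbm j).1.toFinset) with hS
  have hSt : ∀ V ∈ S, V ≠ ⊤ := by
    intro V hV
    rw [hS, Finset.mem_union, Finset.mem_biUnion] at hV
    rcases hV with h | ⟨j, -, h⟩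
    · exact (hκfin.mem_toFinset.1 h).1
    · exact ((hbm j).1.mem_toFinset.1 h).1
  have hκS : ∀ V : ValuationSubring k, V ≠ ⊤ → V ∉ S → LT hτ V κ := by
    intro V hV hVS
    by_contra hcon
    apply hVS
    rw [hS, Finset.mem_union]
    exact Or.inl (hκfin.mem_toFinset.2 ⟨hV, hcon⟩)
  obtain ⟨A, B, hAB, hres⟩ := conic_core hφ hP hP4 hsep (isFam_FK hP hP4 hsep) hsum hτ
    (tb hτ hsep) a ha κ S hSt hκS (fun V => w V 0) (fun V => w V 1)
    (fun V hV i => hlin V (hSt V hV) i) (fun V hV => hNloc V (hSt V hV)) (fun T hT => by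
      by_cases hT0 : T = ∅
      · subst hT0
        refine Finset.sum_eq_zero fun V _ => ?_
        rw [cls, Finset.sum_empty, iv_zero]
      by_cases hT1 : T = Finset.univ
      · subst hT1
        rw [← sum_iv hφ hτ S hSt κ hκS]
        refine Finset.sum_congr rfl fun V hV => ?_
        exact iv_congr (hNloc V (hSt V hV))
      obtain ⟨i, hi⟩ := Finset.nonempty_iff_ne_empty.2 hT0
      obtain ⟨j, hj⟩ : ∃ j, j ∉ T := by
        by_contra hcon
        push Not at hcon
        exact hT1 (Finset.eq_univ_iff_forall.2 hcon)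
      have hij : i ≠ j := fun h => hj (h ▸ hi)
      have hTi : T = {i} := by
        ext i'
        rw [Finset.mem_singleton]
        refine ⟨fun hi' => ?_, fun h => h ▸ hi⟩
        by_contra hne
        have h3 : ∑ x ∈ ({i, j, i'} : Finset (Ix P)), Module.finrank k (FK x) ≤ 4 := by
          rw [← hsum]
          exact Finset.sum_le_sum_of_subset (Finset.subset_univ _)
        rw [Finset.sum_insert (by
          simp only [Finset.mem_insert, Finset.mem_singleton, not_or]
          exact ⟨hij, fun h => hne h.symm⟩), Finset.sum_insert (by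
          simp only [Finset.mem_singleton]
          exact fun h => hj (h ▸ hi')), Finset.sum_singleton] at h3
        have h4 := hpos i
        have h5 := hpos j
        have h6 := hpos i'
        omega
      have hi2 : Module.finrank k (FK i) = 2 := by
        have h3 : ∑ x ∈ ({i, j} : Finset (Ix P)), Module.finrank k (FK x) ≤ 4 := by
          rw [← hsum]
          exact Finset.sum_le_sum_of_subset (Finset.subset_univ _)
        rw [Finset.sum_insert (by
          simp only [Finset.mem_singleton]
          exact hij), Finset.sum_singleton] at h3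
        have h4 := hpos i
        have h5 := hpos j
        omega
      obtain ⟨x, hx0⟩ := hT
      subst hTi
      rw [Finset.sum_singleton] at hx0
      set jj : J := ⟨i, hi2, x, hx0⟩ with hjj
      have h3 := (hbm jj).2
      have h4 : {V : ValuationSubring k | V ≠ ⊤ ∧
        iv hτ V (Algebra.trace k (FK jj.1) ((tb hτ hsep jj.1).sym (aeval (rt jj.1) a)
          (lin (rt jj.1) (w V 0) (w V 1)))) = 1} =
          {V : ValuationSubring k | V ≠ ⊤ ∧ ¬ LT hτ V ((fun V => if V ∈ S then
            cls (tb hτ hsep) (fun i => aeval (rt i) a) (fun i : Ix P => rt i) {i}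
              (w V 0) (w V 1) else 0) V)} := by
        ext V
        simp only [Set.mem_ofPred_eq]
        constructor
        · rintro ⟨hV, h5⟩
          refine ⟨hV, ?_⟩
          have hVS : V ∈ S := by
            rw [hS, Finset.mem_union, Finset.mem_biUnion]
            exact Or.inr ⟨jj, Finset.mem_univ _, (hbm jj).1.mem_toFinset.2 ⟨hV, h5⟩⟩
          rw [if_pos hVS, ← iv_eq_zero, cls, Finset.sum_singleton]
          intro h6
          have h7 : iv hτ V (Algebra.trace k (FK jj.1) ((tb hτ hsep jj.1).sym (aeval (rt jj.1) a)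
            (lin (rt jj.1) (w V 0) (w V 1)))) = 0 := h6
          rw [h7] at h5
          exact absurd h5 (by decide)
        · rintro ⟨hV, h5⟩
          refine ⟨hV, ?_⟩
          by_cases hVS : V ∈ S
          · rw [if_pos hVS, ← iv_eq_zero, cls, Finset.sum_singleton] at h5
            have hz : ∀ z : ZMod 2, z ≠ 0 → z = 1 := by decide
            exact hz _ h5
          · rw [if_neg hVS] at h5
            exact absurd (LT.zero hτ V) h5
      rw [h4, even_ncard_iv hτ S hSt _ (fun V hV hVS => by
        rw [if_neg hVS]; exact LT.zero hτ V)] at h3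
      rw [← h3]
      refine Finset.sum_congr rfl fun V hV => ?_
      rw [if_pos hV])
  rcases hres with ⟨i, hi⟩ | hQ
  · exact hzero i A B hAB hi
  by_cases h0 : ∃ i : Ix P, lin (rt i) A B = 0
  · obtain ⟨i, hi⟩ := h0
    exact hzero i A B hAB hi
  push Not at h0
  by_cases hB : B = 0
  · subst hB
    have hA : A ≠ 0 := hAB.resolve_right (fun h => h rfl)
    rw [cls_infty hτ hsep ha hA, zero_add] at hQ
    obtain ⟨y, hy, hb⟩ := hinf hQ
    refine ⟨![1, 0], y, ?_, hy, hb⟩
    intro h3
    exact one_ne_zero (congrFun h3 0)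
  · obtain ⟨hPT, hc⟩ := hscale A B hB h0
    obtain ⟨Q, hQ⟩ := hQ
    obtain ⟨Q', hQ'⟩ := hcl _ hPT
    rw [hc] at hQ
    set T := A / B with hT
    have h3 : hτ.sym (MvPolynomial.eval ![T, 1] (q 0)) (m * P.eval T) =
        (Q + Q') + hτ.cart (Q + Q') := by
      rw [hτ.cart_add]
      linear_combination hQ' - hQ - h2 Q - h2 (hτ.cart Q)
    obtain ⟨X', Y', hXY⟩ := hτ.norm_of_sym (mul_ne_zero hm hPT) h3
    have hdT : MvPolynomial.eval ![T, 1] (discr l q) = m * P.eval T := by
      rw [eval_discr_ne hP4 hF T one_ne_zero, div_one, one_pow, mul_one]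
    have hlT : MvPolynomial.eval ![T, 1] (l 0) = 1 := by
      rw [hl0, MvPolynomial.eval_X]
      rfl
    have h4 := bundle_point (RingHom.id k) l q ![T, 1] X' Y'
    simp only [MvPolynomial.eval₂_id] at h4
    refine ⟨![T, 1], _, ?_, ?_, h4.trans ?_⟩
    · intro h5
      exact one_ne_zero (congrFun h5 1)
    · intro h5
      have h6 := congrFun h5 2
      simp only [Matrix.cons_val, Pi.zero_apply] at h6
      rw [hlT] at h6
      exact one_ne_zero h6
    · rw [hdT, hXY, hlT, nf]
      linear_combination h2 (X' ^ 2) + h2 (X' * Y') + h2 (MvPolynomial.eval ![T, 1] (q 0) * Y' ^ 2)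

end

end Pool.Agent.Helper31.CB
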