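import Mathlib
import Pool.Agent.Helper31.CB.Norm4

set_option autoImplicit false
set_option linter.unusedSectionVars false

/-!
# Conic bundles whose first linear form is the second coordinate
-/

universe u v

namespace Pool.Agent.Helper31.CB

open Polynomial Finset Pool.Agent.Helper31.Fam
open Pool.Agent.Helper26 hiding chQ chG chG_map qf_chG pm_chG pm_chG_mulVec ch_jac ch_hp

section

variable {F : Type v} {k : Type u} [Field F] [Finite F] [CharP F 2] [Field k] [CharP k 2]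

lemma coeff_quartic (e₄ e₃ e₂ e₁ e₀ : k) :
    (C e₄ * X ^ 4 + C e₃ * X ^ 3 + C e₂ * X ^ 2 + C e₁ * X + C e₀ : k[X]).coeff 3 = e₃ ∧
    (C e₄ * X ^ 4 + C e₃ * X ^ 3 + C e₂ * X ^ 2 + C e₁ * X + C e₀ : k[X]).coeff 2 = e₂ := by
  constructor <;> simp [coeff_X]

/-- The theorem for conic bundles in normal form. -/
theorem normalized_bm {φ : RatFunc F →+* k} (hφ : GoodEmb φ) [Infinite k]
    {l : Fin 2 → MvPolynomial (Fin 2) k} {q : Fin 3 → MvPolynomial (Fin 2) k}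
    (hl : ∀ i, (l i).IsHomogeneous 1) (hq : ∀ i, (q i).IsHomogeneous 2)
    (hl0 : l 0 = MvPolynomial.X 1) (hsm : IsSmoothForm (discr l q))
    (h10 : MvPolynomial.eval ![1, 0] (discr l q) ≠ 0)
    (u : ∀ V : ValuationSubring k, Fin 2 → V.valuation.Completion)
    (y : ∀ V : ValuationSubring k, Fin 3 → V.valuation.Completion)
    (hloc : ∀ V : ValuationSubring k, V ≠ ⊤ →
      MvPolynomial.eval₂ (toCompletion V) (u V) (discr l q) ≠ 0 ∧ y V ≠ 0 ∧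
      bundleForm (toCompletion V) l q (u V) (y V) = 0)
    (hBM : BMC l q u) :
    ∃ (u : Fin 2 → k) (y : Fin 3 → k), u ≠ 0 ∧ y ≠ 0 ∧ bundleForm (RingHom.id k) l q u y = 0 := by
  classical
  have h2 : ∀ x : k, x + x = 0 := fun x => CharTwo.add_self_eq_zero x
  have htwo : (2 : k) = 0 := CharTwo.two_eq_zero
  have hτ := hφ.isTwoBasis
  obtain ⟨c₀, c₁, hl1⟩ := lin_form (hl 1)
  obtain ⟨a₀, a₁, a₂, hq0⟩ := quad_form (hq 0)
  obtain ⟨r₀, r₁, r₂, hq1⟩ := quad_form (hq 1)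
  obtain ⟨b₀, b₁, b₂, hq2⟩ := quad_form (hq 2)
  obtain ⟨P, hP, hsep, hP4, hF⟩ := normal_form_one (discr l q) (discr_isHomogeneous hl hq) (by
    intro x hx hx'
    by_contra hne
    obtain ⟨i, hi⟩ := hsm x hne hx
    exact hi (hx' i)) h10
  set m := MvPolynomial.eval ![1, 0] (discr l q) with hm
  have hev : ∀ A B : k, MvPolynomial.eval ![A, B] (discr l q) =
      (r₂ * A ^ 2 + r₁ * A * B + r₀ * B ^ 2) ^ 2 + B * (c₁ * A + c₀ * B) *
        (r₂ * A ^ 2 + r₁ * A * B + r₀ * B ^ 2) +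
      (a₂ * A ^ 2 + a₁ * A * B + a₀ * B ^ 2) * (c₁ * A + c₀ * B) ^ 2 +
      (b₂ * A ^ 2 + b₁ * A * B + b₀ * B ^ 2) * B ^ 2 := by
    intro A B
    rw [discr, hl0, hl1, hq0, hq1, hq2]
    simp
  have hm' : m = r₂ ^ 2 + a₂ * c₁ ^ 2 := by
    rw [hm, hev]; ring
  have hpoly : C m * P = C (r₂ ^ 2 + a₂ * c₁ ^ 2) * X ^ 4 + C (c₁ * r₂ + a₁ * c₁ ^ 2) * X ^ 3 +
      C (r₁ ^ 2 + c₁ * r₁ + c₀ * r₂ + a₀ * c₁ ^ 2 + a₂ * c₀ ^ 2 + b₂) * X ^ 2 +
      C (c₁ * r₀ + c₀ * r₁ + a₁ * c₀ ^ 2 + b₁) * X +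
      C (r₀ ^ 2 + c₀ * r₀ + a₀ * c₀ ^ 2 + b₀) := by
    apply Polynomial.funext
    intro T
    have h3 := eval_discr_ne hP4 hF T one_ne_zero
    rw [div_one, one_pow, mul_one, hev] at h3
    rw [eval_mul, eval_C, ← h3]
    simp only [eval_add, eval_mul, eval_C, eval_pow, eval_X]
    linear_combination (r₁ * r₂ * T ^ 3 + r₀ * r₂ * T ^ 2 + r₀ * r₁ * T + a₂ * c₀ * c₁ * T ^ 3 +
      a₁ * c₀ * c₁ * T ^ 2 + a₀ * c₀ * c₁ * T) * htwo
  have hc3 : (r₂ ^ 2 + a₂ * c₁ ^ 2) * P.coeff 3 = c₁ * r₂ + a₁ * c₁ ^ 2 := by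
    have h3 := congrArg (fun p : k[X] => p.coeff 3) hpoly
    rw [coeff_C_mul, (coeff_quartic _ _ _ _ _).1, hm'] at h3
    exact h3
  have hc2 : (r₂ ^ 2 + a₂ * c₁ ^ 2) * P.coeff 2 =
      r₁ ^ 2 + c₁ * r₁ + c₀ * r₂ + a₀ * c₁ ^ 2 + a₂ * c₀ ^ 2 + b₂ := by
    have h3 := congrArg (fun p : k[X] => p.coeff 2) hpoly
    rw [coeff_C_mul, (coeff_quartic _ _ _ _ _).2, hm'] at h3
    exact h3
  have hmne : r₂ ^ 2 + a₂ * c₁ ^ 2 ≠ 0 := by rw [← hm']; exact h10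
  have hq0T : ∀ T : k, MvPolynomial.eval ![T, 1] (q 0) = a₀ + a₁ * T + a₂ * T ^ 2 := by
    intro T
    rw [hq0]
    simp
    ring
  have hq0θ : ∀ i : Ix P, MvPolynomial.eval₂ (algebraMap k (FK i)) ![rt i, 1] (q 0) =
      algebraMap k (FK i) a₀ + algebraMap k (FK i) a₁ * rt i +
        algebraMap k (FK i) a₂ * rt i ^ 2 := by
    intro i
    rw [hq0]
    simp
    ring
  have hbf : ∀ w y₀ y₁ : k, bundleForm (RingHom.id k) l q ![1, 0] ![w, y₀, y₁] =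
      w ^ 2 + w * (c₁ * y₁) + a₂ * y₀ ^ 2 + r₂ * y₀ * y₁ + b₂ * y₁ ^ 2 := by
    intro w y₀ y₁
    rw [bundleForm, hl0, hl1, hq0, hq1, hq2]
    simp
  by_cases hc : c₁ = 0
  · subst hc
    have hr : r₂ ≠ 0 := by
      rintro rfl
      apply hmne
      ring
    by_cases ha2 : a₂ = 0
    · refine ⟨![1, 0], ![0, 1, 0], ?_, ?_, ?_⟩
      · intro h3
        exact one_ne_zero (congrFun h3 0)
      · intro h3
        exact one_ne_zero (congrFun h3 1)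
      · rw [hbf, ha2]; ring
    have hm2 : m = r₂ ^ 2 := by rw [hm']; ring
    refine normalized_core hφ hl0 (hq 0) hsm hP hP4 hsep h10 hF hτ
      (C a₀ + C a₁ * X + C a₂ * X ^ 2)
      (hτ.sym (a₂ * (b₂ + r₁ ^ 2 + c₀ * r₂ + a₂ * c₀ ^ 2) / r₂ ^ 2) a₂) ?_ ?_ ?_ ?_ u y hloc hBM
    · apply trace_param hP hP4 hsep
      have h4 : r₂ ^ 2 * P.coeff 3 = 0 := by linear_combination hc3
      rw [(mul_eq_zero.1 h4).resolve_left (pow_ne_zero 2 hr)]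
      ring
    · intro i
      refine ⟨0, ?_⟩
      rw [hq0θ]
      simp
    · intro T hT
      refine ⟨0, ?_⟩
      rw [hq0T, hm2, hτ.cart_zero, add_zero]
      exact class_II hτ hP hP4 hsep hr ha2 (by linear_combination hc3)
        (by linear_combination hc2) hT
    · rintro ⟨Q, hQ⟩
      obtain ⟨X', Y', hXY⟩ := hτ.norm_of_sym ha2 hQ
      obtain ⟨Z, hZ⟩ : ∃ Z, Y' = r₂ * Z := ⟨Y' / r₂, by field_simp⟩
      obtain ⟨W, hW⟩ : ∃ W, X' = a₂ * W := ⟨X' / a₂, by field_simp⟩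
      refine ⟨![1 + r₁ * Z, W + c₀ * Z, Z], ?_, ?_⟩
      · intro h3
        have e0 : 1 + r₁ * Z = 0 := congrFun h3 0
        have e2 : Z = 0 := congrFun h3 2
        apply one_ne_zero (α := k)
        linear_combination e0 - r₁ * e2
      · rw [hbf]
        have h3 : a₂ + X' ^ 2 + X' * Y' +
          a₂ * (b₂ + r₁ ^ 2 + c₀ * r₂ + a₂ * c₀ ^ 2) / r₂ ^ 2 * Y' ^ 2 = 0 := by
          rw [nf] at hXY
          nth_rewrite 1 [hXY]
          linear_combination h2 (X' ^ 2) + h2 (X' * Y') +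
            h2 (a₂ * (b₂ + r₁ ^ 2 + c₀ * r₂ + a₂ * c₀ ^ 2) / r₂ ^ 2 * Y' ^ 2)
        have h5 : a₂ * (b₂ + r₁ ^ 2 + c₀ * r₂ + a₂ * c₀ ^ 2) / r₂ ^ 2 * Y' ^ 2 =
            a₂ * (b₂ + r₁ ^ 2 + c₀ * r₂ + a₂ * c₀ ^ 2) * Z ^ 2 := by
          rw [hZ]; field_simp
        rw [h5, hZ, hW] at h3
        have h4 : a₂ * ((1 + r₁ * Z) ^ 2 + (1 + r₁ * Z) * (0 * Z) +
            a₂ * (W + c₀ * Z) ^ 2 + r₂ * (W + c₀ * Z) * Z + b₂ * Z ^ 2) = 0 := by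
          linear_combination h3 + (a₂ * r₁ * Z + a₂ ^ 2 * c₀ * W * Z) * htwo
        exact (mul_eq_zero.1 h4).resolve_left ha2
  · set r := r₂ / c₁ with hr
    set n := a₂ + r ^ 2 with hn
    have hmn : r₂ ^ 2 + a₂ * c₁ ^ 2 = c₁ ^ 2 * n := by
      rw [hn, hr]; field_simp; ring
    have hn0 : n ≠ 0 := by
      intro h0
      apply hmne
      rw [hmn, h0, mul_zero]
    have hcr : c₁ * r = r₂ := by rw [hr]; field_simp
    have hs1 : a₁ + r = n * P.coeff 3 := by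
      have h3 := hc3
      rw [hmn] at h3
      have h5 : c₁ ^ 2 * (a₁ + r) = c₁ ^ 2 * (n * P.coeff 3) := by
        linear_combination -h3 + c₁ * hcr
      exact mul_left_cancel₀ (pow_ne_zero 2 hc) h5
    refine normalized_core hφ hl0 (hq 0) hsm hP hP4 hsep h10 hF hτ
      (C a₀ + C (a₁ + r) * X + C n * X ^ 2)
      (hτ.sym ((b₂ + r₁ ^ 2 + c₁ * r₁ + c₀ * r₂ + a₂ * c₀ ^ 2) / c₁ ^ 2) n) ?_ ?_ ?_ ?_ u y hloc hBM
    · apply trace_param hP hP4 hsep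
      rw [hs1]
      linear_combination h2 (n * P.coeff 3 ^ 2)
    · intro i
      refine ⟨algebraMap k (FK i) r * rt i, ?_⟩
      rw [hq0θ, hn]
      simp
      ring
    · intro T hT
      rw [hq0T, hm']
      exact class_I hτ hP hP4 hsep hc hmne hc3 hc2 hT
    · rintro ⟨Q, hQ⟩
      obtain ⟨X', Y', hXY⟩ := hτ.norm_of_sym hn0 hQ
      obtain ⟨Z, hZ⟩ : ∃ Z, Y' = c₁ * Z := ⟨Y' / c₁, by field_simp⟩
      refine ⟨![X' + r₁ * Z + r, 1 + c₀ * Z, Z], ?_, ?_⟩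
      · intro h3
        have e1 : 1 + c₀ * Z = 0 := congrFun h3 1
        have e2 : Z = 0 := congrFun h3 2
        apply one_ne_zero (α := k)
        linear_combination e1 - c₀ * e2
      · rw [hbf]
        have h3 : n + X' ^ 2 + X' * Y' +
          (b₂ + r₁ ^ 2 + c₁ * r₁ + c₀ * r₂ + a₂ * c₀ ^ 2) / c₁ ^ 2 * Y' ^ 2 = 0 := by
          rw [nf] at hXY
          nth_rewrite 1 [hXY]
          linear_combination h2 (X' ^ 2) + h2 (X' * Y') +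
            h2 ((b₂ + r₁ ^ 2 + c₁ * r₁ + c₀ * r₂ + a₂ * c₀ ^ 2) / c₁ ^ 2 * Y' ^ 2)
        have h5 : (b₂ + r₁ ^ 2 + c₁ * r₁ + c₀ * r₂ + a₂ * c₀ ^ 2) / c₁ ^ 2 * Y' ^ 2 =
            (b₂ + r₁ ^ 2 + c₁ * r₁ + c₀ * r₂ + a₂ * c₀ ^ 2) * Z ^ 2 := by
          rw [hZ]; field_simp
        rw [h5, hZ, hn] at h3
        linear_combination h3 + (X' * r₁ * Z + X' * r + r₁ * r * Z + a₂ * c₀ * Z + r₂ * Z) * htwo +
          Z * hcr

end

end Pool.Agent.Helper31.CB
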