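import Mathlib
import Pool.Agent.Helper26.ChFinal2
import Pool.Agent.Helper31.CB.Norm5

set_option autoImplicit false
set_option linter.unusedSectionVars false

/-!
# Conic bundles: reduction to normal form
-/

universe u v

namespace Pool.Agent.Helper31.CB

open Polynomial Finset Pool.Agent.Helper31.Fam
open Pool.Agent.Helper26 hiding chQ chG chG_map qf_chG pm_chG pm_chG_mulVec ch_jac ch_hp

section

variable {k : Type u} [Field k]

lemma lsub_add' (M : Matrix (Fin 2) (Fin 2) k) (p q : MvPolynomial (Fin 2) k) :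
    lsub M (p + q) = lsub M p + lsub M q := map_add _ _ _

lemma lsub_pow' (M : Matrix (Fin 2) (Fin 2) k) (p : MvPolynomial (Fin 2) k) (n : ℕ) :
    lsub M (p ^ n) = lsub M p ^ n := map_pow _ _ _

lemma discr_lsub (M : Matrix (Fin 2) (Fin 2) k) (l : Fin 2 → MvPolynomial (Fin 2) k)
    (q : Fin 3 → MvPolynomial (Fin 2) k) :
    discr (fun i => lsub M (l i)) (fun i => lsub M (q i)) = lsub M (discr l q) := by
  simp only [discr, lsub_add', lsub_mul', lsub_pow']

/-- Smoothness is invariant under linear substitutions. -/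
lemma smooth_lsub {M : Matrix (Fin 2) (Fin 2) k} (hM : M.det ≠ 0) {f : MvPolynomial (Fin 2) k}
    (hsm : IsSmoothForm f) : IsSmoothForm (lsub M f) := by
  intro x hx h0
  set M' : Matrix (Fin 2) (Fin 2) (AlgebraicClosure k) := M.map (algebraMap k _) with hM'
  have hdet : M'.det ≠ 0 := by
    rw [hM', ← RingHom.mapMatrix_apply, ← RingHom.map_det, Ne, map_eq_zero]
    exact hM
  have hx' : M'.mulVec x ≠ 0 := fun h => hx (Matrix.eq_zero_of_mulVec_eq_zero hdet h)
  have h1 : MvPolynomial.aeval (M'.mulVec x) f = 0 := by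
    rw [aeval_lsub] at h0
    exact h0
  obtain ⟨i, hi⟩ := hsm _ hx' h1
  by_contra hcon
  push Not at hcon
  apply hi
  have hgrad : Matrix.vecMul
      (fun i => MvPolynomial.aeval (M'.mulVec x) (MvPolynomial.pderiv i f)) M' = 0 := by
    funext j
    have h2 := hcon j
    rw [pderiv_lsub, map_sum] at h2
    rw [Matrix.vecMul, dotProduct, Pi.zero_apply, ← h2]
    refine Finset.sum_congr rfl fun i _ => ?_
    rw [map_mul, aeval_lsub, mul_comm, MvPolynomial.aeval_C]
    rfl
  exact congrFun (Matrix.eq_zero_of_vecMul_eq_zero hdet hgrad) i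

/-- Values of the form after a linear substitution. -/
lemma bundleForm_lsub {L : Type*} [Field L] (f : k →+* L) (M : Matrix (Fin 2) (Fin 2) k)
    (l : Fin 2 → MvPolynomial (Fin 2) k) (q : Fin 3 → MvPolynomial (Fin 2) k)
    (u : Fin 2 → L) (y : Fin 3 → L) :
    bundleForm f (fun i => lsub M (l i)) (fun i => lsub M (q i)) u y =
      bundleForm f l q ((M.map f).mulVec u) y := by
  simp only [bundleForm, eval₂_lsub]

lemma linPart_lsub {L : Type*} [Field L] (f : k →+* L) (M : Matrix (Fin 2) (Fin 2) k)
    (l : Fin 2 → MvPolynomial (Fin 2) k) (u : Fin 2 → L) (y : Fin 3 → L) :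
    linPart f (fun i => lsub M (l i)) u y = linPart f l ((M.map f).mulVec u) y := by
  simp only [linPart, eval₂_lsub]

lemma smooth_not_sq [CharP k 2] [Infinite k] {g : MvPolynomial (Fin 2) k}
    (hg : g.IsHomogeneous 2) (hsm : IsSmoothForm (g ^ 2)) : False := by
  obtain ⟨a₀, a₁, a₂, h⟩ := quad_form hg
  obtain ⟨x, hx, hx0⟩ : ∃ x : Fin 2 → AlgebraicClosure k, x ≠ 0 ∧ MvPolynomial.aeval x g = 0 := by
    by_cases ha : a₂ = 0
    · refine ⟨![1, 0], fun h0 => one_ne_zero (congrFun h0 0), ?_⟩
      rw [h, ha]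
      simp
    · set p : (AlgebraicClosure k)[X] := C (algebraMap k _ a₂) * X ^ 2 +
        C (algebraMap k _ a₁) * X + C (algebraMap k _ a₀) with hp
      have ha' : algebraMap k (AlgebraicClosure k) a₂ ≠ 0 := by rwa [Ne, map_eq_zero]
      obtain ⟨x, hx⟩ := IsAlgClosed.exists_root p (by
        rw [hp, degree_quadratic ha']
        decide)
      refine ⟨![x, 1], fun h0 => one_ne_zero (congrFun h0 1), ?_⟩
      rw [hp, IsRoot] at hx
      simp only [eval_add, eval_mul, eval_C, eval_pow, eval_X] at hx
      rw [h]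
      simp
      exact hx
  obtain ⟨i, hi⟩ := hsm x hx (by rw [map_pow, hx0, zero_pow two_ne_zero])
  apply hi
  rw [Derivation.leibniz_pow]
  simp [hx0]

end

section

variable {F : Type v} {k : Type u} [Field F] [Finite F] [CharP F 2] [Field k] [CharP k 2]

/-- The compatibility condition after a linear substitution of determinant one. -/
lemma BMC_lsub {l : Fin 2 → MvPolynomial (Fin 2) k}
    {q : Fin 3 → MvPolynomial (Fin 2) k} {M N : Matrix (Fin 2) (Fin 2) k} (hMN : M * N = 1)
    (hdet : M.det = 1)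
    {u : ∀ V : ValuationSubring k, Fin 2 → V.valuation.Completion} (hBM : BMC l q u) :
    BMC (fun i => lsub M (l i)) (fun i => lsub M (q i))
      (fun V => (N.map (toCompletion V)).mulVec (u V)) := by
  intro K _ _ _ hK2 t ht ht0 z ε hz hε hx
  have hchar : CharP K 2 := charP_of_injective_algebraMap (algebraMap k K).injective 2
  have hfd : FiniteDimensional k K := Module.finite_of_finrank_pos (by omega)
  set t' : Fin 2 → K := (M.map (algebraMap k K)).mulVec t with ht'
  have hNM : N * M = 1 := mul_eq_one_comm.1 hMN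
  have hind : LinearIndependent k t' := by
    rw [Fintype.linearIndependent_iff] at ht ⊢
    intro g hg
    have h1 : ∑ i, (Matrix.vecMul g M) i • t i = 0 := by
      rw [← hg]
      simp only [ht', Fin.sum_univ_two, Matrix.vecMul, Matrix.mulVec, dotProduct, Matrix.map_apply,
        Algebra.smul_def, map_add, map_mul]
      ring
    have h2 : Matrix.vecMul g M = 0 := funext (ht _ h1)
    have h3 : Matrix.vecMul (Matrix.vecMul g M) N = g := by
      rw [Matrix.vecMul_vecMul, hMN, Matrix.vecMul_one]
    rw [h2, Matrix.zero_vecMul] at h3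
    intro i
    rw [← h3]; rfl
  have h1 := hBM K hK2 t' hind (by
    rw [discr_lsub, eval₂_lsub] at ht0
    exact ht0) z ε (by
    rw [linPart_lsub] at hz
    exact hz) (by
    rw [linPart_lsub, bundleForm_lsub] at hε
    exact hε) hx
  have hN : N = M.adjugate := by
    have h2 := Matrix.mul_adjugate M
    rw [hdet, one_smul] at h2
    calc N = N * (M * M.adjugate) := by rw [h2, mul_one]
      _ = M.adjugate := by rw [← mul_assoc, hNM, one_mul]
  have hkey : ∀ (V : ValuationSubring k) (W : ValuationSubring K),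
      W.comap (algebraMap k K) = V →
      toCompletion W (t 1) * compMap V W (((N.map (toCompletion V)).mulVec (u V)) 0) +
        toCompletion W (t 0) * compMap V W (((N.map (toCompletion V)).mulVec (u V)) 1) =
      toCompletion W (t' 1) * compMap V W (u V 0) +
        toCompletion W (t' 0) * compMap V W (u V 1) := by
    intro V W hW
    obtain ⟨g, hg, -, hgk⟩ := compMap_spec (K := K) hW
    have hcW : CharP W.valuation.Completion 2 :=
      charP_of_injective_ringHom (toCompletion W).injective 2
    have h2 : (2 : W.valuation.Completion) = 0 := CharTwo.two_eq_zero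
    rw [hN, Matrix.adjugate_fin_two]
    simp only [ht', ← hg, Matrix.mulVec, dotProduct, Matrix.map_apply, Fin.sum_univ_two, map_add,
      map_mul, hgk, Matrix.of_apply, Matrix.cons_val', Matrix.cons_val_zero, Matrix.cons_val_one,
      Matrix.cons_val_fin_one, map_neg]
    linear_combination (-(toCompletion W (t 1) * toCompletion W (algebraMap k K (M 0 1)) *
      g (u V 1)) - toCompletion W (t 0) * toCompletion W (algebraMap k K (M 1 0)) *
      g (u V 0)) * h2
  have hset : ∀ V : ValuationSubring k, {W : ValuationSubring K |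
        W.comap (algebraMap k K) = V ∧ ¬ IsNormValue (toCompletion W ε)
          (toCompletion W (t 1) * compMap V W (((N.map (toCompletion V)).mulVec (u V)) 0) +
            toCompletion W (t 0) * compMap V W (((N.map (toCompletion V)).mulVec (u V)) 1))} =
      {W : ValuationSubring K |
        W.comap (algebraMap k K) = V ∧ ¬ IsNormValue (toCompletion W ε)
          (toCompletion W (t' 1) * compMap V W (u V 0) +
            toCompletion W (t' 0) * compMap V W (u V 1))} := by
    intro V
    ext W
    simp only [Set.mem_ofPred_eq]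
    refine and_congr_right fun hW => ?_
    rw [hkey V W hW]
  simp only [hset]
  exact h1

/-- The theorem when the first linear form does not vanish. -/
theorem conic_bundle_aux {φ : RatFunc F →+* k} (hφ : GoodEmb φ) [Infinite k]
    {l : Fin 2 → MvPolynomial (Fin 2) k} {q : Fin 3 → MvPolynomial (Fin 2) k}
    (hl : ∀ i, (l i).IsHomogeneous 1) (hq : ∀ i, (q i).IsHomogeneous 2)
    (hl0 : l 0 ≠ 0) (hsm : IsSmoothForm (discr l q))
    (u : ∀ V : ValuationSubring k, Fin 2 → V.valuation.Completion)
    (y : ∀ V : ValuationSubring k, Fin 3 → V.valuation.Completion)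
    (hloc : ∀ V : ValuationSubring k, V ≠ ⊤ →
      MvPolynomial.eval₂ (toCompletion V) (u V) (discr l q) ≠ 0 ∧ y V ≠ 0 ∧
      bundleForm (toCompletion V) l q (u V) (y V) = 0)
    (hBM : BMC l q u) :
    ∃ (u : Fin 2 → k) (y : Fin 3 → k), u ≠ 0 ∧ y ≠ 0 ∧ bundleForm (RingHom.id k) l q u y = 0 := by
  have h2 : (2 : k) = 0 := CharTwo.two_eq_zero
  have h2' : ∀ x : k, x + x = 0 := fun x => CharTwo.add_self_eq_zero x
  obtain ⟨c₀, c₁, hc⟩ := lin_form (hl 0)
  have hev : ∀ x : Fin 2 → k, MvPolynomial.eval x (l 0) = c₁ * x 0 + c₀ * x 1 := by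
    intro x
    rw [hc]
    simp
  have hv : (![c₀, c₁] : Fin 2 → k) ≠ 0 := by
    intro h
    apply hl0
    have e0 : c₀ = 0 := congrFun h 0
    have e1 : c₁ = 0 := congrFun h 1
    rw [hc, e0, e1]
    simp
  by_cases hz : MvPolynomial.eval ![c₀, c₁] (discr l q) = 0
  · obtain ⟨y, hy, hb⟩ := point_of_zero hsm hv hz
    exact ⟨_, y, hv, hy, hb⟩
  obtain ⟨w₀, w₁, hw⟩ : ∃ w₀ w₁ : k, c₁ * w₀ + c₀ * w₁ = 1 := by
    by_cases h1 : c₁ = 0
    · have h0 : c₀ ≠ 0 := by
        rintro rfl
        apply hv
        rw [h1]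
        ext i
        fin_cases i <;> rfl
      exact ⟨0, c₀⁻¹, by rw [mul_inv_cancel₀ h0]; ring⟩
    · exact ⟨c₁⁻¹, 0, by rw [mul_inv_cancel₀ h1]; ring⟩
  set M : Matrix (Fin 2) (Fin 2) k := !![c₀, w₀; c₁, w₁] with hM
  have hdet : M.det = 1 := by
    rw [hM, Matrix.det_fin_two_of]
    linear_combination hw - h2' (w₀ * c₁)
  have hunit : IsUnit M.det := by rw [hdet]; exact isUnit_one
  have hMN : M * M⁻¹ = 1 := Matrix.mul_nonsing_inv M hunit
  have hM0 : M.mulVec ![1, 0] = ![c₀, c₁] := by
    ext i
    fin_cases i <;> simp [hM, Matrix.mulVec, dotProduct, Fin.sum_univ_two]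
  have hl0' : lsub M (l 0) = MvPolynomial.X 1 := by
    apply MvPolynomial.funext
    intro x
    rw [eval_lsub, hev, MvPolynomial.eval_X]
    simp only [hM, Matrix.mulVec, dotProduct, Fin.sum_univ_two, Matrix.of_apply,
      Matrix.cons_val', Matrix.cons_val_zero, Matrix.cons_val_one, Matrix.cons_val_fin_one]
    linear_combination x 1 * hw + h2' (c₀ * c₁ * x 0)
  have hback : ∀ (V : ValuationSubring k) (x : Fin 2 → V.valuation.Completion),
      (M.map (toCompletion V)).mulVec ((M⁻¹.map (toCompletion V)).mulVec x) = x := by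
    intro V x
    rw [Matrix.mulVec_mulVec, ← Matrix.map_mul, hMN]
    simp
  obtain ⟨u', y', hu', hy', hb⟩ := normalized_bm hφ
    (l := fun i => lsub M (l i)) (q := fun i => lsub M (q i))
    (fun i => lsub_isHomogeneous M (hl i)) (fun i => lsub_isHomogeneous M (hq i)) hl0'
    (by rw [discr_lsub]; exact smooth_lsub (by rw [hdet]; exact one_ne_zero) hsm)
    (by rw [discr_lsub, eval_lsub, hM0]; exact hz)
    (fun V => (M⁻¹.map (toCompletion V)).mulVec (u V)) y (fun V hV => by
      obtain ⟨h3, h4, h5⟩ := hloc V hV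
      refine ⟨?_, h4, ?_⟩
      · rw [discr_lsub, eval₂_lsub, hback]
        exact h3
      · rw [bundleForm_lsub, hback]
        exact h5) (BMC_lsub hMN hdet hBM)
  rw [bundleForm_lsub] at hb
  refine ⟨_, y', ?_, hy', hb⟩
  intro h0
  apply hu'
  apply Matrix.eq_zero_of_mulVec_eq_zero (M := M.map (RingHom.id k)) ?_ h0
  have h6 : M.map (RingHom.id k) = M := by ext; rfl
  rw [h6, hdet]
  exact one_ne_zero

/-- The theorem for conic bundles. -/
theorem conic_bundle_gen {φ : RatFunc F →+* k} (hφ : GoodEmb φ) [Infinite k]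
    {l : Fin 2 → MvPolynomial (Fin 2) k} {q : Fin 3 → MvPolynomial (Fin 2) k}
    (hl : ∀ i, (l i).IsHomogeneous 1) (hq : ∀ i, (q i).IsHomogeneous 2)
    (hsm : IsSmoothForm (discr l q))
    (u : ∀ V : ValuationSubring k, Fin 2 → V.valuation.Completion)
    (y : ∀ V : ValuationSubring k, Fin 3 → V.valuation.Completion)
    (hloc : ∀ V : ValuationSubring k, V ≠ ⊤ →
      MvPolynomial.eval₂ (toCompletion V) (u V) (discr l q) ≠ 0 ∧ y V ≠ 0 ∧
      bundleForm (toCompletion V) l q (u V) (y V) = 0)
    (hBM : BMC l q u) :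
    ∃ (u : Fin 2 → k) (y : Fin 3 → k), u ≠ 0 ∧ y ≠ 0 ∧ bundleForm (RingHom.id k) l q u y = 0 := by
  by_cases hl0 : l 0 = 0
  · have hl1 : l 1 ≠ 0 := by
      intro hl1
      have h1 : discr l q = (q 1) ^ 2 := by
        rw [discr, hl0, hl1]; ring
      rw [h1] at hsm
      exact smooth_not_sq (hq 1) hsm
    have hd : discr ![l 1, l 0] ![q 2, q 1, q 0] = discr l q := by
      simp only [discr, Matrix.cons_val_zero, Matrix.cons_val_one, Matrix.cons_val]
      ring
    have hbf : ∀ {L : Type u} [Field L] (f : k →+* L) (u : Fin 2 → L) (y : Fin 3 → L),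
        bundleForm f ![l 1, l 0] ![q 2, q 1, q 0] u y =
          bundleForm f l q u ![y 0, y 2, y 1] := by
      intro L _ f u y
      simp only [bundleForm, Matrix.cons_val_zero, Matrix.cons_val_one, Matrix.cons_val]
      ring
    have hlp : ∀ {L : Type u} [Field L] (f : k →+* L) (u : Fin 2 → L) (y : Fin 3 → L),
        linPart f ![l 1, l 0] u y = linPart f l u ![y 0, y 2, y 1] := by
      intro L _ f u y
      simp only [linPart, Matrix.cons_val_zero, Matrix.cons_val_one, Matrix.cons_val]
      ring
    obtain ⟨u', y', hu', hy', hb⟩ := conic_bundle_aux hφ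
      (l := ![l 1, l 0]) (q := ![q 2, q 1, q 0])
      (fun i => by fin_cases i; exacts [hl 1, hl 0])
      (fun i => by fin_cases i; exacts [hq 2, hq 1, hq 0]) hl1 (by rw [hd]; exact hsm) u
      (fun V => ![y V 0, y V 2, y V 1]) (fun V hV => by
        obtain ⟨h3, h4, h5⟩ := hloc V hV
        refine ⟨by rw [hd]; exact h3, ?_, ?_⟩
        · intro h6
          apply h4
          ext i
          fin_cases i
          · exact congrFun h6 0
          · exact congrFun h6 2
          · exact congrFun h6 1
        · rw [hbf, ← h5]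
          congr 1
          ext i
          fin_cases i <;> rfl) (by
        intro K _ _ _ hK2 t ht ht0 z ε hz hε hx
        rw [hd] at ht0
        rw [hlp] at hz
        rw [hbf, hlp] at hε
        exact hBM K hK2 t ht ht0 _ ε hz hε hx)
    rw [hbf] at hb
    refine ⟨u', _, hu', ?_, hb⟩
    intro h6
    apply hy'
    ext i
    fin_cases i
    · exact congrFun h6 0
    · exact congrFun h6 2
    · exact congrFun h6 1
  · exact conic_bundle_aux hφ hl hq hl0 hsm u y hloc hBM

end

end Pool.Agent.Helper31.CB
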