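import Mathlib
import Pool.Agent.Helper31.CB.Norm1

set_option autoImplicit false
set_option linter.unusedSectionVars false

/-!
# Smoothness of a conic bundle and of its discriminant
-/

universe u

namespace Pool.Agent.Helper31.CB

open MvPolynomial Pool.Agent.Helper26

section

variable {k : Type u} [Field k]

lemma eval₂_bundlePoly {L : Type*} [Field L] (f : k →+* L) (l : Fin 2 → MvPolynomial (Fin 2) k)
    (q : Fin 3 → MvPolynomial (Fin 2) k) (u : Fin 2 → L) (y : Fin 3 → L) :
    eval₂ f (Sum.elim u y) (bundlePoly l q) = bundleForm f l q u y := by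
  simp only [bundlePoly, bundleForm, eval₂_add, eval₂_mul, eval₂_pow, eval₂_X, eval₂_rename,
    Sum.elim_inr, Sum.elim_comp_inl]

lemma exists_zero_quadratic {E : Type*} [Field E] [IsAlgClosed E] (a b c : E) :
    ∃ s t : E, (s ≠ 0 ∨ t ≠ 0) ∧ a * s ^ 2 + b * s * t + c * t ^ 2 = 0 := by
  by_cases ha : a = 0
  · exact ⟨1, 0, Or.inl one_ne_zero, by rw [ha]; ring⟩
  · obtain ⟨x, hx⟩ := IsAlgClosed.exists_root
      (Polynomial.C a * Polynomial.X ^ 2 + Polynomial.C b * Polynomial.X + Polynomial.C c) (by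
        rw [Polynomial.degree_quadratic ha]
        decide)
    rw [Polynomial.IsRoot] at hx
    simp only [Polynomial.eval_add, Polynomial.eval_mul, Polynomial.eval_C, Polynomial.eval_pow,
      Polynomial.eval_X] at hx
    exact ⟨x, 1, Or.inr one_ne_zero, by linear_combination hx⟩

lemma pderiv_inl_rename (j : Fin 2) (p : MvPolynomial (Fin 2) k) :
    pderiv (Sum.inl j) (rename (Sum.inl : Fin 2 → Fin 2 ⊕ Fin 3) p) =
      rename Sum.inl (pderiv j p) :=
  pderiv_rename Sum.inl_injective j p

lemma pderiv_inr_rename (j : Fin 3) (p : MvPolynomial (Fin 2) k) :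
    pderiv (Sum.inr j) (rename (Sum.inl : Fin 2 → Fin 2 ⊕ Fin 3) p) = 0 := by
  apply pderiv_eq_zero_of_notMem_vars
  intro h
  have h1 := vars_rename (Sum.inl : Fin 2 → Fin 2 ⊕ Fin 3) p h
  simp at h1

lemma aeval_elim_rename {E : Type*} [Field E] [Algebra k E] (u : Fin 2 → E) (y : Fin 3 → E)
    (p : MvPolynomial (Fin 2) k) :
    aeval (Sum.elim u y) (rename (Sum.inl : Fin 2 → Fin 2 ⊕ Fin 3) p) = aeval u p := by
  rw [aeval_rename, Sum.elim_comp_inl]

lemma pderiv_inl (l : Fin 2 → MvPolynomial (Fin 2) k) (q : Fin 3 → MvPolynomial (Fin 2) k)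
    {E : Type*} [Field E] [Algebra k E] (u : Fin 2 → E) (y : Fin 3 → E) (j : Fin 2) :
    aeval (Sum.elim u y) (pderiv (Sum.inl j) (bundlePoly l q)) =
      y 0 * (aeval u (pderiv j (l 0)) * y 1 + aeval u (pderiv j (l 1)) * y 2) +
      aeval u (pderiv j (q 0)) * y 1 ^ 2 + aeval u (pderiv j (q 1)) * y 1 * y 2 +
      aeval u (pderiv j (q 2)) * y 2 ^ 2 := by
  simp [bundlePoly, Derivation.leibniz_pow, pderiv_inl_rename, aeval_elim_rename, pderiv_X]
  ring

lemma pderiv_inr0 [CharP k 2] (l : Fin 2 → MvPolynomial (Fin 2) k)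
    (q : Fin 3 → MvPolynomial (Fin 2) k)
    {E : Type*} [Field E] [Algebra k E] (u : Fin 2 → E) (y : Fin 3 → E) :
    aeval (Sum.elim u y) (pderiv (Sum.inr 0) (bundlePoly l q)) =
      2 * y 0 + aeval u (l 0) * y 1 + aeval u (l 1) * y 2 := by
  simp [bundlePoly, Derivation.leibniz_pow, pderiv_inr_rename, aeval_elim_rename, pderiv_X]
  ring

lemma pderiv_inr1 [CharP k 2] (l : Fin 2 → MvPolynomial (Fin 2) k)
    (q : Fin 3 → MvPolynomial (Fin 2) k)
    {E : Type*} [Field E] [Algebra k E] (u : Fin 2 → E) (y : Fin 3 → E) :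
    aeval (Sum.elim u y) (pderiv (Sum.inr 1) (bundlePoly l q)) =
      y 0 * aeval u (l 0) + 2 * aeval u (q 0) * y 1 + aeval u (q 1) * y 2 := by
  simp [bundlePoly, Derivation.leibniz_pow, pderiv_inr_rename, aeval_elim_rename, pderiv_X]
  ring

lemma pderiv_inr2 [CharP k 2] (l : Fin 2 → MvPolynomial (Fin 2) k)
    (q : Fin 3 → MvPolynomial (Fin 2) k)
    {E : Type*} [Field E] [Algebra k E] (u : Fin 2 → E) (y : Fin 3 → E) :
    aeval (Sum.elim u y) (pderiv (Sum.inr 2) (bundlePoly l q)) =
      y 0 * aeval u (l 1) + aeval u (q 1) * y 1 + 2 * aeval u (q 2) * y 2 := by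
  simp [bundlePoly, Derivation.leibniz_pow, pderiv_inr_rename, aeval_elim_rename, pderiv_X]
  ring

lemma pderiv_discr [CharP k 2] (l : Fin 2 → MvPolynomial (Fin 2) k)
    (q : Fin 3 → MvPolynomial (Fin 2) k)
    {E : Type*} [Field E] [CharP E 2] [Algebra k E] (u : Fin 2 → E) (j : Fin 2) :
    aeval u (pderiv j (discr l q)) =
      aeval u (pderiv j (l 0)) * aeval u (l 1) * aeval u (q 1) +
      aeval u (l 0) * aeval u (pderiv j (l 1)) * aeval u (q 1) +
      aeval u (l 0) * aeval u (l 1) * aeval u (pderiv j (q 1)) +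
      aeval u (pderiv j (q 0)) * aeval u (l 1) ^ 2 +
      aeval u (pderiv j (q 2)) * aeval u (l 0) ^ 2 := by
  have h2 : (2 : E) = 0 := CharTwo.two_eq_zero
  simp [discr, Derivation.leibniz_pow]
  linear_combination (aeval u (q 1) * aeval u (pderiv j (q 1)) +
    aeval u (q 0) * aeval u (l 1) * aeval u (pderiv j (l 1)) +
    aeval u (q 2) * aeval u (l 0) * aeval u (pderiv j (l 0))) * h2

/-- If the conic bundle is smooth, then its discriminant has no multiple zero. -/
theorem smooth_discr [CharP k 2] {l : Fin 2 → MvPolynomial (Fin 2) k}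
    {q : Fin 3 → MvPolynomial (Fin 2) k} (hl : ∀ i, (l i).IsHomogeneous 1)
    (hq : ∀ i, (q i).IsHomogeneous 2) (hsm : IsSmoothBundle l q) :
    IsSmoothForm (discr l q) := by
  intro u hu h0
  by_contra hcon
  push Not at hcon
  have hchar : CharP (AlgebraicClosure k) 2 :=
    charP_of_injective_algebraMap (algebraMap k (AlgebraicClosure k)).injective 2
  have h2 : (2 : AlgebraicClosure k) = 0 := CharTwo.two_eq_zero
  have hF : aeval u (discr l q) = aeval u (q 1) ^ 2 + aeval u (l 0) * aeval u (l 1) *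
      aeval u (q 1) + aeval u (q 0) * aeval u (l 1) ^ 2 + aeval u (q 2) * aeval u (l 0) ^ 2 := by
    simp only [discr, map_add, map_mul, map_pow]
  have hbf : ∀ y : Fin 3 → AlgebraicClosure k, aeval (Sum.elim u y) (bundlePoly l q) =
      y 0 ^ 2 + y 0 * (aeval u (l 0) * y 1 + aeval u (l 1) * y 2) +
      aeval u (q 0) * y 1 ^ 2 + aeval u (q 1) * y 1 * y 2 + aeval u (q 2) * y 2 ^ 2 := by
    intro y
    exact eval₂_bundlePoly (algebraMap k (AlgebraicClosure k)) l q u y
  by_cases hρ : aeval u (l 0) = 0 ∧ aeval u (l 1) = 0 ∧ aeval u (q 1) = 0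
  · obtain ⟨e0, e1, e2⟩ := hρ
    obtain ⟨a, ha⟩ := IsAlgClosed.exists_pow_nat_eq (aeval u (q 0)) (n := 2) two_pos
    obtain ⟨b, hb⟩ := IsAlgClosed.exists_pow_nat_eq (aeval u (q 2)) (n := 2) two_pos
    -- Euler relations
    have eu : ∀ (p : MvPolynomial (Fin 2) k) (n : ℕ), p.IsHomogeneous n →
        u 0 * aeval u (pderiv 0 p) + u 1 * aeval u (pderiv 1 p) = n * aeval u p := by
      intro p n hp
      have h3 := congrArg (aeval u) hp.sum_X_mul_pderiv
      rw [Fin.sum_univ_two, map_add, map_mul, map_mul, map_nsmul, aeval_X, aeval_X,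
        nsmul_eq_mul] at h3
      exact h3
    have el0 := eu _ _ (hl 0)
    have el1 := eu _ _ (hl 1)
    have eq0 := eu _ _ (hq 0)
    have eq1 := eu _ _ (hq 1)
    have eq2 := eu _ _ (hq 2)
    rw [e0, mul_zero] at el0
    rw [e1, mul_zero] at el1
    rw [Nat.cast_ofNat, h2, zero_mul] at eq0 eq1 eq2
    -- the restriction of the partial derivatives to the double line
    set R : Fin 2 → AlgebraicClosure k → AlgebraicClosure k → AlgebraicClosure k := fun j s t =>
      (a * s + b * t) * (aeval u (pderiv j (l 0)) * s + aeval u (pderiv j (l 1)) * t) +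
      aeval u (pderiv j (q 0)) * s ^ 2 + aeval u (pderiv j (q 1)) * s * t +
      aeval u (pderiv j (q 2)) * t ^ 2 with hR
    have hRs : ∀ s t, u 0 * R 0 s t + u 1 * R 1 s t = 0 := by
      intro s t
      simp only [hR]
      linear_combination (a * s + b * t) * s * el0 + (a * s + b * t) * t * el1 +
        s ^ 2 * eq0 + s * t * eq1 + t ^ 2 * eq2
    have hex : ∀ j, ∃ s t, (s ≠ 0 ∨ t ≠ 0) ∧ R j s t = 0 := by
      intro j
      obtain ⟨s, t, hst, h3⟩ := exists_zero_quadratic
        (a * aeval u (pderiv j (l 0)) + aeval u (pderiv j (q 0)))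
        (a * aeval u (pderiv j (l 1)) + b * aeval u (pderiv j (l 0)) + aeval u (pderiv j (q 1)))
        (b * aeval u (pderiv j (l 1)) + aeval u (pderiv j (q 2)))
      exact ⟨s, t, hst, by simp only [hR]; linear_combination h3⟩
    obtain ⟨s, t, hst, hR0⟩ : ∃ s t, (s ≠ 0 ∨ t ≠ 0) ∧ ∀ j, R j s t = 0 := by
      by_cases hu1 : u 1 = 0
      · have hu0 : u 0 ≠ 0 := by
          intro hu0
          apply hu
          ext j
          fin_cases j
          · exact hu0
          · exact hu1
        obtain ⟨s, t, hst, h3⟩ := hex 1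
        refine ⟨s, t, hst, fun j => ?_⟩
        have h4 := hRs s t
        rw [h3, mul_zero, add_zero] at h4
        fin_cases j
        · exact (mul_eq_zero.1 h4).resolve_left hu0
        · exact h3
      · obtain ⟨s, t, hst, h3⟩ := hex 0
        refine ⟨s, t, hst, fun j => ?_⟩
        have h4 := hRs s t
        rw [h3, mul_zero, zero_add] at h4
        fin_cases j
        · exact h3
        · exact (mul_eq_zero.1 h4).resolve_left hu1
    obtain ⟨i, hi⟩ := hsm u ![a * s + b * t, s, t] hu (by
      intro h3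
      rcases hst with h4 | h4
      · exact h4 (congrFun h3 1)
      · exact h4 (congrFun h3 2)) (by
      rw [hbf, e0, e1, e2, ← ha, ← hb]
      simp only [Matrix.cons_val_zero, Matrix.cons_val_one, Matrix.cons_val]
      linear_combination (a ^ 2 * s ^ 2 + a * b * s * t + b ^ 2 * t ^ 2) * h2)
    apply hi
    rcases i with j | j
    · rw [pderiv_inl]
      simp only [Matrix.cons_val_zero, Matrix.cons_val_one, Matrix.cons_val]
      exact hR0 j
    · fin_cases j
      · simp only [Fin.zero_eta, Fin.isValue]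
        rw [pderiv_inr0, e0, e1, h2]
        ring
      · simp only [Fin.mk_one, Fin.isValue]
        rw [pderiv_inr1, e0, e2, h2]
        ring
      · simp only [Fin.reduceFinMk, Fin.isValue]
        rw [pderiv_inr2, e1, e2, h2]
        ring
  · obtain ⟨i, hi⟩ := hsm u ![aeval u (q 1), aeval u (l 1), aeval u (l 0)] hu (by
      intro h3
      exact hρ ⟨congrFun h3 2, congrFun h3 1, congrFun h3 0⟩) (by
      rw [hbf]
      rw [hF] at h0
      simp only [Matrix.cons_val_zero, Matrix.cons_val_one, Matrix.cons_val]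
      linear_combination h0 + (aeval u (l 0) * aeval u (l 1) * aeval u (q 1)) * h2)
    apply hi
    rcases i with j | j
    · rw [pderiv_inl]
      have h3 := hcon j
      rw [pderiv_discr] at h3
      simp only [Matrix.cons_val_zero, Matrix.cons_val_one, Matrix.cons_val]
      linear_combination h3
    · fin_cases j
      · simp only [Fin.zero_eta, Fin.isValue]
        rw [pderiv_inr0, h2]
        simp only [Matrix.cons_val_zero, Matrix.cons_val_one, Matrix.cons_val]
        linear_combination (aeval u (l 0) * aeval u (l 1)) * h2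
      · simp only [Fin.mk_one, Fin.isValue]
        rw [pderiv_inr1, h2]
        simp only [Matrix.cons_val_zero, Matrix.cons_val_one, Matrix.cons_val]
        linear_combination (aeval u (l 0) * aeval u (q 1)) * h2
      · simp only [Fin.reduceFinMk, Fin.isValue]
        rw [pderiv_inr2, h2]
        simp only [Matrix.cons_val_zero, Matrix.cons_val_one, Matrix.cons_val]
        linear_combination (aeval u (l 1) * aeval u (q 1)) * h2

end

end Pool.Agent.Helper31.CB
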