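import Mathlib
import Pool.Agent.Helper31.CB.Norm6
import Pool.Agent.Helper31.CB.Smooth

set_option autoImplicit false
set_option linter.unusedSectionVars false

/-!
# The Brauer-Manin obstruction for conic bundle surfaces in characteristic two
-/

universe u

namespace Pool.Agent.Helper31.CB

open MvPolynomial
open Pool.Agent.Helper26 hiding chQ chG chG_map qf_chG pm_chG pm_chG_mulVec ch_jac ch_hp

/-- The Brauer-Manin obstruction is the only obstruction. -/
theorem conic_bundle_bm {k : Type u} [Field k] [Algebra (RatFunc (ZMod 2)) k]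
    [FiniteDimensional (RatFunc (ZMod 2)) k] (l : Fin 2 → MvPolynomial (Fin 2) k)
    (q : Fin 3 → MvPolynomial (Fin 2) k) (hl : ∀ i, (l i).IsHomogeneous 1)
    (hq : ∀ i, (q i).IsHomogeneous 2) (hsmooth : IsSmoothBundle l q)
    (u : ∀ V : ValuationSubring k, Fin 2 → V.valuation.Completion)
    (y : ∀ V : ValuationSubring k, Fin 3 → V.valuation.Completion)
    (hloc : ∀ V : ValuationSubring k, V ≠ ⊤ →
      eval₂ (toCompletion V) (u V) (discr l q) ≠ 0 ∧ y V ≠ 0 ∧
      eval₂ (toCompletion V) (Sum.elim (u V) (y V)) (bundlePoly l q) = 0)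
    (hBM : ∀ (K : Type u) [Field K] [Algebra k K] [Algebra.IsSeparable k K],
      Module.finrank k K = 2 → ∀ t : Fin 2 → K, LinearIndependent k t →
        eval₂ (algebraMap k K) t (discr l q) = 0 →
      ∀ (z : Fin 3 → K) (ε : K), linPart (algebraMap k K) l t z ≠ 0 →
        eval₂ (algebraMap k K) (Sum.elim t z) (bundlePoly l q) =
          ε * linPart (algebraMap k K) l t z ^ 2 →
        (∃ x : k, x ^ 2 + x = Algebra.trace k K ε) →
        (oddPlaces ε t u).Finite ∧ Even (oddPlaces ε t u).ncard) :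
    ∃ (u : Fin 2 → k) (y : Fin 3 → k), u ≠ 0 ∧ y ≠ 0 ∧
      eval (Sum.elim u y) (bundlePoly l q) = 0 := by
  have hchar : CharP k 2 :=
    charP_of_injective_algebraMap (algebraMap (RatFunc (ZMod 2)) k).injective 2
  have hinf := infinite_of_algebra k
  obtain ⟨φ, hφ⟩ := exists_goodEmb (ZMod 2) k
  obtain ⟨u', y', hu', hy', hb⟩ := conic_bundle_gen hφ hl hq (smooth_discr hl hq hsmooth) u y
    (fun V hV => by
      obtain ⟨h1, h2, h3⟩ := hloc V hV
      rw [eval₂_bundlePoly] at h3
      exact ⟨h1, h2, h3⟩) (by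
      intro K _ _ _ hK t ht ht0 z ε hz hε hx
      exact hBM K hK t ht ht0 z ε hz (by rw [eval₂_bundlePoly]; exact hε) hx)
  refine ⟨u', y', hu', hy', ?_⟩
  have h3 := eval₂_bundlePoly (RingHom.id k) l q u' y'
  rw [eval₂_id] at h3
  rw [h3]
  exact hb

end Pool.Agent.Helper31.CB
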